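import Pool.Agent.Q85.VL.Defs

/-!
Project CV (helper2, helper1): curvature of the vortex lines. Definitions and statements of parts.

`V = Fin 3 → ℝ` has the maximum norm, `len` is the Euclidean length, `vort v` the vorticity and
`om v` its length.
-/

set_option autoImplicit false

open MeasureTheory Set Metric
open scoped ContDiff
open H459R3.NS Pool.Agent.W268.NS Pool.Agent.Q67.VD

namespace Pool.Agent.H2CV

open Pool.Agent.Q85.CC Pool.Agent.Q85.CL Pool.Agent.Q85.VL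

/-- The length of the vorticity times the curvature of the vortex line:
`|ω × (ω · ∇) ω| / |ω|²` (it is `0` where `ω = 0`). -/
noncomputable def cv (v : V → V) (y : V) : ℝ :=
  len (crossProduct (vort v y) (fderiv ℝ (vort v) y (vort v y))) / om v y ^ 2

/-- CV-MOR. The Morrey bound at one time. -/
def StmMorC : Prop := ∃ C : ℝ, 1 ≤ C ∧ ∀ (v : V → V) (x : V) (r R : ℝ), SM v → 0 < r →
  r ≤ R / 2 → ∫ y in closedBall x r, om v y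
    ≤ C * ((∫ y in closedBall x R, om v y) / R + ∫ y in closedBall x R, cv v y) * r

/-- CV-PIN. The pinching lemma: near a concentration of the vorticity there is a scale at which the
vorticity is nearly radial, and not small on all the shells. -/
def StmPinC : Prop := ∃ c : ℝ, 0 < c ∧ c ≤ 1 ∧ ∀ K η τ : ℝ, 0 ≤ K → 0 < η → η ≤ 1 → 0 < τ →
  τ ≤ 1 → ∃ N : ℕ, ∀ (v : V → V) (x : V) (R ρ : ℝ), SM v → 0 < R →
    ∫ y in closedBall x R, om v y ≤ K * R → ∫ y in closedBall x R, cv v y ≤ c * η →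
    0 < ρ → ρ ≤ (1 / 256) ^ N * R → η * ρ ≤ ∫ y in closedBall x ρ, om v y →
      ∃ k < N,
        ∫ y in closedBall x ((1 / 256) ^ k * (R / 4) / 16) \
            ball x ((1 / 256) ^ k * (R / 4) / 128),
          len (crossProduct (y - x) (vort v y)) ^ 2 / om v y
            ≤ τ * ((1 / 256) ^ k * (R / 4)) ^ 3 ∧
        ∀ s w : ℝ, (1 / 256) ^ k * (R / 4) / 64 ≤ s → s ≤ (1 / 256) ^ k * (R / 4) / 32 →
          0 < w → w ≤ s / 4 → c * η * w ≤ ∫ y in Shell x s w, om v y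

/-- CV-GOOD. A cube surface whose points are good during a time interval. -/
def StmGoodT : Prop := ∃ c : ℝ, 1 ≤ c ∧ ∀ K C₁ : ℝ, 0 ≤ K → 0 ≤ C₁ →
  ∃ h L : ℝ, 0 < h ∧ h ≤ 1 ∧ 1 ≤ L ∧ ∀ (T E : ℝ) (O : Set V) (u : ℝ → V → V) (p : ℝ → V → ℝ),
    0 < T → LSl T E O u p → ∀ (a : V) (ρ₀ : ℝ), 0 < ρ₀ → closedBall a ρ₀ ⊆ O →
    ∃ r₀ : ℝ, 0 < r₀ ∧ ∀ (t r : ℝ) (x : V), 0 < r → r ≤ r₀ → T / 2 ≤ t → t < T →
      ‖x - a‖ ≤ ρ₀ / 2 →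
      (∀ τ ∈ Ioo (t - L * r ^ 2) t, ∀ y ∈ closedBall x (ρ₀ / 4), ∀ ρ ∈ Ioc 0 r,
        ‖W221.NS.mol ρ u τ y‖ ≤ K / ρ) →
      (∀ y ∈ closedBall x (ρ₀ / 4), ∀ ρ ∈ Ioc 0 (L * r),
        ∫ τ in Ioo (t - ρ ^ 2) t, W221.NS.B2 y ρ (u τ) ≤ C₁ * ρ) →
        ∃ s ∈ Icc (r / 64) (r / 32), ∀ y, ‖y - x‖ = s → ∀ τ ∈ Ioc (t - (h * r) ^ 2) t,
          Gd c (h * r) (u τ) y

/-- CV-VEL. Bounds of the velocity and its derivatives at a good point. -/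
def StmVelT : Prop := ∀ c K : ℝ, 1 ≤ c → 0 ≤ K → ∃ C : ℝ, 1 ≤ C ∧
  ∀ (v : V → V) (a y : V) (ρ₀ ρ Q : ℝ), SM v → 0 ≤ Q → 0 < ρ → ρ ≤ ρ₀ / 4 → ρ ≤ 1 →
    DFO (ball a ρ₀) v → MorB K a ρ₀ (om v) →
    √((∫ z in closedBall a ρ₀, W221.NS.nsq v z) / ρ₀ ^ 3) ≤ Q → ‖y - a‖ + ρ ≤ ρ₀ / 2 →
    Gd c ρ v y → ∀ n ≤ 4, ∀ i, SQ n (fun z => v z i) y ≤ (C * (1 + Q) / ρ ^ (n + 1)) ^ 2

/-- CV-SHL. The argument on the shell, at unit scale. -/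
def StmShl : Prop := ∀ M h ε : ℝ, 1 ≤ M → 0 < h → h ≤ 1 → 0 < ε → ∃ τ w₀ : ℝ, 0 < τ ∧ 0 < w₀ ∧
  w₀ ≤ h ∧ ∀ (T : ℝ) (O : Set V) (u : ℝ → V → V) (p : ℝ → V → ℝ) (t s : ℝ), LEq T O u p →
    h ^ 2 < t → t < T → 1 / 64 ≤ s → s ≤ 1 / 32 →
    (∀ t' ∈ Ioc (t - h ^ 2) t, ∀ y, |‖y‖ - s| < h → y ∈ O ∧
      (∀ n ≤ 5, ∀ i j, SQ n (cur i j (u t')) y ≤ M) ∧
      ∀ n ≤ 4, ∀ i, SQ n (fun z => u t' z i) y ≤ M) →
    ∫ y in Shell 0 s h, len (crossProduct y (vort (u t) y)) ^ 2 ≤ τ →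
    (∀ t' ∈ Ioc (t - h ^ 2) t, ∫ y in Shell 0 s h, cv (u t') y ≤ τ) →
      ∀ y, |‖y‖ - s| ≤ w₀ → om (u t) y ≤ ε

end Pool.Agent.H2CV
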