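import Pool.Agent.Q85.CC.Defs
import Pool.Agent.TH305.DR.Basic

/-!
Project CV: the two sums of squares of derivatives agree.
-/

set_option autoImplicit false

open H459R3.NS
open Pool.Agent.TH305.DR (SS SS_succ)
open Pool.Agent.Q85.CC (SQ)

namespace Pool.Agent.H2CV

lemma SQ_eq (n : ℕ) : ∀ (f : V → ℝ) (x : V), SQ n f x = SS n f x := by
  induction n with
  | zero => intro f x; rfl
  | succ n ih =>
    intro f x
    rw [SS_succ]
    show ∑ i, SQ n (pd i f) x = _
    exact Finset.sum_congr rfl fun i _ => ih _ _

end Pool.Agent.H2CV
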