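import Pool.Agent.H2CV.Shl
import Pool.Agent.H2CV.SQ
import Pool.Agent.Q85.CL.FluxL

/-!
Project CV: the argument on the shell, from integrals to pointwise bounds.
-/

set_option autoImplicit false

open MeasureTheory Set Metric Filter Topology
open scoped ContDiff

namespace Pool.Agent.H2CV

open H459R3.NS Pool.Agent.W268.NS Pool.Agent.Q67.VD Pool.Agent.TH305.DR
open Pool.Agent.Q85.CL (LEq SM)
open Pool.Agent.Q85.VL (Shell)
open Pool.Agent.Q151.CC (vort_df)
open Pool.Agent.H1CV (lagr2 len_sq' len_pos_of_ne ww ww_le)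

/-! ### The density of the curvature -/

lemma len_nn (a : V) : 0 ≤ len a := Real.sqrt_nonneg _

lemma len_sq3 (a : V) : len a ^ 2 = ∑ i, a i ^ 2 := by
  rw [len_sq']
  unfold dotProduct
  exact Finset.sum_congr rfl fun i _ => (sq _).symm

lemma cross_len (a b : V) : len (crossProduct a b) ≤ len a * len b := by
  refine abs_le_of_sq_le_sq' ?_ (mul_nonneg (len_nn _) (len_nn _)) |>.2
  rw [mul_pow, len_sq', len_sq', len_sq']
  have := lagr2 a b
  nlinarith [sq_nonneg (a ⬝ᵥ b)]

lemma abs_cross (a b : V) (i j : Fin 3) : |a i * b j - a j * b i| ≤ len (crossProduct a b) := by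
  refine abs_le_of_sq_le_sq ?_ (len_nn _)
  rw [len_sq3, Fin.sum_univ_three, cross_apply]
  simp only [Matrix.cons_val_zero, Matrix.cons_val_one, Matrix.cons_val]
  fin_cases i <;> fin_cases j <;> simp only [Fin.zero_eta, Fin.mk_one, Fin.reduceFinMk] <;>
    nlinarith [sq_nonneg (a 1 * b 2 - a 2 * b 1), sq_nonneg (a 2 * b 0 - a 0 * b 2),
      sq_nonneg (a 0 * b 1 - a 1 * b 0)]

lemma cv_nonneg (v : V → V) (y : V) : 0 ≤ cv v y := div_nonneg (len_nn _) (sq_nonneg _)

lemma cv_le (v : V → V) (y : V) : cv v y ≤ 2 * ‖fderiv ℝ (vort v) y‖ := by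
  unfold cv
  by_cases h : om v y = 0
  · rw [h]
    simp
  · have hp : 0 < om v y ^ 2 := by
      have := len_nn (vort v y)
      positivity
    rw [div_le_iff₀ hp]
    refine (cross_len _ _).trans ?_
    have h1 : len (fderiv ℝ (vort v) y (vort v y)) ≤ 2 * ‖fderiv ℝ (vort v) y‖ * len (vort v y) :=
      ww_le (vort v) y
    calc len (vort v y) * len (fderiv ℝ (vort v) y (vort v y))
        ≤ len (vort v y) * (2 * ‖fderiv ℝ (vort v) y‖ * len (vort v y)) :=
          mul_le_mul_of_nonneg_left h1 (len_nn _)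
      _ = 2 * ‖fderiv ℝ (vort v) y‖ * om v y ^ 2 := by
        unfold om
        ring

lemma vort_c1 {v : V → V} (hv : SM v) : ContDiff ℝ 1 (vort v) := contDiff_pi.2 (vort_df hv).smooth

lemma len_cont : Continuous len := by
  have : (len : V → ℝ) = fun a => √(a ⬝ᵥ a) := rfl
  rw [this]
  refine Real.continuous_sqrt.comp ?_
  unfold dotProduct
  fun_prop

lemma cross_cont {f g : V → V} (hf : Continuous f) (hg : Continuous g) :
    Continuous fun y => crossProduct (f y) (g y) := by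
  have : (fun y => crossProduct (f y) (g y)) = fun y => ![f y 1 * g y 2 - f y 2 * g y 1,
      f y 2 * g y 0 - f y 0 * g y 2, f y 0 * g y 1 - f y 1 * g y 0] :=
    funext fun y => cross_apply _ _
  rw [this]
  have hf' : ∀ i, Continuous fun y => f y i := fun i => (continuous_apply i).comp hf
  have hg' : ∀ i, Continuous fun y => g y i := fun i => (continuous_apply i).comp hg
  rw [continuous_pi_iff]
  intro i
  fin_cases i
  · exact ((hf' 1).mul (hg' 2)).sub ((hf' 2).mul (hg' 1))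
  · exact ((hf' 2).mul (hg' 0)).sub ((hf' 0).mul (hg' 2))
  · exact ((hf' 0).mul (hg' 1)).sub ((hf' 1).mul (hg' 0))

lemma ww_cont {v : V → V} (hv : SM v) : Continuous fun y => fderiv ℝ (vort v) y (vort v y) :=
  ((vort_c1 hv).continuous_fderiv one_ne_zero).clm_apply (vort_c1 hv).continuous

lemma om_cont' {v : V → V} (hv : SM v) : Continuous (om v) := len_cont.comp (vort_c1 hv).continuous

lemma cv_meas {v : V → V} (hv : SM v) : Measurable (cv v) := by
  unfold cv
  exact (len_cont.comp (cross_cont (vort_c1 hv).continuous (ww_cont hv))).measurable.div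
    ((om_cont' hv).pow 2).measurable

lemma cv_int {v : V → V} (hv : SM v) {K : Set V} (hK : IsCompact K) : IntegrableOn (cv v) K := by
  have h1 : IntegrableOn (fun y => 2 * ‖fderiv ℝ (vort v) y‖) K :=
    (continuous_const.mul ((vort_c1 hv).continuous_fderiv one_ne_zero).norm).continuousOn.integrableOn_compact
      hK
  refine Integrable.mono' h1 (cv_meas hv).aestronglyMeasurable (Eventually.of_forall fun y => ?_)
  rw [Real.norm_eq_abs, abs_of_nonneg (cv_nonneg v y)]
  exact cv_le v y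

lemma om_sq (v : V → V) (y : V) : om v y ^ 2 = ∑ i, vc v i y ^ 2 := len_sq3 _

lemma FF_cv {v : V → V} (hv : SM v) (i j : Fin 3) (y : V) :
    |FF (vc v) i j y| ≤ cv v y * om v y ^ 2 := by
  have h1 : ∀ j, av (vc v) (vc v j) y = fderiv ℝ (vort v) y (vort v y) j := by
    intro j
    have e1 : HasFDerivAt (vort v) (fderiv ℝ (vort v) y) y :=
      ((vort_c1 hv).differentiable one_ne_zero y).hasFDerivAt
    have e2 : HasFDerivAt (fun z => vort v z j)
        ((ContinuousLinearMap.proj (R := ℝ) (φ := fun _ : Fin 3 => ℝ) j).comp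
          (fderiv ℝ (vort v) y)) y := (hasFDerivAt_pi'.1 e1) j
    have e3 : fderiv ℝ (vc v j) y = _ := e2.fderiv
    have e4 := fd_sum (vc v j) y (vort v y)
    rw [e3] at e4
    exact e4.symm
  have h2 : |FF (vc v) i j y| ≤ len (crossProduct (vort v y) (fderiv ℝ (vort v) y (vort v y))) := by
    unfold FF
    rw [h1, h1]
    exact abs_cross _ _ i j
  by_cases h : om v y = 0
  · have h3 : vort v y = 0 := by
      by_contra hc
      have := len_pos_of_ne hc
      unfold om at h
      linarith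
    have h4 : FF (vc v) i j y = 0 := by
      have h5 : ∀ i, vc v i y = 0 := fun i => by
        show vort v y i = 0
        rw [h3]
        rfl
      unfold FF
      rw [h5, h5]
      ring
    rw [h4, h]
    simp
  · refine h2.trans (le_of_eq ?_)
    unfold cv
    field_simp

lemma bv_le (v : V → V) (i j : Fin 3) (y : V) :
    |bv (vc v) i j y| ≤ len (crossProduct y (vort v y)) := abs_cross _ _ i j

/-! ### From the integrals to pointwise bounds -/

variable {M h : ℝ}

theorem shl2 (hM : 0 ≤ M) (hh : 0 < h) (hh1 : h ≤ 1 / 256) {ε : ℝ} (hε : 0 < ε) : ∃ τ : ℝ,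
    0 < τ ∧ ∀ d : Dt M h,
      ∫ y in Shell 0 d.s h, len (crossProduct y (vort (d.u d.t) y)) ^ 2 ≤ τ →
      (∀ σ ∈ Ioc (d.t - h ^ 2) d.t, ∫ y in Shell 0 d.s h, cv (d.u σ) y ≤ τ) →
      ∀ y ∈ d.Om (h / 2), ∀ i, |vc (d.u d.t) i y| ≤ ε := by
  obtain ⟨ε₁, hε₁, H⟩ := shl1 hM hh hh1 hε
  have hΩ : ∀ d : Dt2 M h, ∀ y ∈ d.toDt.Om h, ‖y‖ ≤ 1 := fun d y hy =>
    d.toDt.norm_le (by linarith) hy
  -- the bounds
  have bw : ∀ i, Bd (fun d : Dt2 M h => d.toDt.Om h) 5 (fun d => vc (d.u d.σ) i) := fun i =>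
    ⟨fun d => d.toDt.smw d.hσ i, M, hM, fun d n hn y hy => (d.bd d.σ d.hσ y hy).2.1 n hn i⟩
  have bb : ∀ i j, Bd (fun d : Dt2 M h => d.toDt.Om h) 5 (fun d => bv (vc (d.u d.σ)) i j) :=
    fun i j => ((Bd.coord hΩ i).mul (bw j)).sub ((Bd.coord hΩ j).mul (bw i))
  have bF : ∀ i j, Bd (fun d : Dt2 M h => d.toDt.Om h) 1 (fun d => FF (vc (d.u d.σ)) i j) := by
    intro i j
    have b1 : ∀ i, Bd (fun d : Dt2 M h => d.toDt.Om h) 1 (fun d => vc (d.u d.σ) i) := fun i =>
      (bw i).mono (by norm_num)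
    have b2 : ∀ i, Bd (fun d : Dt2 M h => d.toDt.Om h) 2 (fun d => vc (d.u d.σ) i) := fun i =>
      (bw i).mono (by norm_num)
    have b3 : ∀ j, Bd (fun d : Dt2 M h => d.toDt.Om h) 1
        (fun d => av (vc (d.u d.σ)) (vc (d.u d.σ) j)) := fun j =>
      Bd.av (Z := fun i d => vc (d.u d.σ) i) b1 (b2 j)
    exact ((b1 i).mul (b3 j)).sub ((b1 j).mul (b3 i))
  choose sb Cb hCb Hb using bb
  choose sF CF hCF HF using bF
  obtain ⟨B, hBd⟩ : ∃ B, B = (∑ i, ∑ j, Cb i j) + (∑ i, ∑ j, CF i j) + 1 := ⟨_, rfl⟩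
  have hs1 : 0 ≤ ∑ i, ∑ j, Cb i j := Finset.sum_nonneg fun i _ =>
    Finset.sum_nonneg fun j _ => hCb i j
  have hs2 : 0 ≤ ∑ i, ∑ j, CF i j := Finset.sum_nonneg fun i _ =>
    Finset.sum_nonneg fun j _ => hCF i j
  have hle : ∀ (C : Fin 3 → Fin 3 → ℝ), (∀ i j, 0 ≤ C i j) → ∀ i j, C i j ≤ ∑ i, ∑ j, C i j := by
    intro C hC i j
    have h1 : C i j ≤ ∑ j, C i j :=
      Finset.single_le_sum (f := fun j => C i j) (fun j _ => hC i j) (Finset.mem_univ j)
    exact h1.trans (Finset.single_le_sum (f := fun i => ∑ j, C i j)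
      (fun i _ => Finset.sum_nonneg fun j _ => hC i j) (Finset.mem_univ i))
  have hB : 0 < B := by rw [hBd]; linarith
  have hBb : ∀ i j, Cb i j ≤ B := fun i j => by
    have := hle Cb hCb i j
    rw [hBd]
    linarith
  have hBF : ∀ i j, CF i j ≤ B := fun i j => by
    have := hle CF hCF i j
    rw [hBd]
    linarith
  -- interpolation
  have hint : ∀ k : ℕ, ∃ ε₂ : ℝ, 0 < ε₂ ∧
    ∀ (f : V → ℝ) (y : V), ContDiff ℝ ∞ f → (∀ z ∈ closedBall y (k * (h / 16)), |f z| ≤ ε₂) →
      (∀ z ∈ closedBall y (k * (h / 16)), ∀ n ≤ k + 1, SS n f z ≤ B ^ 2) →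
        SS k f y ≤ ε₁ ^ 2 := fun k => interpN k B (h / 16) ε₁ hB (by positivity) hε₁
  choose e he Hi using hint
  obtain ⟨ε₂, hε₂⟩ : ∃ ε₂, ε₂ = min (min (e 0) (e 1)) (min (e 2) (e 3)) := ⟨_, rfl⟩
  have h20 : 0 < ε₂ := by
    rw [hε₂]
    exact lt_min (lt_min (he 0) (he 1)) (lt_min (he 2) (he 3))
  have h2k : ∀ k ≤ 3, ε₂ ≤ e k := by
    intro k hk
    interval_cases k
    · rw [hε₂]; exact (min_le_left _ _).trans (min_le_left _ _)
    · rw [hε₂]; exact (min_le_left _ _).trans (min_le_right _ _)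
    · rw [hε₂]; exact (min_le_right _ _).trans (min_le_left _ _)
    · rw [hε₂]; exact (min_le_right _ _).trans (min_le_right _ _)
  obtain ⟨τ₁, hτ₁, L1⟩ := l2sup (M := B) (ρ := h / 8) (ε := ε₂) hB (by positivity) h20
  obtain ⟨τ₂, hτ₂, L2⟩ := l2sup (M := B) (ρ := h / 8) (ε := ε₁) hB (by positivity) hε₁
  obtain ⟨τ, hτ⟩ : ∃ τ, τ = min τ₁ (τ₂ / (B * (3 * M ^ 2) + 1)) := ⟨_, rfl⟩
  have hτ0 : 0 < τ := by rw [hτ]; exact lt_min hτ₁ (by positivity)
  have hτ1 : τ ≤ τ₁ := by rw [hτ]; exact min_le_left _ _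
  have hτ2 : B * (3 * M ^ 2) * τ ≤ τ₂ := by
    have h1 : τ ≤ τ₂ / (B * (3 * M ^ 2) + 1) := by rw [hτ]; exact min_le_right _ _
    rw [le_div_iff₀ (by positivity)] at h1
    nlinarith
  refine ⟨τ, hτ0, fun d hb hc => ?_⟩
  have hht : 0 < h ^ 2 := by positivity
  -- the regions
  have reg : ∀ y ∈ d.Om (3 * h / 4), closedBall y (h / 8) ⊆ d.Om h ∩ Shell 0 d.s h := by
    intro y hy z hz
    have h1 : |‖y‖ - d.s| < 3 * h / 4 := hy
    rw [mem_closedBall, dist_eq_norm] at hz
    have h2 := abs_norm_sub_norm_le z y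
    have h3 : |‖z‖ - d.s| < h := by
      have e : ‖z‖ - d.s = (‖z‖ - ‖y‖) + (‖y‖ - d.s) := by ring
      rw [e]
      refine (abs_add_le _ _).trans_lt ?_
      linarith
    refine ⟨h3, ?_⟩
    show |‖z - 0‖ - d.s| ≤ h
    rw [sub_zero]
    exact h3.le
  have reg2 : ∀ k : ℕ, k ≤ 3 → ∀ y ∈ d.Om (h / 2), closedBall y (k * (h / 16)) ⊆ d.Om (3 * h / 4) := by
    intro k hk y hy z hz
    have h1 : |‖y‖ - d.s| < h / 2 := hy
    rw [mem_closedBall, dist_eq_norm] at hz
    have h2 := abs_norm_sub_norm_le z y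
    have hk' : (k : ℝ) ≤ 3 := by exact_mod_cast hk
    show |‖z‖ - d.s| < 3 * h / 4
    have e : ‖z‖ - d.s = (‖z‖ - ‖y‖) + (‖y‖ - d.s) := by ring
    rw [e]
    refine (abs_add_le _ _).trans_lt ?_
    nlinarith
  have hShc : IsCompact (Shell 0 d.s h) := by
    refine (isCompact_closedBall (0 : V) (d.s + h)).of_isClosed_subset ?_ ?_
    · have : Continuous fun y : V => |‖y - 0‖ - d.s| := by fun_prop
      exact isClosed_le this continuous_const
    · intro y hy
      have hy' : |‖y - 0‖ - d.s| ≤ h := hy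
      have := (abs_le.1 hy').2
      rw [mem_closedBall, dist_eq_norm]
      linarith
  have smu : ∀ σ ∈ Ioc (d.t - h ^ 2) d.t, SM (d.u σ) := fun σ hσ i => d.smu hσ i
  -- the first family
  have f1 : ∀ y ∈ d.Om (3 * h / 4), ∀ i j, |bv (vc (d.u d.t)) i j y| ≤ ε₂ := by
    intro y hy i j
    have hsm := sm_bv (fun k => d.smw (d.memt hh) k) i j
    refine L1 _ y hsm (fun z hz => ?_) ?_
    · exact (Hb i j ⟨d, d.t, d.memt hh⟩ 1 (by norm_num) z (reg y hy hz).1).trans
        (pow_le_pow_left₀ (hCb i j) (hBb i j) 2)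
    · have hcl : Continuous fun y => len (crossProduct y (vort (d.u d.t) y)) ^ 2 :=
        (len_cont.comp (cross_cont continuous_id (vort_c1 (smu d.t (d.memt hh))).continuous)).pow 2
      calc ∫ z in closedBall y (h / 8), bv (vc (d.u d.t)) i j z ^ 2
          ≤ ∫ z in closedBall y (h / 8), len (crossProduct z (vort (d.u d.t) z)) ^ 2 := by
            apply setIntegral_mono_on
              ((hsm.continuous.pow 2).continuousOn.integrableOn_compact (isCompact_closedBall _ _))
              (hcl.continuousOn.integrableOn_compact (isCompact_closedBall _ _))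
              measurableSet_closedBall
            intro z _
            have q1 := pow_le_pow_left₀ (abs_nonneg _) (bv_le (d.u d.t) i j z) 2
            rw [sq_abs] at q1
            exact q1
        _ ≤ ∫ z in Shell 0 d.s h, len (crossProduct z (vort (d.u d.t) z)) ^ 2 :=
            setIntegral_mono_set (hcl.continuousOn.integrableOn_compact hShc)
              (Eventually.of_forall fun z => sq_nonneg _)
              (show closedBall y (h / 8) ⊆ Shell 0 d.s h from
                fun z hz => (reg y hy hz).2).eventuallyLE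
        _ ≤ τ₁ := hb.trans hτ1
  have f2 : ∀ n ≤ 3, ∀ y ∈ d.Om (h / 2), ∀ i j, SS n (bv (vc (d.u d.t)) i j) y ≤ ε₁ ^ 2 := by
    intro n hn y hy i j
    refine Hi n _ y (sm_bv (fun k => d.smw (d.memt hh) k) i j) (fun z hz => ?_)
      (fun z hz m hm => ?_)
    · exact (f1 z (reg2 n hn y hy hz) i j).trans (h2k n hn)
    · have hz' : z ∈ d.Om h := (reg z (reg2 n hn y hy hz) (mem_closedBall_self (by positivity))).1
      exact (Hb i j ⟨d, d.t, d.memt hh⟩ m (by omega) z hz').trans
        (pow_le_pow_left₀ (hCb i j) (hBb i j) 2)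
  -- the second family
  have f3 : ∀ σ ∈ Ioc (d.t - h ^ 2) d.t, ∀ y ∈ d.Om (h / 2), ∀ i j,
      |FF (vc (d.u σ)) i j y| ≤ ε₁ := by
    intro σ hσ y hy i j
    have hy' : y ∈ d.Om (3 * h / 4) := by
      have h1 : |‖y‖ - d.s| < h / 2 := hy
      show |‖y‖ - d.s| < 3 * h / 4
      linarith
    have hsm : ContDiff ℝ ∞ (FF (vc (d.u σ)) i j) := sF i j ⟨d, σ, hσ⟩
    refine L2 _ y hsm (fun z hz => ?_) ?_
    · exact (HF i j ⟨d, σ, hσ⟩ 1 le_rfl z (reg y hy' hz).1).trans
        (pow_le_pow_left₀ (hCF i j) (hBF i j) 2)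
    · have hpt : ∀ z ∈ closedBall y (h / 8), FF (vc (d.u σ)) i j z ^ 2
          ≤ B * (3 * M ^ 2) * cv (d.u σ) z := by
        intro z hz
        have hzO := (reg y hy' hz).1
        have a1 := FF_cv (smu σ hσ) i j z
        have a2 := HF i j ⟨d, σ, hσ⟩ 0 (by norm_num) z hzO
        rw [SS_zero] at a2
        have a3 : |FF (vc (d.u σ)) i j z| ≤ B := (abs_le_of_sq_le_sq a2 (hCF i j)).trans (hBF i j)
        have a4 : om (d.u σ) z ^ 2 ≤ 3 * M ^ 2 := by
          rw [om_sq]
          have : ∀ i, vc (d.u σ) i z ^ 2 ≤ M ^ 2 := by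
            intro i
            have := (d.bd σ hσ z hzO).2.1 0 (by norm_num) i
            rwa [SS_zero] at this
          refine (Finset.sum_le_sum fun i _ => this i).trans (le_of_eq ?_)
          simp
        rw [← sq_abs, sq]
        have a5 := cv_nonneg (d.u σ) z
        calc |FF (vc (d.u σ)) i j z| * |FF (vc (d.u σ)) i j z|
            ≤ B * (cv (d.u σ) z * (3 * M ^ 2)) := by
              refine mul_le_mul a3 (a1.trans ?_) (abs_nonneg _) hB.le
              exact mul_le_mul_of_nonneg_left a4 a5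
          _ = _ := by ring
      calc ∫ z in closedBall y (h / 8), FF (vc (d.u σ)) i j z ^ 2
          ≤ ∫ z in closedBall y (h / 8), B * (3 * M ^ 2) * cv (d.u σ) z := by
            apply setIntegral_mono_on
              ((hsm.continuous.pow 2).continuousOn.integrableOn_compact (isCompact_closedBall _ _))
              ((cv_int (smu σ hσ) (isCompact_closedBall _ _)).const_mul _)
              measurableSet_closedBall hpt
        _ = B * (3 * M ^ 2) * ∫ z in closedBall y (h / 8), cv (d.u σ) z := integral_const_mul _ _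
        _ ≤ B * (3 * M ^ 2) * ∫ z in Shell 0 d.s h, cv (d.u σ) z := by
            refine mul_le_mul_of_nonneg_left ?_ (by positivity)
            exact setIntegral_mono_set (cv_int (smu σ hσ) hShc)
              (Eventually.of_forall fun z => cv_nonneg _ _)
              (show closedBall y (h / 8) ⊆ Shell 0 d.s h from
                fun z hz => (reg y hy' hz).2).eventuallyLE
        _ ≤ B * (3 * M ^ 2) * τ := mul_le_mul_of_nonneg_left (hc σ hσ) (by positivity)
        _ ≤ τ₂ := hτ2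
  exact H d f2 f3

/-- CV-SHL. -/
theorem shl : StmShl := by
  intro M h ε hM hh hh1 hε
  obtain ⟨h', hh'⟩ : ∃ h', h' = min h (1 / 256) := ⟨_, rfl⟩
  have h0 : 0 < h' := by rw [hh']; exact lt_min hh (by norm_num)
  have h1 : h' ≤ h := by rw [hh']; exact min_le_left _ _
  have h2 : h' ≤ 1 / 256 := by rw [hh']; exact min_le_right _ _
  obtain ⟨τ, hτ, H⟩ := shl2 (M := M) (h := h') (by linarith) h0 h2 (ε := ε / 3) (by positivity)
  refine ⟨τ, h' / 4, hτ, by positivity, by linarith, ?_⟩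
  intro T O u p t s hL ht tT s1 s2 hbd hI hc y hy
  have hsq : h' ^ 2 ≤ h ^ 2 := pow_le_pow_left₀ h0.le h1 2
  have hM2 : M ≤ M ^ 2 := by nlinarith
  have hIoc : ∀ t' ∈ Ioc (t - h' ^ 2) t, t' ∈ Ioc (t - h ^ 2) t := fun t' ht' =>
    ⟨by linarith [ht'.1], ht'.2⟩
  have hvcur : ∀ (v : V → V) (i : Fin 3), vc v i = Pool.Agent.Q85.CC.cur
      (Pool.Agent.Q129.VD3.aI i) (Pool.Agent.Q129.VD3.bI i) v := fun v i => by
    rw [vc_eq]
    rfl
  let d : Dt M h' := ⟨T, O, u, p, t, s, hL, by linarith, tT, s1, s2, fun t' ht' y hy => by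
    obtain ⟨b1, b2, b3⟩ := hbd t' (hIoc t' ht') y (hy.trans_le h1)
    refine ⟨b1, fun n hn i => ?_, fun n hn i => ?_⟩
    · rw [hvcur, ← Pool.Agent.H2CV.SQ_eq]
      exact (b2 n hn _ _).trans hM2
    · rw [← Pool.Agent.H2CV.SQ_eq]
      exact (b3 n hn i).trans hM2⟩
  have hSh : Shell 0 s h' ⊆ Shell 0 s h := fun y hy => le_trans (show |‖y - 0‖ - s| ≤ h' from hy) h1
  have hShc : IsCompact (Shell 0 s h) := by
    refine (isCompact_closedBall (0 : V) (s + h)).of_isClosed_subset ?_ ?_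
    · have : Continuous fun y : V => |‖y - 0‖ - s| := by fun_prop
      exact isClosed_le this continuous_const
    · intro y hy
      have hy' : |‖y - 0‖ - s| ≤ h := hy
      have := (abs_le.1 hy').2
      rw [mem_closedBall, dist_eq_norm]
      linarith
  have smu : ∀ σ ∈ Ioc (t - h' ^ 2) t, SM (u σ) := fun σ hσ i => d.smu hσ i
  have htt : t ∈ Ioc (t - h' ^ 2) t := d.memt h0
  have hcl : Continuous fun y => len (crossProduct y (vort (u t) y)) ^ 2 :=
    (len_cont.comp (cross_cont continuous_id (vort_c1 (smu t htt)).continuous)).pow 2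
  have key := H d ((setIntegral_mono_set (hcl.continuousOn.integrableOn_compact hShc)
    (Eventually.of_forall fun z => sq_nonneg _) hSh.eventuallyLE).trans hI)
    (fun σ hσ => (setIntegral_mono_set (cv_int (smu σ hσ) hShc)
    (Eventually.of_forall fun z => cv_nonneg _ _) hSh.eventuallyLE).trans (hc σ (hIoc σ hσ))) y
    (show |‖y‖ - s| < h' / 2 by linarith)
  have h3 : om (u t) y ^ 2 ≤ ε ^ 2 := by
    rw [om_sq]
    have : ∀ i, vc (u t) i y ^ 2 ≤ (ε / 3) ^ 2 := by
      intro i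
      rw [← sq_abs]
      exact pow_le_pow_left₀ (abs_nonneg _) (key i) 2
    refine (Finset.sum_le_sum fun i _ => this i).trans ?_
    simp
    nlinarith [sq_nonneg ε]
  exact abs_le_of_sq_le_sq' h3 hε.le |>.2

end Pool.Agent.H2CV
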