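import Pool.Agent.H2CV.Asm
import Pool.Agent.H1CV.Pin
import Pool.Agent.H1CV.GoodT
import Pool.Agent.H1CV.VelT
import Pool.Agent.H1CV.Scl
import Pool.Agent.H2VL.Fin

/-!
Project CV: no concentration of the curvature, no singularity (the class `LSl`).
-/

set_option autoImplicit false

open MeasureTheory Set Metric Filter Topology
open scoped ContDiff
open H459R3.NS Pool.Agent.W268.NS Pool.Agent.Q67.VD

namespace Pool.Agent.H2CV

open Pool.Agent.Q85.CC Pool.Agent.Q85.CL Pool.Agent.Q85.VL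

lemma ex_int {v : V → V} (hv : SM v) (A : ℝ) {K : Set V} (hK : IsCompact K) :
    IntegrableOn (fun y => max (cv v y - A * om v y) 0) K := by
  have h1 : IntegrableOn (fun y => cv v y - A * om v y) K :=
    (cv_int hv hK).sub (((om_cont' hv).continuousOn.integrableOn_compact hK).const_mul A)
  exact h1.pos_part

/-- The curvature from its excess. -/
lemma cv_ex {v : V → V} (hv : SM v) {A : ℝ} {x a : V} {r R : ℝ} (h : ‖x - a‖ + r ≤ R) :
    ∫ y in closedBall x r, cv v y ≤ (∫ y in closedBall a R, max (cv v y - A * om v y) 0)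
      + A * ∫ y in closedBall x r, om v y := by
  have h1 : IntegrableOn (fun y => max (cv v y - A * om v y) 0) (closedBall x r) :=
    ex_int hv A (isCompact_closedBall _ _)
  have h2 : IntegrableOn (fun y => A * om v y) (closedBall x r) :=
    ((om_cont' hv).continuousOn.integrableOn_compact (isCompact_closedBall _ _)).const_mul A
  have h3 : ∫ y in closedBall x r, cv v y ≤
      ∫ y in closedBall x r, (max (cv v y - A * om v y) 0 + A * om v y) := by
    refine setIntegral_mono (cv_int hv (isCompact_closedBall _ _)) (h1.add h2) fun y => ?_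
    have := le_max_left (cv v y - A * om v y) 0
    simp only
    linarith
  rw [integral_add h1 h2, integral_const_mul] at h3
  have h4 : ∫ y in closedBall x r, max (cv v y - A * om v y) 0
      ≤ ∫ y in closedBall a R, max (cv v y - A * om v y) 0 := by
    refine setIntegral_mono_set (ex_int hv A (isCompact_closedBall _ _))
      (Eventually.of_forall fun y => le_max_right _ _) ?_
    refine (closedBall_subset_closedBall' ?_).eventuallyLE
    rw [dist_eq_norm]
    linarith
  linarith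

set_option maxHeartbeats 1600000 in
/-- If the excess of the curvature does not concentrate at `a` then `a` is not singular. -/
theorem locC {T E : ℝ} {O : Set V} {u : ℝ → V → V} {p : ℝ → V → ℝ}
    (hT : 0 < T) (hu : LSl T E O u p) {a : V} (ha : a ∈ O)
    (hN : ∀ μ : ℝ, 0 < μ → ∃ A T₀ R : ℝ, 0 ≤ A ∧ T₀ < T ∧ 0 < R ∧ ∀ t ∈ Ioo T₀ T, 0 < t →
      ∫ y in closedBall a R, max (cv (u t) y - A * om (u t) y) 0 ≤ μ) :
    ∃ B δ : ℝ, 0 < δ ∧ ∀ t ∈ Ioo (T - δ) T, 0 < t → ∀ x ∈ closedBall a δ, ‖u t x‖ ≤ B := by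
  obtain ⟨A, T₁, R₁, hA, hT₁, hR₁, h1⟩ := hN 1 one_pos
  obtain ⟨R₂, hR₂, hO⟩ := Metric.isOpen_iff.1 hu.openO a ha
  obtain ⟨R, hRd⟩ : ∃ R, R = min R₁ (R₂ / 2) := ⟨_, rfl⟩
  have hR : 0 < R := by rw [hRd]; exact lt_min hR₁ (by positivity)
  have hRR₁ : R ≤ R₁ := by rw [hRd]; exact min_le_left _ _
  have hRR₂ : R ≤ R₂ / 2 := by rw [hRd]; exact min_le_right _ _
  have hOR : closedBall a R ⊆ O := (closedBall_subset_ball (by linarith)).trans hO
  obtain ⟨T₀, hT₀d⟩ : ∃ T₀, T₀ = max T₁ (T / 2) := ⟨_, rfl⟩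
  have hT₀T : T₀ < T := by rw [hT₀d]; exact max_lt hT₁ (by linarith)
  have hT₀1 : T₁ ≤ T₀ := by rw [hT₀d]; exact le_max_left _ _
  have hT₀0 : 0 < T₀ := by
    rw [hT₀d]; exact lt_of_lt_of_le (by linarith) (le_max_right _ _)
  have hIoo : ∀ t ∈ Ioo T₀ T, t ∈ Ioo 0 T := fun t ht => ⟨hT₀0.trans ht.1, ht.2⟩
  obtain ⟨L, hL, hL1⟩ := Pool.Agent.Q81.CL.l1L T E O u p hT hu a R T₀ hR hOR hT₀0 hT₀T
  -- the Morrey bound
  obtain ⟨C, hC, hMC⟩ := Pool.Agent.H1CV.morC
  obtain ⟨K, hKd⟩ : ∃ K, K = C * (L / (R / 4) + (1 + A * L)) := ⟨_, rfl⟩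
  have hC0 : 0 < C := by linarith
  have hK : 0 < K := by rw [hKd]; positivity
  have hMor : ∀ t ∈ Ioo T₀ T, MorB K a (R / 8) (om (u t)) := by
    intro t ht x r hr hxr
    have hsm := slice_u hu.toLEq (hIoo t ht)
    have hx : ‖x - a‖ ≤ R / 8 := by linarith
    have hr' : r ≤ R / 8 := by linarith [norm_nonneg (x - a)]
    have e1 := hMC (u t) x r (R / 4) hsm hr (by linarith)
    have e2 : ∫ y in closedBall x (R / 4), om (u t) y ≤ L := by
      refine (setIntegral_mono_set ((om_cont' hsm).continuousOn.integrableOn_compact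
        (isCompact_closedBall _ _)) (Eventually.of_forall fun y => om_nnL _ _) ?_).trans
        (hL1 t ⟨ht.1.le, ht.2⟩)
      refine (closedBall_subset_closedBall' ?_).eventuallyLE
      rw [dist_eq_norm]
      linarith
    have e3 := cv_ex hsm (A := A) (x := x) (a := a) (r := R / 4) (R := R₁) (by linarith)
    have e4 := h1 t ⟨hT₀1.trans_lt ht.1, ht.2⟩ (hIoo t ht).1
    have e5 : A * ∫ y in closedBall x (R / 4), om (u t) y ≤ A * L :=
      mul_le_mul_of_nonneg_left e2 hA
    rw [abs_omL]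
    refine e1.trans (mul_le_mul_of_nonneg_right ?_ hr.le)
    rw [hKd]
    refine mul_le_mul_of_nonneg_left (add_le_add ?_ (by linarith)) hC0.le
    exact div_le_div_of_nonneg_right e2 (by positivity)
  refine asmC Pool.Agent.Q284.CL.velL stmEnL stmEnS Pool.Agent.Q95.CL.regK Pool.Agent.H1CV.goodT
    Pool.Agent.H1CV.velT Pool.Agent.H1CV.pinC (Pool.Agent.H1CV.shlR shl) hT hu hT₀0.le hT₀T hK
    (by positivity) ((closedBall_subset_closedBall (by linarith)).trans hOR) hMor ?_
  intro μ hμ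
  obtain ⟨A', T', R', hA', hT', hR', h2⟩ := hN (μ / 2) (by positivity)
  obtain ⟨S, hSd⟩ : ∃ S, S = min (min (R' / 2) (R / 16)) (μ / (2 * (A' * K + 1))) := ⟨_, rfl⟩
  have hS : 0 < S := by
    rw [hSd]
    exact lt_min (lt_min (by positivity) (by positivity)) (by positivity)
  have hS1 : S ≤ R' / 2 := by rw [hSd]; exact (min_le_left _ _).trans (min_le_left _ _)
  have hS2 : S ≤ R / 16 := by rw [hSd]; exact (min_le_left _ _).trans (min_le_right _ _)
  have hS3 : S ≤ μ / (2 * (A' * K + 1)) := by rw [hSd]; exact min_le_right _ _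
  refine ⟨S, S, T', hS, hS, hT', fun t ht htT₀ x hx r hr hrS => ?_⟩
  have htI : t ∈ Ioo T₀ T := ⟨htT₀, ht.2⟩
  have hsm := slice_u hu.toLEq (hIoo t htI)
  have hxa : ‖x - a‖ ≤ S := by rwa [mem_closedBall, dist_eq_norm] at hx
  have e1 := cv_ex hsm (A := A') (x := x) (a := a) (r := r) (R := R') (by linarith)
  have e2 := h2 t ht (hIoo t htI).1
  have e3 := hMor t htI x r hr (by linarith)
  rw [abs_omL] at e3
  have e4 : A' * ∫ y in closedBall x r, om (u t) y ≤ A' * (K * r) :=
    mul_le_mul_of_nonneg_left e3 hA'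
  have e5 : A' * (K * r) ≤ μ / 2 := by
    rw [le_div_iff₀ (by positivity)] at hS3
    have : A' * K * r ≤ A' * K * S := mul_le_mul_of_nonneg_left hrS (by positivity)
    nlinarith
  linarith

end Pool.Agent.H2CV
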