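import Pool.Agent.H2CV.Cal

/-!
Project CV: the algebra on the shell. `W` is nearly radial; the derivative of `W × (W · ∇) W` in the
direction of `Δ W - (v · ∇) W + (W · ∇) v`.
-/

set_option autoImplicit false

open MeasureTheory Set Metric Filter Topology
open scoped ContDiff

namespace Pool.Agent.H2CV

open H459R3.NS W221.NS Pool.Agent.TH305.DR
open Pool.Agent.W583.MD (sm_pd cs_pd pd_mul')
open Pool.Agent.W22.ME.TD (pd_comm lap_smooth)

/-- `(Z · ∇) f`. -/
noncomputable def av (Z : Fin 3 → V → ℝ) (f : V → ℝ) (y : V) : ℝ := ∑ k, Z k y * pd k f y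

/-- `(y · ∇) f`. -/
noncomputable def eu (f : V → ℝ) (y : V) : ℝ := ∑ k, y k * pd k f y

noncomputable def R2 (y : V) : ℝ := ∑ i, y i * y i

noncomputable def GG (W : Fin 3 → V → ℝ) (y : V) : ℝ := ∑ i, y i * W i y

noncomputable def ZZ (W : Fin 3 → V → ℝ) (j : Fin 3) (y : V) : ℝ := R2 y * W j y

noncomputable def bv (W : Fin 3 → V → ℝ) (i j : Fin 3) (y : V) : ℝ := y i * W j y - y j * W i y

noncomputable def aa (W : Fin 3 → V → ℝ) (j : Fin 3) (y : V) : ℝ := ∑ i, y i * bv W i j y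

noncomputable def ee (w v : Fin 3 → V → ℝ) (j : Fin 3) (y : V) : ℝ :=
  lap (w j) y - av v (w j) y + av w (v j) y

noncomputable def HH (w v : Fin 3 → V → ℝ) (j : Fin 3) (y : V) : ℝ := R2 y * ee w v j y

noncomputable def DF (Z H : Fin 3 → V → ℝ) (i j : Fin 3) (y : V) : ℝ :=
  H i y * av Z (Z j) y - H j y * av Z (Z i) y + Z i y * (av H (Z j) y + av Z (H j) y)
    - Z j y * (av H (Z i) y + av Z (H i) y)

/-! ### Smoothness -/

section smooth

variable {f g : V → ℝ} {Z W v w : Fin 3 → V → ℝ}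

lemma sm_co (j : Fin 3) : ContDiff ℝ ∞ (fun y : V => y j) := contDiff_apply ℝ ℝ j

lemma sm_av (hZ : ∀ k, ContDiff ℝ ∞ (Z k)) (hf : ContDiff ℝ ∞ f) : ContDiff ℝ ∞ (av Z f) :=
  ContDiff.sum fun k _ => (hZ k).mul (sm_pd hf k)

lemma sm_eu (hf : ContDiff ℝ ∞ f) : ContDiff ℝ ∞ (eu f) :=
  ContDiff.sum fun k _ => (sm_co k).mul (sm_pd hf k)

lemma sm_R2 : ContDiff ℝ ∞ R2 := ContDiff.sum fun k _ => (sm_co k).mul (sm_co k)

lemma sm_GG (hW : ∀ k, ContDiff ℝ ∞ (W k)) : ContDiff ℝ ∞ (GG W) :=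
  ContDiff.sum fun k _ => (sm_co k).mul (hW k)

lemma sm_ZZ (hW : ∀ k, ContDiff ℝ ∞ (W k)) (j : Fin 3) : ContDiff ℝ ∞ (ZZ W j) :=
  sm_R2.mul (hW j)

lemma sm_bv (hW : ∀ k, ContDiff ℝ ∞ (W k)) (i j : Fin 3) : ContDiff ℝ ∞ (bv W i j) :=
  ((sm_co i).mul (hW j)).sub ((sm_co j).mul (hW i))

lemma sm_aa (hW : ∀ k, ContDiff ℝ ∞ (W k)) (j : Fin 3) : ContDiff ℝ ∞ (aa W j) :=
  ContDiff.sum fun k _ => (sm_co k).mul (sm_bv hW k j)

lemma sm_ee (hw : ∀ k, ContDiff ℝ ∞ (w k)) (hv : ∀ k, ContDiff ℝ ∞ (v k)) (j : Fin 3) :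
    ContDiff ℝ ∞ (ee w v j) :=
  ((lap_smooth (hw j)).sub (sm_av hv (hw j))).add (sm_av hw (hv j))

lemma sm_HH (hw : ∀ k, ContDiff ℝ ∞ (w k)) (hv : ∀ k, ContDiff ℝ ∞ (v k)) (j : Fin 3) :
    ContDiff ℝ ∞ (HH w v j) := sm_R2.mul (sm_ee hw hv j)

/-! ### Rules of differentiation -/

lemma pdm (hf : ContDiff ℝ ∞ f) (hg : ContDiff ℝ ∞ g) (j : Fin 3) :
    pd j (fun y => f y * g y) = fun y => f y * pd j g y + pd j f y * g y :=
  funext fun y => pd_mul' hf hg j y

lemma pdc (i j : Fin 3) : pd i (fun z : V => z j) = fun _ => if i = j then (1 : ℝ) else 0 :=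
  funext fun y => pd_coord i j y

lemma pd_R2 (i : Fin 3) : pd i R2 = fun y => 2 * y i := by
  have e : R2 = fun y => ∑ k, y k * y k := rfl
  rw [e, pd_sum' _ (fun k => (sm_co k).mul (sm_co k))]
  funext y
  have h : ∀ k : Fin 3, pd i (fun y : V => y k * y k) y = if i = k then 2 * y i else 0 := by
    intro k
    rw [pdm (sm_co k) (sm_co k), pdc]
    split_ifs with h
    · subst h; ring
    · simp
  simp only [h]
  simp

lemma eu_mul (hf : ContDiff ℝ ∞ f) (hg : ContDiff ℝ ∞ g) (y : V) :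
    eu (fun y => f y * g y) y = f y * eu g y + eu f y * g y := by
  unfold eu
  simp only [pdm hf hg, Fin.sum_univ_three]
  ring

lemma eu_add (hf : ContDiff ℝ ∞ f) (hg : ContDiff ℝ ∞ g) (y : V) :
    eu (fun y => f y + g y) y = eu f y + eu g y := by
  unfold eu
  simp only [pd_add' hf hg, Fin.sum_univ_three]
  ring

lemma eu_sub (hf : ContDiff ℝ ∞ f) (hg : ContDiff ℝ ∞ g) (y : V) :
    eu (fun y => f y - g y) y = eu f y - eu g y := by
  unfold eu
  simp only [pd_sub' hf hg, Fin.sum_univ_three]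
  ring

lemma eu_co (j : Fin 3) (y : V) : eu (fun z : V => z j) y = y j := by
  unfold eu
  simp only [pdc]
  simp

lemma pd_eu (hf : ContDiff ℝ ∞ f) (j : Fin 3) :
    pd j (eu f) = fun y => pd j f y + eu (pd j f) y := by
  have e : eu f = fun y => ∑ k, y k * pd k f y := rfl
  rw [e, pd_sum' _ (fun k => (sm_co k).mul (sm_pd hf k))]
  funext y
  simp only [pdm (sm_co _) (sm_pd hf _), pdc]
  unfold eu
  rw [Finset.sum_add_distrib, add_comm]
  congr 1
  · simp
  · refine Finset.sum_congr rfl fun k _ => ?_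
    rw [pd_comm hf j k]

lemma lap_mul (hf : ContDiff ℝ ∞ f) (hg : ContDiff ℝ ∞ g) (y : V) :
    lap (fun y => f y * g y) y = f y * lap g y + 2 * (∑ k, pd k f y * pd k g y)
      + lap f y * g y := by
  unfold lap
  have h : ∀ k, pd k (pd k fun y => f y * g y) y
      = f y * pd k (pd k g) y + 2 * (pd k f y * pd k g y) + pd k (pd k f) y * g y := by
    intro k
    rw [pdm hf hg, pd_add' (hf.mul (sm_pd hg k)) ((sm_pd hf k).mul hg)]
    simp only [pdm hf (sm_pd hg k), pdm (sm_pd hf k) hg]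
    ring
  simp only [h, Fin.sum_univ_three]
  ring

lemma lap_add' (hf : ContDiff ℝ ∞ f) (hg : ContDiff ℝ ∞ g) (y : V) :
    lap (fun y => f y + g y) y = lap f y + lap g y := by
  unfold lap
  have h : ∀ k, pd k (pd k fun y => f y + g y) y = pd k (pd k f) y + pd k (pd k g) y := by
    intro k
    rw [pd_add' hf hg, pd_add' (sm_pd hf k) (sm_pd hg k)]
  simp only [h, Fin.sum_univ_three]
  ring

lemma lap_co (j : Fin 3) (y : V) : lap (fun z : V => z j) y = 0 := by
  unfold lap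
  simp only [pdc, pd_const']
  simp

lemma lap_R2 (y : V) : lap R2 y = 6 := by
  unfold lap
  simp only [pd_R2]
  have h : ∀ i : Fin 3, pd i (fun y : V => 2 * y i) y = 2 := by
    intro i
    rw [pdm contDiff_const (sm_co i), pdc, pd_const']
    simp
  simp only [h]
  simp
  norm_num

/-! ### Identities -/

lemma Z_eq (W : Fin 3 → V → ℝ) (j : Fin 3) (y : V) :
    ZZ W j y = GG W y * y j + aa W j y := by
  unfold ZZ GG aa bv R2
  simp only [Fin.sum_univ_three]
  ring

lemma Z_eqf (W : Fin 3 → V → ℝ) (j : Fin 3) :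
    ZZ W j = fun y => GG W y * y j + aa W j y := funext fun y => Z_eq W j y

lemma pd_Z1 (hW : ∀ k, ContDiff ℝ ∞ (W k)) (i j : Fin 3) (y : V) :
    pd i (ZZ W j) y = R2 y * pd i (W j) y + 2 * y i * W j y := by
  have e : ZZ W j = fun y => R2 y * W j y := rfl
  rw [e, pdm sm_R2 (hW j), pd_R2]

lemma pd_Z2 (hW : ∀ k, ContDiff ℝ ∞ (W k)) (i j : Fin 3) (y : V) :
    pd i (ZZ W j) y = GG W y * (if i = j then (1 : ℝ) else 0) + pd i (GG W) y * y j
      + pd i (aa W j) y := by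
  rw [Z_eqf, pd_add' ((sm_GG hW).mul (sm_co j)) (sm_aa hW j)]
  simp only [pdm (sm_GG hW) (sm_co j), pdc]

lemma eu_G (hW : ∀ k, ContDiff ℝ ∞ (W k)) {y : V} (hd : ∑ i, pd i (W i) y = 0) :
    eu (GG W) y = -GG W y - ∑ j, pd j (aa W j) y := by
  have h1 : ∑ j, pd j (ZZ W j) y = 2 * GG W y := by
    simp only [pd_Z1 hW]
    rw [Finset.sum_add_distrib, ← Finset.mul_sum, hd]
    unfold GG
    simp only [Fin.sum_univ_three]
    ring
  have h2 : ∑ j, pd j (ZZ W j) y = 3 * GG W y + eu (GG W) y + ∑ j, pd j (aa W j) y := by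
    simp only [pd_Z2 hW]
    unfold eu
    simp only [Fin.sum_univ_three]
    simp
    ring
  linarith

lemma lap_Z1 (hW : ∀ k, ContDiff ℝ ∞ (W k)) (j : Fin 3) (y : V) :
    lap (ZZ W j) y = R2 y * lap (W j) y + 4 * eu (W j) y + 6 * W j y := by
  have e : ZZ W j = fun y => R2 y * W j y := rfl
  rw [e, lap_mul sm_R2 (hW j), lap_R2]
  simp only [pd_R2]
  unfold eu
  simp only [Fin.sum_univ_three]
  ring

lemma lap_Z2 (hW : ∀ k, ContDiff ℝ ∞ (W k)) (j : Fin 3) (y : V) :
    lap (ZZ W j) y = y j * lap (GG W) y + 2 * pd j (GG W) y + lap (aa W j) y := by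
  rw [Z_eqf, lap_add' ((sm_GG hW).mul (sm_co j)) (sm_aa hW j), lap_mul (sm_GG hW) (sm_co j),
    lap_co]
  simp only [pdc]
  simp
  ring

lemma adv_Z (hW : ∀ k, ContDiff ℝ ∞ (W k)) (j : Fin 3) (y : V) :
    R2 y * av v (W j) y = av v (GG W) y * y j + GG W y * v j y + av v (aa W j) y
      - 2 * (∑ k, v k y * y k) * W j y := by
  have h1 : av v (ZZ W j) y = R2 y * av v (W j) y + 2 * (∑ k, v k y * y k) * W j y := by
    unfold av
    simp only [pd_Z1 hW, Fin.sum_univ_three]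
    ring
  have h2 : av v (ZZ W j) y = av v (GG W) y * y j + GG W y * v j y + av v (aa W j) y := by
    unfold av
    simp only [pd_Z2 hW]
    have : ∑ k, v k y * (GG W y * (if k = j then (1 : ℝ) else 0) + pd k (GG W) y * y j
        + pd k (aa W j) y) = (∑ k, v k y * (if k = j then (1 : ℝ) else 0)) * GG W y
          + (∑ k, v k y * pd k (GG W) y) * y j + ∑ k, v k y * pd k (aa W j) y := by
      simp only [Fin.sum_univ_three]
      ring
    rw [this]
    have h3 : ∑ k, v k y * (if k = j then (1 : ℝ) else 0) = v j y := by simp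
    rw [h3]
    ring
  linarith

lemma str_Z (j : Fin 3) (y : V) :
    R2 y * av W (v j) y = GG W y * eu (v j) y + av (aa W) (v j) y := by
  have h : ∀ k, R2 y * W k y = GG W y * y k + aa W k y := fun k => Z_eq W k y
  unfold av eu
  simp only [Fin.sum_univ_three]
  linear_combination (pd 0 (v j) y) * h 0 + (pd 1 (v j) y) * h 1 + (pd 2 (v j) y) * h 2

lemma eu_bv (hW : ∀ k, ContDiff ℝ ∞ (W k)) (i j : Fin 3) (y : V) :
    eu (bv W i j) y = bv W i j y + (y i * eu (W j) y - y j * eu (W i) y) := by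
  have e : bv W i j = fun y => y i * W j y - y j * W i y := rfl
  rw [e, eu_sub ((sm_co i).mul (hW j)) ((sm_co j).mul (hW i)), eu_mul (sm_co i) (hW j),
    eu_mul (sm_co j) (hW i), eu_co, eu_co]
  ring

/-- The rest in the formula for `y × H`. -/
noncomputable def rr (W v : Fin 3 → V → ℝ) (i j : Fin 3) (y : V) : ℝ :=
  (y i * lap (aa W j) y - y j * lap (aa W i) y) - 4 * eu (bv W i j) y - 2 * bv W i j y
    - (y i * av v (aa W j) y - y j * av v (aa W i) y) + 2 * (∑ k, v k y * y k) * bv W i j y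
    + (y i * av (aa W) (v j) y - y j * av (aa W) (v i) y)

noncomputable def QQ (v : Fin 3 → V → ℝ) (i j : Fin 3) (y : V) : ℝ :=
  (y i * eu (v j) y - y j * eu (v i) y) - (y i * v j y - y j * v i y)

noncomputable def wg (f : V → ℝ) (i j : Fin 3) (y : V) : ℝ := y i * pd j f y - y j * pd i f y

lemma wedge_H (hW : ∀ k, ContDiff ℝ ∞ (W k)) (i j : Fin 3) (y : V) :
    bv (HH W v) i j y = 2 * wg (GG W) i j y + GG W y * QQ v i j y + rr W v i j y := by
  have a1 := lap_Z1 hW j y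
  have a2 := lap_Z2 hW j y
  have a3 := lap_Z1 hW i y
  have a4 := lap_Z2 hW i y
  have b1 := adv_Z (v := v) hW j y
  have b2 := adv_Z (v := v) hW i y
  have c1 := str_Z (W := W) (v := v) j y
  have c2 := str_Z (W := W) (v := v) i y
  have d1 := eu_bv hW i j y
  rw [a2] at a1
  rw [a4] at a3
  have hb : bv W i j y = y i * W j y - y j * W i y := rfl
  unfold rr QQ wg
  have e : bv (HH W v) i j y = y i * (R2 y * lap (W j) y - R2 y * av v (W j) y
      + R2 y * av W (v j) y) - y j * (R2 y * lap (W i) y - R2 y * av v (W i) y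
      + R2 y * av W (v i) y) := by
    unfold bv HH ee
    ring
  rw [e, d1, hb, b1, b2, c1, c2]
  linear_combination (-(y i)) * a1 + (y j) * a3

/-- The derivative in the radial case. -/
lemma DF_rad {G : V → ℝ} {H : Fin 3 → V → ℝ} (hG : ContDiff ℝ ∞ G)
    (hH : ∀ k, ContDiff ℝ ∞ (H k)) (i j : Fin 3) (y : V) :
    DF (fun k y => G y * y k) H i j y
      = G y ^ 2 * eu (bv H i j) y - G y * (G y + eu G y) * bv H i j y := by
  have h1 : ∀ f : V → ℝ, av (fun k y => G y * y k) f y = G y * eu f y := by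
    intro f
    unfold av eu
    simp only [Fin.sum_univ_three]
    ring
  have h2 : ∀ k, eu (fun y => G y * y k) y = G y * y k + eu G y * y k := by
    intro k
    rw [eu_mul hG (sm_co k), eu_co]
  have h3 : ∀ k, av H (fun y => G y * y k) y = G y * H k y + av H G y * y k := by
    intro k
    unfold av
    simp only [pdm hG (sm_co k), pdc]
    have : ∑ x, H x y * (G y * (if x = k then (1 : ℝ) else 0) + pd x G y * y k)
        = (∑ x, H x y * (if x = k then (1 : ℝ) else 0)) * G y + (∑ x, H x y * pd x G y) * y k := by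
      simp only [Fin.sum_univ_three]
      ring
    rw [this]
    have h3 : ∑ x, H x y * (if x = k then (1 : ℝ) else 0) = H k y := by simp
    rw [h3]
    ring
  have h4 := eu_bv hH i j y
  unfold DF
  simp only [h1, h2, h3, h4]
  unfold bv
  ring

lemma DF_pert {Z Y a H : Fin 3 → V → ℝ} (hY : ∀ k, ContDiff ℝ ∞ (Y k))
    (ha : ∀ k, ContDiff ℝ ∞ (a k)) (hZ : ∀ k, Z k = fun y => Y k y + a k y) (i j : Fin 3) (y : V) :
    DF Z H i j y = DF Y H i j y + (H i y * (av a (Z j) y + av Y (a j) y)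
      - H j y * (av a (Z i) y + av Y (a i) y) + a i y * (av H (Z j) y + av Z (H j) y)
      + Y i y * (av H (a j) y + av a (H j) y) - a j y * (av H (Z i) y + av Z (H i) y)
      - Y j y * (av H (a i) y + av a (H i) y)) := by
  have h1 : ∀ k l, pd k (Z l) y = pd k (Y l) y + pd k (a l) y := by
    intro k l
    rw [hZ l, pd_add' (hY l) (ha l)]
  have h2 : ∀ k, Z k y = Y k y + a k y := fun k => by rw [hZ k]
  unfold DF av
  simp only [h1, h2, Fin.sum_univ_three]
  ring

lemma DF_sub {Z H K : Fin 3 → V → ℝ} (hH : ∀ k, ContDiff ℝ ∞ (H k))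
    (hK : ∀ k, ContDiff ℝ ∞ (K k)) (i j : Fin 3) (y : V) :
    DF Z (fun k y => H k y - K k y) i j y = DF Z H i j y - DF Z K i j y := by
  have h1 : ∀ k l, pd k (fun y => H l y - K l y) y = pd k (H l) y - pd k (K l) y := by
    intro k l
    rw [pd_sub' (hH l) (hK l)]
  unfold DF av
  simp only [h1, Fin.sum_univ_three]
  ring

end smooth

end Pool.Agent.H2CV
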