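import Pool.Agent.H2CV.Lip
import Pool.Agent.H2CV.Alg
import Pool.Agent.Q81.CL.L1

/-!
Project CV: the vorticity equation and differences in time.
-/

set_option autoImplicit false

open MeasureTheory Set Metric Filter Topology
open scoped ContDiff

namespace Pool.Agent.H2CV

open H459R3.NS Pool.Agent.W268.NS Pool.Agent.TH305.DR
open Pool.Agent.W583.MD (sm_pd cs_pd pd_mul' slice)
open Pool.Agent.Q85.CL (LEq SM)
open Pool.Agent.Q129.VD3 (crl str aI bI)
open Pool.Agent.Q2.CL (dt_pdI sm_dtI pd_eqI)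
open Pool.Agent.Q81.CL (cdo_pd crl_eqS)

/-- Jointly smooth on `(0, T) × ℝ³`. -/
def JT (T : ℝ) (F : ℝ → V → ℝ) : Prop :=
  ContDiffOn ℝ ∞ (fun z : ℝ × V => F z.1 z.2) (Ioo 0 T ×ˢ univ)

lemma JT.slice' {T : ℝ} {F : ℝ → V → ℝ} (h : JT T F) {t : ℝ} (ht : t ∈ Ioo 0 T) :
    ContDiff ℝ ∞ (F t) := slice (F := F) h ht

lemma JT.pd' {T : ℝ} {F : ℝ → V → ℝ} (h : JT T F) (i : Fin 3) :
    JT T (fun t => pd i (F t)) := cdo_pd h i

lemma JT.hd {T : ℝ} {F : ℝ → V → ℝ} (h : JT T F) {t : ℝ} (ht : t ∈ Ioo 0 T) (y : V) :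
    HasDerivAt (fun s => F s y) (deriv (fun s => F s y) t) t := by
  have hmem : Ioo 0 T ×ˢ (univ : Set V) ∈ 𝓝 (t, y) :=
    prod_mem_nhds (Ioo_mem_nhds ht.1 ht.2) Filter.univ_mem
  have h1 : DifferentiableAt ℝ (fun z : ℝ × V => F z.1 z.2) (t, y) :=
    (h.contDiffAt hmem).differentiableAt (by norm_cast)
  have h2 : DifferentiableAt ℝ (fun s : ℝ => ((s, y) : ℝ × V)) t := by fun_prop
  have h3 : DifferentiableAt ℝ (fun s => F s y) t :=
    DifferentiableAt.comp t (g := fun z : ℝ × V => F z.1 z.2) h1 h2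
  exact h3.hasDerivAt

/-- The mean value inequality in time for all the derivatives of order `n`. -/
lemma timeSS (n : ℕ) : ∀ {T : ℝ} {F : ℝ → V → ℝ}, JT T F → ∀ {a b B : ℝ} {y : V}, 0 < a → a ≤ b →
    b < T → 0 ≤ B → (∀ s ∈ Icc a b, SS n (fun z => deriv (fun σ => F σ z) s) y ≤ B ^ 2) →
    SS n (fun z => F b z - F a z) y ≤ 3 ^ n * ((b - a) * B) ^ 2 := by
  induction n with
  | zero =>
    intro T F hF a b B y ha hab hb hB h
    have h1 : ∀ s ∈ Icc a b, ‖deriv (fun σ => F σ y) s‖ ≤ B := by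
      intro s hs
      have := h s hs
      rw [SS_zero] at this
      rw [Real.norm_eq_abs]
      exact abs_le_of_sq_le_sq this hB
    have hI : ∀ s ∈ Icc a b, s ∈ Ioo 0 T := fun s hs => ⟨ha.trans_le hs.1, hs.2.trans_lt hb⟩
    have h2 := (convex_Icc a b).norm_image_sub_le_of_norm_hasDerivWithin_le
      (f := fun σ => F σ y) (f' := fun s => deriv (fun σ => F σ y) s) (C := B)
      (fun s hs => ((hF.hd (hI s hs) y).hasDerivWithinAt)) h1
      (left_mem_Icc.2 hab) (right_mem_Icc.2 hab)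
    rw [SS_zero, pow_zero, one_mul, ← sq_abs]
    rw [Real.norm_eq_abs, Real.norm_eq_abs, abs_of_nonneg (by linarith : 0 ≤ b - a)] at h2
    refine pow_le_pow_left₀ (abs_nonneg _) ?_ 2
    linarith
  | succ n ih =>
    intro T F hF a b B y ha hab hb hB h
    have hI : ∀ s ∈ Icc a b, s ∈ Ioo 0 T := fun s hs => ⟨ha.trans_le hs.1, hs.2.trans_lt hb⟩
    have h1 : ∀ i, SS n (fun z => pd i (F b) z - pd i (F a) z) y ≤ 3 ^ n * ((b - a) * B) ^ 2 := by
      intro i
      refine ih (hF.pd' i) ha hab hb hB fun s hs => ?_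
      have e : (fun z => deriv (fun σ => pd i (F σ) z) s)
          = pd i (fun z => deriv (fun σ => F σ z) s) :=
        funext fun z => (dt_pdI hF (hI s hs) i z).deriv
      rw [e]
      exact (SS_le_succ n _ y i).trans (h s hs)
    rw [SS_succ]
    have e : ∀ i, pd i (fun z => F b z - F a z) = fun z => pd i (F b) z - pd i (F a) z := fun i =>
      pd_sub' (hF.slice' (hI b (right_mem_Icc.2 hab))) (hF.slice' (hI a (left_mem_Icc.2 hab))) i
    simp only [e]
    calc ∑ i, SS n (fun z => pd i (F b) z - pd i (F a) z) y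
        ≤ ∑ _i : Fin 3, 3 ^ n * ((b - a) * B) ^ 2 := Finset.sum_le_sum fun i _ => h1 i
      _ = _ := by
        simp
        ring

/-! ### The vorticity -/

/-- The components of the vorticity. -/
noncomputable def vc (v : V → V) (i : Fin 3) (y : V) : ℝ := vort v y i

lemma vc_eq (v : V → V) (i : Fin 3) : vc v i = crl (fun i y => v y i) (aI i) (bI i) :=
  funext fun y => Pool.Agent.Q129.VD3.vort_eq v y i

lemma sm_vc {v : V → V} (hv : SM v) (i : Fin 3) : ContDiff ℝ ∞ (vc v i) := by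
  rw [vc_eq]
  exact (sm_pd (hv _) _).sub (sm_pd (hv _) _)

/-- The vorticity is free of divergence. -/
lemma div_vc {v : V → V} (hv : SM v) (y : V) : ∑ i, pd i (vc v i) y = 0 := by
  have h : ∀ i, pd i (vc v i) y = pd i (pd (aI i) (fun z => v z (bI i))) y
      - pd i (pd (bI i) (fun z => v z (aI i))) y := by
    intro i
    rw [vc_eq]
    show pd i (fun y => pd (aI i) (fun z => v z (bI i)) y - pd (bI i) (fun z => v z (aI i)) y) y = _
    rw [pd_sub' (sm_pd (hv _) _) (sm_pd (hv _) _)]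
  have c := fun (k i j : Fin 3) => Pool.Agent.W22.ME.TD.pd_comm (hv k) i j
  simp only [h, Fin.sum_univ_three, aI, bI]
  simp
  rw [c 2 0 1, c 1 0 2, c 0 1 2]
  ring

lemma JT_u {T : ℝ} {O : Set V} {u : ℝ → V → V} {p : ℝ → V → ℝ} (h : LEq T O u p) (i : Fin 3) :
    JT T (fun t y => u t y i) := contDiffOn_pi.1 h.smooth_u i

lemma JT_vc {T : ℝ} {O : Set V} {u : ℝ → V → V} {p : ℝ → V → ℝ} (h : LEq T O u p) (i : Fin 3) :
    JT T (fun t => vc (u t) i) := by
  have h1 : (fun t => vc (u t) i) = fun t y => pd (aI i) (fun z => u t z (bI i)) y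
      - pd (bI i) (fun z => u t z (aI i)) y := by
    funext t
    rw [vc_eq]
    rfl
  rw [h1]
  exact ((JT_u h (bI i)).pd' (aI i)).sub ((JT_u h (aI i)).pd' (bI i))

lemma str_eq {v : V → V} {y : V} (hd : ∑ i, pd i (fun z => v z i) y = 0) (i : Fin 3) :
    str (fun i z => v z i) (aI i) (bI i) y = -av (vc v) (fun z => v z i) y := by
  unfold str av
  simp only [vc_eq, crl]
  rw [Fin.sum_univ_three] at hd
  fin_cases i
  · simp only [aI, bI, Fin.sum_univ_three]
    simp
    linear_combination (-(pd 1 (fun z => v z 2) y - pd 2 (fun z => v z 1) y)) * (-hd)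
  · simp only [aI, bI, Fin.sum_univ_three]
    simp
    linear_combination (-(pd 2 (fun z => v z 0) y - pd 0 (fun z => v z 2) y)) * (-hd)
  · simp only [aI, bI, Fin.sum_univ_three]
    simp
    linear_combination (-(pd 0 (fun z => v z 1) y - pd 1 (fun z => v z 0) y)) * (-hd)

/-- The vorticity equation. -/
lemma vor_eq {T : ℝ} {O : Set V} {u : ℝ → V → V} {p : ℝ → V → ℝ} (h : LEq T O u p) {t : ℝ}
    (ht : t ∈ Ioo 0 T) {x : V} (hx : x ∈ O) (i : Fin 3) :
    deriv (fun s => vc (u s) i x) t = ee (vc (u t)) (fun i y => u t y i) i x := by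
  have hvi := fun i => JT_u h i
  have hv : ∀ i, ContDiff ℝ ∞ ((fun i y => u t y i : Fin 3 → V → ℝ) i) := fun i =>
    (hvi i).slice' ht
  have hq : ContDiff ℝ ∞ (p t) := slice h.smooth_p ht
  obtain ⟨τ, hτd⟩ : ∃ τ : Fin 3 → V → ℝ, τ = fun i y => deriv (fun s => u s y i) t := ⟨_, rfl⟩
  have hdw : HasDerivAt (fun s => vc (u s) i x) (crl τ (aI i) (bI i) x) t := by
    have e : (fun s => vc (u s) i x) = fun s => pd (aI i) (fun z => u s z (bI i)) x
        - pd (bI i) (fun z => u s z (aI i)) x := by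
      funext s
      rw [vc_eq]
      rfl
    rw [e, hτd]
    exact (dt_pdI (f := fun s y => u s y (bI i)) (hvi _) ht (aI i) x).sub
      (dt_pdI (f := fun s y => u s y (aI i)) (hvi _) ht (bI i) x)
  rw [hdw.deriv]
  obtain ⟨τ', hτ'⟩ : ∃ τ' : Fin 3 → V → ℝ, τ' = fun i x => lap (fun y => u t y i) x
      - conv (fun i y => u t y i) i x - pd i (p t) x := ⟨_, rfl⟩
  have e1 := crl_eqS hv hq (τ := τ') (fun i => by rw [hτ']) (aI i) (bI i) x
  have e2 : ∀ i, ∀ y ∈ O, τ i y = τ' i y := by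
    intro i y hy
    rw [hτd, hτ']
    have m := h.momentum t ht y hy i
    show deriv (fun s => u s y i) t = lap (fun y => u t y i) y
      - conv (fun i y => u t y i) i y - pd i (p t) y
    unfold lap conv
    linarith
  have e3 : crl τ (aI i) (bI i) x = crl τ' (aI i) (bI i) x := by
    unfold crl
    rw [pd_congr_open h.openO (e2 _) _ hx, pd_congr_open h.openO (e2 _) _ hx]
  rw [e3, e1, str_eq (h.divfree t ht x hx) i, ← vc_eq]
  unfold ee av
  ring

end Pool.Agent.H2CV
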