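import Pool.Agent.H2CV.FinH
import Pool.Agent.H1CV.Pin
import Pool.Agent.H1CV.GoodT
import Pool.Agent.H1CV.VelT
import Pool.Agent.H1CV.Scl
import Pool.Agent.H2VL.Fin2
import Pool.Agent.H1TV.Lk2

/-!
Project CV: the curvature of the vortex lines concentrates at the singular points.
-/

set_option autoImplicit false

open MeasureTheory Set Metric Filter Topology
open H459R3.NS Pool.Agent.W268.NS Pool.Agent.Q67.VD

namespace Pool.Agent.H2CV

open Pool.Agent.Q85.CC Pool.Agent.Q85.CL Pool.Agent.Q85.VL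

theorem loc : StmLoc :=
  locH Pool.Agent.Q284.CL.velL stmEnL stmEnS Pool.Agent.Q95.CL.regK Pool.Agent.Q81.CL.l1L
    Pool.Agent.H1CV.goodT Pool.Agent.H1CV.velT Pool.Agent.H1CV.morC Pool.Agent.H1CV.pinC
    (Pool.Agent.H1CV.shlR shl)

theorem conc2_D {ν T E : ℝ} {Ω : Set V} {u : ℝ → V → V} {p : ℝ → V → ℝ} (hν : 0 < ν)
    (h : DSl ν T E Ω u p) {a : V} (ha : a ∈ Ω) (hs : Sing T u a) : Conc2 T Ω u a :=
  conc2_DH (locT loc Pool.Agent.H1TV.lk) Pool.Agent.Q284.CL.dom hν h ha hs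

theorem conc2_W {ν T E : ℝ} {u : ℝ → V → V} {p : ℝ → V → ℝ} (hν : 0 < ν) (h : WSl ν T E u p) :
    (Blow T u → ∃ a, Sing T u a) ∧ ∀ a, Sing T u a → Conc2 T univ u a :=
  ⟨fun hB => sing_whole Pool.Agent.Q95.CL.far Pool.Agent.Q285.CL.wsc hν h hB,
    fun a hs => (conc2_D hν (whole_D h a) (mem_ball_self (by norm_num)) hs).univ h.smooth_u
      (by norm_num)⟩

theorem conc2_P {ν T : ℝ} {u : ℝ → V → V} {p : ℝ → V → ℝ} (hν : 0 < ν) (h : IsSol ν T u p) :
    (Blow T u → ∃ a, Sing T u a) ∧ ∀ a, Sing T u a → Conc2 T univ u a := by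
  refine ⟨fun hB => sing_per h hB, fun a hs => ?_⟩
  obtain ⟨p', h'⟩ := perD hν hs.pos h a
  exact (conc2_D hν h' (mem_ball_self (by norm_num)) hs).univ
    (h.smooth_u.mono (prod_mono Ioo_subset_Ico_self subset_rfl)) (by norm_num)

end Pool.Agent.H2CV
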