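import Pool.Agent.TH305.DR.Cut

/-!
Project CV: families of smooth functions with bounded, or small, derivatives.
-/

set_option autoImplicit false

open MeasureTheory Set Metric Filter Topology
open scoped ContDiff

namespace Pool.Agent.H2CV

open H459R3.NS W221.NS Pool.Agent.TH305.DR
open Pool.Agent.W583.MD (sm_pd cs_pd pd_mul')
open Pool.Agent.W22.ME.TD (pd_comm lap_smooth)

variable {D : Type*} (Ω : D → Set V) (ε : D → ℝ)

/-- A family of smooth functions whose derivatives of the orders `≤ k` are bounded on `Ω`. -/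
def Bd (k : ℕ) (F : D → V → ℝ) : Prop :=
  (∀ d, ContDiff ℝ ∞ (F d)) ∧ ∃ C : ℝ, 0 ≤ C ∧ ∀ d, ∀ n ≤ k, ∀ y ∈ Ω d, SS n (F d) y ≤ C ^ 2

/-- A family of smooth functions whose derivatives of the orders `≤ k` are `O(ε)` on `Ω`. -/
def Sl (k : ℕ) (F : D → V → ℝ) : Prop :=
  (∀ d, ContDiff ℝ ∞ (F d)) ∧ ∃ C : ℝ, 0 ≤ C ∧ ∀ d, ∀ n ≤ k, ∀ y ∈ Ω d,
    SS n (F d) y ≤ (C * ε d) ^ 2

variable {Ω ε} {k : ℕ} {F G : D → V → ℝ}

lemma Bd.sm (h : Bd Ω k F) (d : D) : ContDiff ℝ ∞ (F d) := h.1 d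

lemma Sl.sm (h : Sl Ω ε k F) (d : D) : ContDiff ℝ ∞ (F d) := h.1 d

lemma Bd.mono {l : ℕ} (h : Bd Ω k F) (hl : l ≤ k) : Bd Ω l F := by
  obtain ⟨h1, C, hC, h2⟩ := h
  exact ⟨h1, C, hC, fun d n hn => h2 d n (hn.trans hl)⟩

lemma Sl.mono {l : ℕ} (h : Sl Ω ε k F) (hl : l ≤ k) : Sl Ω ε l F := by
  obtain ⟨h1, C, hC, h2⟩ := h
  exact ⟨h1, C, hC, fun d n hn => h2 d n (hn.trans hl)⟩

lemma Bd.pd (h : Bd Ω (k + 1) F) (i : Fin 3) : Bd Ω k (fun d => pd i (F d)) := by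
  obtain ⟨h1, C, hC, h2⟩ := h
  exact ⟨fun d => sm_pd (h1 d) i, C, hC, fun d n hn y hy =>
    (SS_le_succ n (F d) y i).trans (h2 d (n + 1) (by omega) y hy)⟩

lemma Sl.pd (h : Sl Ω ε (k + 1) F) (i : Fin 3) : Sl Ω ε k (fun d => pd i (F d)) := by
  obtain ⟨h1, C, hC, h2⟩ := h
  exact ⟨fun d => sm_pd (h1 d) i, C, hC, fun d n hn y hy =>
    (SS_le_succ n (F d) y i).trans (h2 d (n + 1) (by omega) y hy)⟩

lemma two_sq {a b A B : ℝ} (hA : 0 ≤ A) (hB : 0 ≤ B) (ha : a ≤ A ^ 2) (hb : b ≤ B ^ 2) :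
    2 * a + 2 * b ≤ (2 * (A + B)) ^ 2 := by
  nlinarith [mul_nonneg hA hB, sq_nonneg A, sq_nonneg B]

lemma Bd.add (h : Bd Ω k F) (h' : Bd Ω k G) : Bd Ω k (fun d y => F d y + G d y) := by
  obtain ⟨h1, C, hC, h2⟩ := h
  obtain ⟨h1', C', hC', h2'⟩ := h'
  refine ⟨fun d => (h1 d).add (h1' d), 2 * (C + C'), by positivity, fun d n hn y hy => ?_⟩
  exact (SS_add n (h1 d) (h1' d) y).trans (two_sq hC hC' (h2 d n hn y hy) (h2' d n hn y hy))

lemma Bd.sub (h : Bd Ω k F) (h' : Bd Ω k G) : Bd Ω k (fun d y => F d y - G d y) := by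
  obtain ⟨h1, C, hC, h2⟩ := h
  obtain ⟨h1', C', hC', h2'⟩ := h'
  refine ⟨fun d => (h1 d).sub (h1' d), 2 * (C + C'), by positivity, fun d n hn y hy => ?_⟩
  exact (SS_sub n (h1 d) (h1' d) y).trans (two_sq hC hC' (h2 d n hn y hy) (h2' d n hn y hy))

lemma Bd.neg (h : Bd Ω k F) : Bd Ω k (fun d y => -F d y) := by
  obtain ⟨h1, C, hC, h2⟩ := h
  refine ⟨fun d => (h1 d).neg, C, hC, fun d n hn y hy => ?_⟩
  rw [SS_neg]
  exact h2 d n hn y hy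

lemma Sl.add (hε : ∀ d, 0 ≤ ε d) (h : Sl Ω ε k F) (h' : Sl Ω ε k G) :
    Sl Ω ε k (fun d y => F d y + G d y) := by
  obtain ⟨h1, C, hC, h2⟩ := h
  obtain ⟨h1', C', hC', h2'⟩ := h'
  refine ⟨fun d => (h1 d).add (h1' d), 2 * (C + C'), by positivity, fun d n hn y hy => ?_⟩
  refine (SS_add n (h1 d) (h1' d) y).trans ((two_sq (mul_nonneg hC (hε d))
    (mul_nonneg hC' (hε d)) (h2 d n hn y hy) (h2' d n hn y hy)).trans (le_of_eq ?_))
  ring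

lemma Sl.sub (hε : ∀ d, 0 ≤ ε d) (h : Sl Ω ε k F) (h' : Sl Ω ε k G) :
    Sl Ω ε k (fun d y => F d y - G d y) := by
  obtain ⟨h1, C, hC, h2⟩ := h
  obtain ⟨h1', C', hC', h2'⟩ := h'
  refine ⟨fun d => (h1 d).sub (h1' d), 2 * (C + C'), by positivity, fun d n hn y hy => ?_⟩
  refine (SS_sub n (h1 d) (h1' d) y).trans ((two_sq (mul_nonneg hC (hε d))
    (mul_nonneg hC' (hε d)) (h2 d n hn y hy) (h2' d n hn y hy)).trans (le_of_eq ?_))
  ring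

lemma Sl.neg (h : Sl Ω ε k F) : Sl Ω ε k (fun d y => -F d y) := by
  obtain ⟨h1, C, hC, h2⟩ := h
  refine ⟨fun d => (h1 d).neg, C, hC, fun d n hn y hy => ?_⟩
  rw [SS_neg]
  exact h2 d n hn y hy

/-- The estimate of a product. -/
lemma mul_est {n k : ℕ} (hn : n ≤ k) {f g : V → ℝ} (hf : ContDiff ℝ ∞ f) (hg : ContDiff ℝ ∞ g)
    {y : V} {A B : ℝ} (ha : ∀ m ≤ k, SS m f y ≤ A ^ 2) (hb : ∀ m ≤ k, SS m g y ≤ B ^ 2) :
    SS n (fun y => f y * g y) y ≤ ((2 ^ k * (k + 1)) * (A * B)) ^ 2 := by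
  refine (SS_mul n hf hg y).trans ?_
  have h1 : ∑ a ∈ Finset.range (n + 1), SS a f y * SS (n - a) g y
      ≤ ∑ _a ∈ Finset.range (n + 1), A ^ 2 * B ^ 2 := by
    refine Finset.sum_le_sum fun a ha' => ?_
    have := Finset.mem_range.1 ha'
    exact mul_le_mul (ha a (by omega)) (hb (n - a) (by omega)) (SS_nonneg _ _ _) (sq_nonneg _)
  rw [Finset.sum_const, Finset.card_range, nsmul_eq_mul] at h1
  have h2 : (4 : ℝ) ^ n ≤ 4 ^ k := pow_le_pow_right₀ (by norm_num) hn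
  have h3 : ((n + 1 : ℕ) : ℝ) ≤ (k + 1) ^ 2 := by
    have : ((n + 1 : ℕ) : ℝ) ≤ ((k : ℝ) + 1) := by exact_mod_cast Nat.succ_le_succ hn
    nlinarith [(Nat.cast_nonneg k : (0 : ℝ) ≤ k)]
  have h4 : (4 : ℝ) ^ k = (2 ^ k) ^ 2 := by
    rw [← pow_mul, mul_comm, pow_mul]
    norm_num
  calc 4 ^ n * ∑ a ∈ Finset.range (n + 1), SS a f y * SS (n - a) g y
      ≤ 4 ^ n * (((n + 1 : ℕ) : ℝ) * (A ^ 2 * B ^ 2)) := by gcongr
    _ ≤ 4 ^ k * ((k + 1) ^ 2 * (A ^ 2 * B ^ 2)) := by gcongr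
    _ = _ := by rw [h4]; ring

lemma Bd.mul (h : Bd Ω k F) (h' : Bd Ω k G) : Bd Ω k (fun d y => F d y * G d y) := by
  obtain ⟨h1, C, hC, h2⟩ := h
  obtain ⟨h1', C', hC', h2'⟩ := h'
  exact ⟨fun d => (h1 d).mul (h1' d), (2 ^ k * (k + 1)) * (C * C'), by positivity,
    fun d n hn y hy => mul_est hn (h1 d) (h1' d) (fun m hm => h2 d m hm y hy)
      (fun m hm => h2' d m hm y hy)⟩

lemma Sl.mul (h : Sl Ω ε k F) (h' : Bd Ω k G) : Sl Ω ε k (fun d y => F d y * G d y) := by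
  obtain ⟨h1, C, hC, h2⟩ := h
  obtain ⟨h1', C', hC', h2'⟩ := h'
  refine ⟨fun d => (h1 d).mul (h1' d), (2 ^ k * (k + 1)) * (C * C'), by positivity,
    fun d n hn y hy => (mul_est hn (h1 d) (h1' d) (fun m hm => h2 d m hm y hy)
      (fun m hm => h2' d m hm y hy)).trans (le_of_eq ?_)⟩
  ring

lemma Bd.mulS (h : Bd Ω k F) (h' : Sl Ω ε k G) : Sl Ω ε k (fun d y => F d y * G d y) := by
  obtain ⟨h1, C, hC, h2⟩ := h
  obtain ⟨h1', C', hC', h2'⟩ := h'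
  refine ⟨fun d => (h1 d).mul (h1' d), (2 ^ k * (k + 1)) * (C * C'), by positivity,
    fun d n hn y hy => (mul_est hn (h1 d) (h1' d) (fun m hm => h2 d m hm y hy)
      (fun m hm => h2' d m hm y hy)).trans (le_of_eq ?_)⟩
  ring

lemma Sl.bd (hε : ∀ d, 0 ≤ ε d) (hε1 : ∀ d, ε d ≤ 1) (h : Sl Ω ε k F) : Bd Ω k F := by
  obtain ⟨h1, C, hC, h2⟩ := h
  refine ⟨h1, C, hC, fun d n hn y hy => (h2 d n hn y hy).trans ?_⟩
  have := hε d
  have := hε1 d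
  gcongr
  exact mul_le_of_le_one_right hC (hε1 d)

lemma Bd.const (c : ℝ) : Bd Ω k (fun _ _ => c) := by
  refine ⟨fun d => contDiff_const, |c|, abs_nonneg c, fun d n hn y hy => ?_⟩
  rw [sq_abs]
  have h0 : ∀ n, SS n (fun _ : V => (0 : ℝ)) = fun _ => 0 := by
    intro n
    induction n with
    | zero => funext x; simp [SS_zero]
    | succ n ih => funext x; rw [SS_succ]; simp [pd_const', ih]
  cases n with
  | zero => exact le_of_eq rfl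
  | succ n =>
    rw [SS_succ]
    simp only [pd_const', h0]
    simp
    positivity

lemma pd_coord (i j : Fin 3) (y : V) : pd i (fun z : V => z j) y = if i = j then 1 else 0 := by
  unfold H459R3.NS.pd
  have h : HasFDerivAt (fun z : V => z j) (ContinuousLinearMap.proj (R := ℝ) j) y :=
    (ContinuousLinearMap.proj (R := ℝ) (φ := fun _ : Fin 3 => ℝ) j).hasFDerivAt
  rw [h.fderiv]
  simp [Pi.single_apply, eq_comm]

lemma Bd.coord (hΩ : ∀ d, ∀ y ∈ Ω d, ‖y‖ ≤ 1) (j : Fin 3) : Bd Ω k (fun _ y => y j) := by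
  refine ⟨fun d => contDiff_apply ℝ ℝ j, 2, by norm_num, fun d n hn y hy => ?_⟩
  have h0 : ∀ n, SS n (fun _ : V => (0 : ℝ)) = fun _ => 0 := by
    intro n
    induction n with
    | zero => funext x; simp [SS_zero]
    | succ n ih => funext x; rw [SS_succ]; simp [pd_const', ih]
  have hp : ∀ i : Fin 3, H459R3.NS.pd i (fun z : V => z j) = fun _ => if i = j then (1 : ℝ) else 0 :=
    fun i => funext fun y => pd_coord i j y
  cases n with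
  | zero =>
    rw [SS_zero]
    have h1 : |y j| ≤ 1 := (norm_le_pi_norm y j).trans (hΩ d y hy)
    have h2 : y j ^ 2 ≤ 1 := by
      rw [← sq_abs]
      exact pow_le_one₀ (abs_nonneg _) h1
    linarith
  | succ n =>
    cases n with
    | zero =>
      rw [SS_one]
      simp only [hp]
      simp
    | succ n =>
      rw [SS_succ]
      simp only [SS_succ, hp, pd_const', h0]
      simp

lemma Bd.sum {H : Fin 3 → D → V → ℝ} (h : ∀ i, Bd Ω k (H i)) :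
    Bd Ω k (fun d y => ∑ i, H i d y) := by
  have h1 := ((h 0).add (h 1)).add (h 2)
  have e : (fun d y => ∑ i, H i d y) = fun d y => H 0 d y + H 1 d y + H 2 d y := by
    funext d y
    rw [Fin.sum_univ_three]
  rw [e]
  exact h1

lemma Sl.sum (hε : ∀ d, 0 ≤ ε d) {H : Fin 3 → D → V → ℝ} (h : ∀ i, Sl Ω ε k (H i)) :
    Sl Ω ε k (fun d y => ∑ i, H i d y) := by
  have h1 := ((h 0).add hε (h 1)).add hε (h 2)
  have e : (fun d y => ∑ i, H i d y) = fun d y => H 0 d y + H 1 d y + H 2 d y := by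
    funext d y
    rw [Fin.sum_univ_three]
  rw [e]
  exact h1

lemma Sl.congr (hO : ∀ d, IsOpen (Ω d)) (h : Sl Ω ε k F) (hG : ∀ d, ContDiff ℝ ∞ (G d))
    (he : ∀ d, ∀ y ∈ Ω d, G d y = F d y) : Sl Ω ε k G := by
  obtain ⟨h1, C, hC, h2⟩ := h
  refine ⟨hG, C, hC, fun d n hn y hy => ?_⟩
  rw [SS_congr_open n (hO d) (he d) hy]
  exact h2 d n hn y hy

lemma Bd.congr (hO : ∀ d, IsOpen (Ω d)) (h : Bd Ω k F) (hG : ∀ d, ContDiff ℝ ∞ (G d))
    (he : ∀ d, ∀ y ∈ Ω d, G d y = F d y) : Bd Ω k G := by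
  obtain ⟨h1, C, hC, h2⟩ := h
  refine ⟨hG, C, hC, fun d n hn y hy => ?_⟩
  rw [SS_congr_open n (hO d) (he d) hy]
  exact h2 d n hn y hy

/-- The values of a small family. -/
lemma Sl.val (hε : ∀ d, 0 ≤ ε d) (h : Sl Ω ε k F) :
    ∃ C : ℝ, 0 ≤ C ∧ ∀ d, ∀ y ∈ Ω d, |F d y| ≤ C * ε d := by
  obtain ⟨h1, C, hC, h2⟩ := h
  refine ⟨C, hC, fun d y hy => ?_⟩
  have h3 := h2 d 0 (Nat.zero_le _) y hy
  rw [SS_zero] at h3
  exact abs_le_of_sq_le_sq h3 (mul_nonneg hC (hε d))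

lemma Bd.val (h : Bd Ω k F) : ∃ C : ℝ, 0 ≤ C ∧ ∀ d, ∀ y ∈ Ω d, |F d y| ≤ C := by
  obtain ⟨h1, C, hC, h2⟩ := h
  refine ⟨C, hC, fun d y hy => ?_⟩
  have h3 := h2 d 0 (Nat.zero_le _) y hy
  rw [SS_zero] at h3
  exact abs_le_of_sq_le_sq h3 hC

end Pool.Agent.H2CV
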