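import Pool.Agent.H2CV.Shl2
import Pool.Agent.Q85.CL.Assem

/-!
Project CV: the one-dimensional content, measures with a Morrey bound and the curvature.
-/

set_option autoImplicit false

open MeasureTheory Set Metric Filter Topology
open scoped ContDiff ENNReal NNReal
open H459R3.NS Pool.Agent.W268.NS Pool.Agent.Q67.VD

namespace Pool.Agent.H2CV

open Pool.Agent.Q85.CC Pool.Agent.Q85.CL Pool.Agent.Q85.VL

/-- The one-dimensional Hausdorff content: the infimum of the sums of the radii of countable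
coverings by closed cubes. -/
noncomputable def content (S : Set V) : ℝ≥0∞ :=
  ⨅ (x : ℕ → V) (r : ℕ → ℝ≥0) (_ : S ⊆ ⋃ i, closedBall (x i) (r i)), ∑' i, (r i : ℝ≥0∞)

/-- The integral of `m` over `D` with respect to the one-dimensional content. -/
noncomputable def choq (D : Set V) (m : V → ℝ) : ℝ≥0∞ :=
  ∫⁻ l in Ioi (0 : ℝ), content {y ∈ D | l < m y}

lemma content_mono {S S' : Set V} (h : S ⊆ S') : content S ≤ content S' := by
  unfold content
  exact iInf_mono fun x => iInf_mono fun r => iInf_mono' fun hc => ⟨h.trans hc, le_rfl⟩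

lemma choq_mono {D D' : Set V} (h : D ⊆ D') (m : V → ℝ) : choq D m ≤ choq D' m :=
  lintegral_mono fun _ => content_mono fun _ hy => ⟨h hy.1, hy.2⟩

lemma meas_content {ν : Measure V} {D S : Set V} {K : ℝ≥0} (hK : 0 < K)
    (hν : ∀ (x : V) (r : ℝ≥0), ν (closedBall x r) ≤ K * r) (hD : ν Dᶜ = 0) :
    ν S ≤ K * content (D ∩ S) := by
  have h1 : ν S ≤ ν (D ∩ S) := by
    have h2 : ν S ≤ ν (D ∩ S) + ν Dᶜ := by
      refine (measure_mono fun y hy => ?_).trans (measure_union_le _ _)
      by_cases h : y ∈ D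
      · exact Or.inl ⟨h, hy⟩
      · exact Or.inr h
    rwa [hD, add_zero] at h2
  refine h1.trans ?_
  have hK0 : (K : ℝ≥0∞) ≠ 0 := by exact_mod_cast hK.ne'
  have hKt : (K : ℝ≥0∞) ≠ ⊤ := ENNReal.coe_ne_top
  simp only [content, ENNReal.mul_iInf_of_ne hK0 hKt]
  refine le_iInf fun x => le_iInf fun r => le_iInf fun hc => ?_
  calc ν (D ∩ S) ≤ ν (⋃ i, closedBall (x i) (r i)) := measure_mono hc
    _ ≤ ∑' i, ν (closedBall (x i) (r i)) := measure_iUnion_le _
    _ ≤ ∑' i, K * (r i : ℝ≥0∞) := ENNReal.tsum_le_tsum fun i => hν _ _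
    _ = K * ∑' i, (r i : ℝ≥0∞) := ENNReal.tsum_mul_left

/-- The integral of `m f` for a density `f` with a Morrey bound. -/
lemma lay {f m : V → ℝ} {D : Set V} {K : ℝ≥0} (hK : 0 < K) (hf : Measurable f) (hm : Measurable m)
    (hm0 : ∀ y, 0 ≤ m y) (hD : MeasurableSet D)
    (hν : ∀ (x : V) (r : ℝ≥0), ∫⁻ y in closedBall x r ∩ D, ENNReal.ofReal (f y) ≤ K * r) :
    ∫⁻ y in D, ENNReal.ofReal (m y) * ENNReal.ofReal (f y) ≤ K * choq D m := by
  obtain ⟨ν, hνd⟩ : ∃ ν : Measure V, ν = (volume.restrict D).withDensity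
    (fun y => ENNReal.ofReal (f y)) := ⟨_, rfl⟩
  have h1 : ∫⁻ y, ENNReal.ofReal (m y) ∂ν
      = ∫⁻ y in D, ENNReal.ofReal (m y) * ENNReal.ofReal (f y) := by
    rw [hνd, lintegral_withDensity_eq_lintegral_mul _ hf.ennreal_ofReal hm.ennreal_ofReal]
    exact lintegral_congr fun y => mul_comm (ENNReal.ofReal (f y)) (ENNReal.ofReal (m y))
  have h2 : ∀ (x : V) (r : ℝ≥0), ν (closedBall x r) ≤ K * r := by
    intro x r
    rw [hνd, withDensity_apply _ isClosed_closedBall.measurableSet,
      Measure.restrict_restrict isClosed_closedBall.measurableSet]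
    exact hν x r
  have h3 : ν Dᶜ = 0 := by
    rw [hνd, withDensity_apply _ hD.compl, Measure.restrict_restrict hD.compl, compl_inter_self,
      Measure.restrict_empty, lintegral_zero_measure]
  rw [← h1, lintegral_eq_lintegral_meas_lt ν (Eventually.of_forall hm0) hm.aemeasurable]
  unfold choq
  rw [← lintegral_const_mul' _ _ ENNReal.coe_ne_top]
  refine lintegral_mono fun l => ?_
  exact meas_content hK h2 h3

lemma om_meas {v : V → V} (hv : SM v) : Measurable (om v) := (om_cont' hv).measurable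

lemma exm_meas {v : V → V} (hv : SM v) {m : V → ℝ} (hm : Measurable m) :
    Measurable fun y => max (cv v y - m y * om v y) 0 :=
  ((cv_meas hv).sub (hm.mul (om_meas hv))).max measurable_const

lemma exm_int {v : V → V} (hv : SM v) {m : V → ℝ} (hm : Measurable m) (hm0 : ∀ y, 0 ≤ m y)
    {K : Set V} (hK : IsCompact K) :
    IntegrableOn (fun y => max (cv v y - m y * om v y) 0) K := by
  refine Integrable.mono' (cv_int hv hK) (exm_meas hv hm).aestronglyMeasurable
    (Eventually.of_forall fun y => ?_)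
  rw [Real.norm_eq_abs, abs_of_nonneg (le_max_right _ _)]
  refine max_le ?_ (cv_nonneg _ _)
  have := mul_nonneg (hm0 y) (om_nnL v y)
  linarith

/-- The curvature from its excess over `m`. -/
lemma cv_exm {v : V → V} (hv : SM v) {m : V → ℝ} (hm : Measurable m) (hm0 : ∀ y, 0 ≤ m y)
    {D : Set V} (hD : IsCompact D) {B : ℝ} (hB : 0 ≤ B)
    (h : ∫⁻ y in D, ENNReal.ofReal (m y) * ENNReal.ofReal (om v y) ≤ ENNReal.ofReal B) :
    ∫ y in D, cv v y ≤ (∫ y in D, max (cv v y - m y * om v y) 0) + B := by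
  have i1 := cv_int hv hD
  have i2 := exm_int hv hm hm0 hD
  have n2 : 0 ≤ ∫ y in D, max (cv v y - m y * om v y) 0 :=
    integral_nonneg fun y => le_max_right _ _
  rw [← ENNReal.ofReal_le_ofReal_iff (by positivity), ENNReal.ofReal_add n2 hB,
    ofReal_integral_eq_lintegral_ofReal i1 (Eventually.of_forall fun y => cv_nonneg _ _),
    ofReal_integral_eq_lintegral_ofReal i2 (Eventually.of_forall fun y => le_max_right _ _)]
  refine le_trans ?_ (add_le_add_right h _)
  rw [← lintegral_add_left (exm_meas hv hm).ennreal_ofReal]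
  refine lintegral_mono fun y => ?_
  rw [← ENNReal.ofReal_mul (hm0 y), ← ENNReal.ofReal_add (le_max_right _ _)
    (mul_nonneg (hm0 y) (om_nnL v y))]
  refine ENNReal.ofReal_le_ofReal ?_
  have := le_max_left (cv v y - m y * om v y) 0
  linarith

/-- The measure of small cubes in `D` from a bound of the cubes centred in `D`. -/
lemma small_cubes {v : V → V} (hv : SM v) {D : Set V} (hD : IsCompact D) {K s₀ : ℝ} (hK : 0 ≤ K)
    (hs₀ : 0 < s₀) (h1 : ∀ z ∈ D, ∀ s : ℝ, 0 < s → s ≤ s₀ → ∫ y in closedBall z s, om v y ≤ K * s)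
    {L : ℝ} (hL : ∫ y in D, om v y ≤ L) (x : V) (r : ℝ≥0) :
    ∫⁻ y in closedBall x r ∩ D, ENNReal.ofReal (om v y)
      ≤ (Real.toNNReal (2 * K + 2 * L / s₀ + 1) : ℝ≥0∞) * r := by
  have hL0 : 0 ≤ L := (integral_nonneg fun y => om_nnL _ _).trans hL
  have iD : IntegrableOn (om v) D := (om_cont' hv).continuousOn.integrableOn_compact hD
  rcases (closedBall x r ∩ D).eq_empty_or_nonempty with h0 | ⟨z, hz, hzD⟩
  · rw [h0]
    simp
  have e1 : ((Real.toNNReal (2 * K + 2 * L / s₀ + 1) : ℝ≥0) : ℝ≥0∞) * r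
      = ENNReal.ofReal ((2 * K + 2 * L / s₀ + 1) * r) := by
    rw [ENNReal.ofReal_mul (by positivity)]
    rw [ENNReal.ofReal_coe_nnreal]
    rfl
  rw [e1]
  have hr0 : (0 : ℝ) ≤ r := r.2
  rcases hr0.eq_or_lt with hr | hr
  · have h2 : (closedBall x (r : ℝ) ∩ D) ⊆ {x} := by
      intro y hy
      have := hy.1
      rw [← hr, closedBall_zero] at this
      exact this
    have h3 : volume (closedBall x (r : ℝ) ∩ D) = 0 :=
      measure_mono_null h2 (measure_singleton _)
    rw [Measure.restrict_eq_zero.2 h3]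
    simp
  · rcases le_or_gt (2 * (r : ℝ)) s₀ with h2 | h2
    · have h3 := h1 z hzD (2 * r) (by positivity) h2
      have hsub : closedBall x (r : ℝ) ∩ D ⊆ closedBall z (2 * r) := by
        intro y hy
        have a1 := mem_closedBall.1 hy.1
        have a2 := mem_closedBall.1 hz
        rw [mem_closedBall]
        calc dist y z ≤ dist y x + dist x z := dist_triangle _ _ _
          _ ≤ _ := by rw [dist_comm x z]; linarith
      have i3 : IntegrableOn (om v) (closedBall z (2 * r)) :=
        (om_cont' hv).continuousOn.integrableOn_compact (isCompact_closedBall _ _)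
      refine (lintegral_mono_set hsub).trans ?_
      rw [← ofReal_integral_eq_lintegral_ofReal i3 (Eventually.of_forall fun y => om_nnL _ _)]
      refine ENNReal.ofReal_le_ofReal (h3.trans ?_)
      have : 0 ≤ 2 * L / s₀ * r := by positivity
      nlinarith
    · refine (lintegral_mono_set inter_subset_right).trans ?_
      rw [← ofReal_integral_eq_lintegral_ofReal iD (Eventually.of_forall fun y => om_nnL _ _)]
      refine ENNReal.ofReal_le_ofReal (hL.trans ?_)
      have h4 : L ≤ 2 * L / s₀ * r := by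
        rw [div_mul_eq_mul_div, le_div_iff₀ hs₀]
        nlinarith
      have : 0 ≤ 2 * K * r := by positivity
      nlinarith

/-- The integral of the curvature in a cube, from the excess over `m` and the content integral. -/
lemma cv_choq {v : V → V} (hv : SM v) {m : V → ℝ} (hm : Measurable m) (hm0 : ∀ y, 0 ≤ m y)
    {D : Set V} (hD : IsCompact D) {K s₀ : ℝ} (hK : 0 ≤ K)
    (hs₀ : 0 < s₀) (h1 : ∀ z ∈ D, ∀ s : ℝ, 0 < s → s ≤ s₀ → ∫ y in closedBall z s, om v y ≤ K * s)
    {L : ℝ} (hL : ∫ y in D, om v y ≤ L) {ε : ℝ} (hε : 0 ≤ ε) (hc : choq D m ≤ ENNReal.ofReal ε) :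
    ∫ y in D, cv v y ≤ (∫ y in D, max (cv v y - m y * om v y) 0)
      + (2 * K + 2 * L / s₀ + 1) * ε := by
  have hL0 : 0 ≤ L := (integral_nonneg fun y => om_nnL _ _).trans hL
  have hK' : 0 < 2 * K + 2 * L / s₀ + 1 := by positivity
  refine cv_exm hv hm hm0 hD (by positivity) ?_
  refine (lay (Real.toNNReal_pos.2 hK') (om_meas hv) hm hm0 hD.measurableSet
    (small_cubes hv hD hK hs₀ h1 hL)).trans ?_
  rw [ENNReal.ofReal_mul hK'.le]
  exact mul_le_mul_right hc _

end Pool.Agent.H2CV
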