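import Pool.Agent.H2CV.Defs

/-!
Project CV: the shell argument at the scale `r` around the point `x`.
-/

set_option autoImplicit false

open MeasureTheory Set Metric
open scoped ContDiff
open H459R3.NS Pool.Agent.W268.NS Pool.Agent.Q67.VD

namespace Pool.Agent.H2CV

open Pool.Agent.Q85.CC Pool.Agent.Q85.CL Pool.Agent.Q85.VL

/-- CV-SHR. The argument on the shell, at the scale `r`. -/
def StmShlR : Prop := ∀ M h ε : ℝ, 1 ≤ M → 0 < h → h ≤ 1 → 0 < ε → ∃ τ w₀ : ℝ, 0 < τ ∧ 0 < w₀ ∧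
  w₀ ≤ h ∧ ∀ (T : ℝ) (O : Set V) (u : ℝ → V → V) (p : ℝ → V → ℝ) (t r s : ℝ) (x : V),
    LEq T O u p → 0 < r → (h * r) ^ 2 < t → t < T → r / 64 ≤ s → s ≤ r / 32 →
    (∀ t' ∈ Ioc (t - (h * r) ^ 2) t, ∀ y, |‖y - x‖ - s| < h * r → y ∈ O ∧
      (∀ n ≤ 5, ∀ i j, r ^ (2 * n + 4) * SQ n (cur i j (u t')) y ≤ M) ∧
      ∀ n ≤ 4, ∀ i, r ^ (2 * n + 2) * SQ n (fun z => u t' z i) y ≤ M) →
    ∫ y in Shell x s (h * r), len (crossProduct (y - x) (vort (u t) y)) ^ 2 ≤ τ * r →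
    (∀ t' ∈ Ioc (t - (h * r) ^ 2) t, ∫ y in Shell x s (h * r), cv (u t') y ≤ τ) →
      ∀ y, |‖y - x‖ - s| ≤ w₀ * r → om (u t) y ≤ ε / r ^ 2

end Pool.Agent.H2CV
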