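import Pool.Agent.H2CV.Alg

/-!
Project CV: the estimate on the shell for families of fields.
-/

set_option autoImplicit false

open MeasureTheory Set Metric Filter Topology
open scoped ContDiff

namespace Pool.Agent.H2CV

open H459R3.NS W221.NS Pool.Agent.TH305.DR
open Pool.Agent.W583.MD (sm_pd cs_pd pd_mul')
open Pool.Agent.W22.ME.TD (pd_comm lap_smooth)

variable {D : Type*} {Ω : D → Set V} {ε : D → ℝ} {k : ℕ} {F G : D → V → ℝ}

lemma Bd.av {Z : Fin 3 → D → V → ℝ} (hZ : ∀ i, Bd Ω k (Z i)) (hF : Bd Ω (k + 1) F) :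
    Bd Ω k (fun d => av (fun i => Z i d) (F d)) :=
  Bd.sum fun i => (hZ i).mul (hF.pd i)

lemma Sl.av1 (hε : ∀ d, 0 ≤ ε d) {Z : Fin 3 → D → V → ℝ} (hZ : ∀ i, Sl Ω ε k (Z i))
    (hF : Bd Ω (k + 1) F) : Sl Ω ε k (fun d => H2CV.av (fun i => Z i d) (F d)) :=
  Sl.sum hε fun i => (hZ i).mul (hF.pd i)

lemma Sl.av2 (hε : ∀ d, 0 ≤ ε d) {Z : Fin 3 → D → V → ℝ} (hZ : ∀ i, Bd Ω k (Z i))
    (hF : Sl Ω ε (k + 1) F) : Sl Ω ε k (fun d => H2CV.av (fun i => Z i d) (F d)) :=
  Sl.sum hε fun i => (hZ i).mulS (hF.pd i)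

lemma Bd.eu (hΩ : ∀ d, ∀ y ∈ Ω d, ‖y‖ ≤ 1) (hF : Bd Ω (k + 1) F) :
    Bd Ω k (fun d => eu (F d)) :=
  Bd.sum fun i => (Bd.coord hΩ i).mul (hF.pd i)

lemma Sl.eu (hΩ : ∀ d, ∀ y ∈ Ω d, ‖y‖ ≤ 1) (hε : ∀ d, 0 ≤ ε d) (hF : Sl Ω ε (k + 1) F) :
    Sl Ω ε k (fun d => H2CV.eu (F d)) :=
  Sl.sum hε fun i => (Bd.coord hΩ i).mulS (hF.pd i)

lemma Bd.lap (hF : Bd Ω (k + 2) F) : Bd Ω k (fun d => lap (F d)) :=
  Bd.sum fun i => (hF.pd i).pd i

lemma Sl.lap (hε : ∀ d, 0 ≤ ε d) (hF : Sl Ω ε (k + 2) F) : Sl Ω ε k (fun d => lap (F d)) :=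
  Sl.sum hε fun i => (hF.pd i).pd i

lemma Bd.R2 (hΩ : ∀ d, ∀ y ∈ Ω d, ‖y‖ ≤ 1) : Bd Ω k (fun _ : D => H2CV.R2) :=
  Bd.sum fun i => (Bd.coord hΩ i).mul (Bd.coord hΩ i)

lemma eu_wg {g : V → ℝ} (hg : ContDiff ℝ ∞ g) (i j : Fin 3) (y : V) :
    eu (wg g i j) y = wg (eu g) i j y := by
  have e : wg g i j = fun y => y i * pd j g y - y j * pd i g y := rfl
  rw [e, eu_sub ((sm_co i).mul (sm_pd hg j)) ((sm_co j).mul (sm_pd hg i)),
    eu_mul (sm_co i) (sm_pd hg j), eu_mul (sm_co j) (sm_pd hg i), eu_co, eu_co]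
  unfold wg
  simp only [pd_eu hg]
  ring

lemma sm_wg {g : V → ℝ} (hg : ContDiff ℝ ∞ g) (i j : Fin 3) : ContDiff ℝ ∞ (wg g i j) :=
  ((sm_co i).mul (sm_pd hg j)).sub ((sm_co j).mul (sm_pd hg i))

lemma sm_QQ {v : Fin 3 → V → ℝ} (hv : ∀ i, ContDiff ℝ ∞ (v i)) (i j : Fin 3) :
    ContDiff ℝ ∞ (QQ v i j) :=
  (((sm_co i).mul (sm_eu (hv j))).sub ((sm_co j).mul (sm_eu (hv i)))).sub
    (((sm_co i).mul (hv j)).sub ((sm_co j).mul (hv i)))

/-- The main estimate. -/
theorem alg (hO : ∀ d, IsOpen (Ω d)) (hΩ : ∀ d, ∀ y ∈ Ω d, ‖y‖ ≤ 1) (hε : ∀ d, 0 ≤ ε d)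
    (hε1 : ∀ d, ε d ≤ 1) {W w v : Fin 3 → D → V → ℝ} (hW : ∀ i, Bd Ω 4 (W i))
    (hw : ∀ i, Bd Ω 4 (w i)) (hv : ∀ i, Bd Ω 3 (v i))
    (hb : ∀ i j, Sl Ω ε 3 (fun d => bv (fun i => W i d) i j))
    (he : ∀ i, Sl Ω ε 3 (fun d y => W i d y - w i d y))
    (hdiv : ∀ d, ∀ y ∈ Ω d, ∑ i, pd i (W i d) y = 0) :
    ∃ C : ℝ, 0 ≤ C ∧ ∀ d, ∀ y ∈ Ω d,
      |eu (GG fun i => W i d) y + GG (fun i => W i d) y| ≤ C * ε d ∧ ∀ i j,
      GG (fun i => W i d) y ^ 2 * |wg (GG fun i => W i d) i j y|
        ≤ C * (|GG (fun i => W i d) y| ^ 3 + ε d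
          + |DF (ZZ fun i => W i d) (HH (fun i => w i d) fun i => v i d) i j y|) := by
  have sW : ∀ d i, ContDiff ℝ ∞ (W i d) := fun d i => (hW i).1 d
  have sw : ∀ d i, ContDiff ℝ ∞ (w i d) := fun d i => (hw i).1 d
  have sv : ∀ d i, ContDiff ℝ ∞ (v i d) := fun d i => (hv i).1 d
  have hco : ∀ (k : ℕ) (i : Fin 3), Bd Ω k (fun _ y => y i) := fun k i => Bd.coord hΩ i
  -- the basic families
  have bG : Bd Ω 4 (fun d => GG fun i => W i d) := Bd.sum fun i => (hco 4 i).mul (hW i)
  have bR : ∀ k, Bd Ω k (fun _ : D => R2) := fun k => Bd.R2 hΩ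
  have bZ : ∀ j, Bd Ω 4 (fun d => ZZ (fun i => W i d) j) := fun j => (bR 4).mul (hW j)
  have sa : ∀ j, Sl Ω ε 3 (fun d => aa (fun i => W i d) j) := fun j =>
    Sl.sum hε fun i => (hco 3 i).mulS (hb i j)
  have ba : ∀ j, Bd Ω 3 (fun d => aa (fun i => W i d) j) := fun j => (sa j).bd hε hε1
  have sdiv : Sl Ω ε 2 (fun d y => ∑ j, pd j (aa (fun i => W i d) j) y) :=
    Sl.sum hε fun j => (sa j).pd j
  have bH : ∀ j, Bd Ω 2 (fun d => HH (fun i => W i d) (fun i => v i d) j) := fun j =>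
    (bR 2).mul ((((hW j).lap).sub (Bd.av (fun i => (hv i).mono (by norm_num))
      ((hW j).mono (by norm_num)))).add (Bd.av (fun i => (hW i).mono (by norm_num)) (hv j)))
  have bQ : ∀ i j, Bd Ω 2 (fun d => QQ (fun i => v i d) i j) := fun i j =>
    (((hco 2 i).mul ((hv j).eu hΩ)).sub ((hco 2 j).mul ((hv i).eu hΩ))).sub
      (((hco 2 i).mul ((hv j).mono (by norm_num))).sub
        ((hco 2 j).mul ((hv i).mono (by norm_num))))
  have sr : ∀ i j, Sl Ω ε 1 (fun d => rr (fun i => W i d) (fun i => v i d) i j) := by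
    intro i j
    have hv1 : ∀ i, Bd Ω 1 (v i) := fun i => (hv i).mono (by norm_num)
    have hv2 : ∀ i, Bd Ω 2 (v i) := fun i => (hv i).mono (by norm_num)
    have t1 := ((hco 1 i).mulS ((sa j).lap hε)).sub hε ((hco 1 j).mulS ((sa i).lap hε))
    have t2 := (Bd.const (Ω := Ω) (k := 1) 4).mulS (((hb i j).mono (by norm_num : 2 ≤ 3)).eu hΩ hε)
    have t3 := (Bd.const (Ω := Ω) (k := 1) 2).mulS ((hb i j).mono (by norm_num : 1 ≤ 3))
    have t4 := ((hco 1 i).mulS (Sl.av2 hε hv1 ((sa j).mono (by norm_num : 2 ≤ 3)))).sub hε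
      ((hco 1 j).mulS (Sl.av2 hε hv1 ((sa i).mono (by norm_num : 2 ≤ 3))))
    have t5 := ((Bd.const (Ω := Ω) (k := 1) 2).mul (Bd.sum fun k => (hv1 k).mul (hco 1 k))).mulS
      ((hb i j).mono (by norm_num : 1 ≤ 3))
    have t6 := ((hco 1 i).mulS (Sl.av1 hε (fun l => (sa l).mono (by norm_num : 1 ≤ 3))
      (hv2 j))).sub hε ((hco 1 j).mulS (Sl.av1 hε (fun l => (sa l).mono (by norm_num : 1 ≤ 3))
      (hv2 i)))
    exact (((((t1.sub hε t2).sub hε t3).sub hε t4).add hε t5).add hε t6)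
  -- the difference of the directions
  have se1 : ∀ j, Sl Ω ε 1 (fun d y => HH (fun i => W i d) (fun i => v i d) j y
      - HH (fun i => w i d) (fun i => v i d) j y) := by
    intro j
    have hv1 : ∀ i, Bd Ω 1 (v i) := fun i => (hv i).mono (by norm_num)
    have hv2 : ∀ i, Bd Ω 2 (v i) := fun i => (hv i).mono (by norm_num)
    have t := (bR 1).mulS ((((he j).lap hε).sub hε (Sl.av2 hε hv1
      ((he j).mono (by norm_num : 2 ≤ 3)))).add hε (Sl.av1 hε (fun l => (he l).mono
        (by norm_num : 1 ≤ 3)) (hv2 j)))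
    refine t.congr hO (fun d => (sm_HH (sW d) (sv d) j).sub (sm_HH (sw d) (sv d) j)) ?_
    intro d y _
    have h1 : H459R3.NS.lap (fun y => W j d y - w j d y) y
        = H459R3.NS.lap (W j d) y - H459R3.NS.lap (w j d) y := by
      have h2 := lap_add' (f := fun y => W j d y - w j d y) (g := w j d)
        ((sW d j).sub (sw d j)) (sw d j) y
      have h3 : (fun y => W j d y - w j d y + w j d y) = W j d := by
        funext z
        ring
      rw [h3] at h2
      linarith
    have h2 : ∀ k, pd k (fun y => W j d y - w j d y) y = pd k (W j d) y - pd k (w j d) y := by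
      intro k
      rw [pd_sub' (sW d j) (sw d j)]
    show _ = R2 y * (H459R3.NS.lap (fun y => W j d y - w j d y) y
      - H2CV.av (fun i => v i d) (fun y => W j d y - w j d y) y
      + H2CV.av (fun i y => W i d y - w i d y) (v j d) y)
    rw [h1]
    unfold HH ee H2CV.av
    simp only [h2, Fin.sum_univ_three]
    ring
  -- the perturbation
  have hY : ∀ d k, ZZ (fun i => W i d) k = fun y => (fun k y => GG (fun i => W i d) y * y k) k y
      + aa (fun i => W i d) k y := fun d k => Z_eqf _ k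
  have bY : ∀ k, Bd Ω 4 (fun d y => GG (fun i => W i d) y * y k) := fun k => bG.mul (hco 4 k)
  have m01 : (1 : ℕ) ≤ 3 := by norm_num
  have sp : ∀ i j, Sl Ω ε 0 (fun d y =>
      HH (fun i => W i d) (fun i => v i d) i y * (av (aa (fun i => W i d)) (ZZ (fun i => W i d) j) y
        + av (fun k y => GG (fun i => W i d) y * y k) (aa (fun i => W i d) j) y)
      - HH (fun i => W i d) (fun i => v i d) j y * (av (aa (fun i => W i d))
        (ZZ (fun i => W i d) i) y
        + av (fun k y => GG (fun i => W i d) y * y k) (aa (fun i => W i d) i) y)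
      + aa (fun i => W i d) i y * (av (HH (fun i => W i d) (fun i => v i d))
        (ZZ (fun i => W i d) j) y
        + av (ZZ (fun i => W i d)) (HH (fun i => W i d) (fun i => v i d) j) y)
      + (fun k y => GG (fun i => W i d) y * y k) i y * (av (HH (fun i => W i d)
        (fun i => v i d)) (aa (fun i => W i d) j) y
        + av (aa (fun i => W i d)) (HH (fun i => W i d) (fun i => v i d) j) y)
      - aa (fun i => W i d) j y * (av (HH (fun i => W i d) (fun i => v i d))
        (ZZ (fun i => W i d) i) y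
        + av (ZZ (fun i => W i d)) (HH (fun i => W i d) (fun i => v i d) i) y)
      - (fun k y => GG (fun i => W i d) y * y k) j y * (av (HH (fun i => W i d)
        (fun i => v i d)) (aa (fun i => W i d) i) y
        + av (aa (fun i => W i d)) (HH (fun i => W i d) (fun i => v i d) i) y)) := by
    intro i j
    have a0 : ∀ l, Sl Ω ε 0 (fun d => aa (fun i => W i d) l) := fun l => (sa l).mono (by norm_num)
    have a1 : ∀ l, Sl Ω ε 1 (fun d => aa (fun i => W i d) l) := fun l => (sa l).mono (by norm_num)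
    have h0 : ∀ l, Bd Ω 0 (fun d => HH (fun i => W i d) (fun i => v i d) l) := fun l =>
      (bH l).mono (by norm_num)
    have h1 : ∀ l, Bd Ω 1 (fun d => HH (fun i => W i d) (fun i => v i d) l) := fun l =>
      (bH l).mono (by norm_num)
    have z0 : ∀ l, Bd Ω 0 (fun d => ZZ (fun i => W i d) l) := fun l => (bZ l).mono (by norm_num)
    have z1 : ∀ l, Bd Ω 1 (fun d => ZZ (fun i => W i d) l) := fun l => (bZ l).mono (by norm_num)
    have y0 : ∀ l, Bd Ω 0 (fun d y => GG (fun i => W i d) y * y l) := fun l =>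
      (bY l).mono (by norm_num)
    have p1 : ∀ l, Sl Ω ε 0 (fun d y => av (aa (fun i => W i d)) (ZZ (fun i => W i d) l) y
        + av (fun k y => GG (fun i => W i d) y * y k) (aa (fun i => W i d) l) y) := fun l =>
      (Sl.av1 hε a0 (z1 l)).add hε (Sl.av2 hε y0 (a1 l))
    have p2 : ∀ l, Bd Ω 0 (fun d y => av (HH (fun i => W i d) (fun i => v i d))
        (ZZ (fun i => W i d) l) y
        + av (ZZ (fun i => W i d)) (HH (fun i => W i d) (fun i => v i d) l) y) := fun l =>
      (Bd.av h0 (z1 l)).add (Bd.av z0 (h1 l))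
    have p3 : ∀ l, Sl Ω ε 0 (fun d y => av (HH (fun i => W i d)
        (fun i => v i d)) (aa (fun i => W i d) l) y
        + av (aa (fun i => W i d)) (HH (fun i => W i d) (fun i => v i d) l) y) := fun l =>
      (Sl.av2 hε h0 (a1 l)).add hε (Sl.av1 hε a0 (h1 l))
    exact ((((((h0 i).mulS (p1 j)).sub hε ((h0 j).mulS (p1 i))).add hε ((a0 i).mul (p2 j))).add hε
      ((y0 i).mulS (p3 j))).sub hε ((a0 j).mul (p2 i))).sub hε ((y0 j).mulS (p3 i))
  have sd : ∀ i j, Sl Ω ε 0 (fun d => DF (ZZ fun i => W i d) (fun l y =>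
      HH (fun i => W i d) (fun i => v i d) l y - HH (fun i => w i d) (fun i => v i d) l y) i j) := by
    intro i j
    have a0 : ∀ l, Sl Ω ε 0 (fun d y => HH (fun i => W i d) (fun i => v i d) l y
        - HH (fun i => w i d) (fun i => v i d) l y) := fun l => (se1 l).mono (by norm_num)
    have z0 : ∀ l, Bd Ω 0 (fun d => ZZ (fun i => W i d) l) := fun l => (bZ l).mono (by norm_num)
    have z1 : ∀ l, Bd Ω 1 (fun d => ZZ (fun i => W i d) l) := fun l => (bZ l).mono (by norm_num)
    have p2 : ∀ l, Bd Ω 0 (fun d y => av (ZZ (fun i => W i d)) (ZZ (fun i => W i d) l) y) :=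
      fun l => Bd.av z0 (z1 l)
    have p3 : ∀ l, Sl Ω ε 0 (fun d y => av (fun l y => HH (fun i => W i d) (fun i => v i d) l y
        - HH (fun i => w i d) (fun i => v i d) l y) (ZZ (fun i => W i d) l) y
        + av (ZZ (fun i => W i d)) (fun y => HH (fun i => W i d) (fun i => v i d) l y
        - HH (fun i => w i d) (fun i => v i d) l y) y) := fun l =>
      (Sl.av1 hε a0 (z1 l)).add hε (Sl.av2 hε z0 (se1 l))
    exact ((((a0 i).mul (p2 j)).sub hε ((a0 j).mul (p2 i))).add hε ((z0 i).mulS (p3 j))).sub hε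
      ((z0 j).mulS (p3 i))
  -- the rest of the radial part
  have g0 : Bd Ω 0 (fun d => GG fun i => W i d) := bG.mono (by norm_num)
  have d0 : Sl Ω ε 0 (fun d y => ∑ j, pd j (aa (fun i => W i d) j) y) := sdiv.mono (by norm_num)
  have sq : ∀ i j, Sl Ω ε 0 (fun d y =>
      GG (fun i => W i d) y * GG (fun i => W i d) y *
        (eu (rr (fun i => W i d) (fun i => v i d) i j) y
          - 2 * (y i * pd j (fun y => ∑ j, pd j (aa (fun i => W i d) j) y) y
            - y j * pd i (fun y => ∑ j, pd j (aa (fun i => W i d) j) y) y)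
          - (∑ j, pd j (aa (fun i => W i d) j) y) * QQ (fun i => v i d) i j y)
      + GG (fun i => W i d) y * (∑ j, pd j (aa (fun i => W i d) j) y)
        * (y i * HH (fun i => W i d) (fun i => v i d) j y
          - y j * HH (fun i => W i d) (fun i => v i d) i y)) := by
    intro i j
    have h0 : ∀ l, Bd Ω 0 (fun d => HH (fun i => W i d) (fun i => v i d) l) := fun l =>
      (bH l).mono (by norm_num)
    have t1 := (sr i j).eu (k := 0) hΩ hε
    have t2 := (Bd.const (Ω := Ω) (k := 0) 2).mulS (((hco 0 i).mulS ((sdiv.mono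
      (by norm_num : 1 ≤ 2)).pd j)).sub hε ((hco 0 j).mulS ((sdiv.mono
      (by norm_num : 1 ≤ 2)).pd i)))
    have t3 := d0.mul ((bQ i j).mono (by norm_num : 0 ≤ 2))
    exact ((g0.mul g0).mulS ((t1.sub hε t2).sub hε t3)).add hε ((g0.mulS d0).mul
      (((hco 0 i).mul (h0 j)).sub ((hco 0 j).mul (h0 i))))
  -- the constants
  obtain ⟨Cd, hCd, hd⟩ := d0.val hε
  have hb2 : ∀ i j, ∃ C : ℝ, 0 ≤ C ∧ ∀ d, ∀ y ∈ Ω d,
      GG (fun i => W i d) y ^ 2 * |wg (GG fun i => W i d) i j y|
        ≤ C * (|GG (fun i => W i d) y| ^ 3 + ε d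
          + |DF (ZZ fun i => W i d) (HH (fun i => w i d) fun i => v i d) i j y|) := by
    intro i j
    obtain ⟨C1, hC1, h1⟩ := (sp i j).val hε
    obtain ⟨C2, hC2, h2⟩ := (sd i j).val hε
    obtain ⟨C3, hC3, h3⟩ := (sq i j).val hε
    have bQ' : Bd Ω 0 (fun d y => eu (QQ (fun i => v i d) i j) y - QQ (fun i => v i d) i j y) :=
      (((bQ i j).eu hΩ).sub ((bQ i j).mono (by norm_num : 1 ≤ 2))).mono (by norm_num)
    obtain ⟨C4, hC4, h4⟩ := bQ'.val
    refine ⟨1 + C1 + C2 + C3 + C4, by positivity, fun d y hy => ?_⟩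
    have k1 := h1 d y hy
    have k2 := h2 d y hy
    have k3 := h3 d y hy
    have k4 := h4 d y hy
    -- the identity
    have sH := sm_HH (sW d) (sv d)
    have e1 := DF_sub (Z := ZZ fun i => W i d) (sm_HH (sW d) (sv d)) (sm_HH (sw d) (sv d)) i j y
    have e2 := DF_pert (Z := ZZ fun i => W i d) (Y := fun k y => GG (fun i => W i d) y * y k)
      (a := aa (fun i => W i d)) (H := HH (fun i => W i d) (fun i => v i d))
      (fun k => (sm_GG (sW d)).mul (sm_co k)) (sm_aa (sW d)) (hY d) i j y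
    have e3 := DF_rad (sm_GG (sW d)) sH i j y
    have e4 : ∀ z, bv (HH (fun i => W i d) (fun i => v i d)) i j z
        = 2 * wg (GG fun i => W i d) i j z + GG (fun i => W i d) z * QQ (fun i => v i d) i j z
          + rr (fun i => W i d) (fun i => v i d) i j z := fun z => wedge_H (sW d) i j z
    have e5 : ∀ z ∈ Ω d, eu (GG fun i => W i d) z = -GG (fun i => W i d) z
        - ∑ j, pd j (aa (fun i => W i d) j) z := fun z hz => eu_G (sW d) (hdiv d z hz)
    have sdv : ContDiff ℝ ∞ (fun z => ∑ j, pd j (aa (fun i => W i d) j) z) := sdiv.1 d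
    have e6 : ∀ l, pd l (eu (GG fun i => W i d)) y = -pd l (GG fun i => W i d) y
        - pd l (fun z => ∑ j, pd j (aa (fun i => W i d) j) z) y := by
      intro l
      rw [pd_congr_open (hO d) e5 l hy, pd_sub' (sm_GG (sW d)).neg sdv]
      show pd l (fun z => -GG (fun i => W i d) z) y - _ = _
      rw [pd_neg']
    have sG := sm_GG (sW d)
    have sQ := sm_QQ (sv d) i j
    have srr : ContDiff ℝ ∞ (rr (fun i => W i d) (fun i => v i d) i j) := (sr i j).1 d
    have e7 : eu (bv (HH (fun i => W i d) (fun i => v i d)) i j) y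
        = 2 * wg (eu (GG fun i => W i d)) i j y
          + (GG (fun i => W i d) y * eu (QQ (fun i => v i d) i j) y
            + eu (GG fun i => W i d) y * QQ (fun i => v i d) i j y)
          + eu (rr (fun i => W i d) (fun i => v i d) i j) y := by
      have f1 : bv (HH (fun i => W i d) (fun i => v i d)) i j = fun z =>
          (2 * wg (GG fun i => W i d) i j z + GG (fun i => W i d) z * QQ (fun i => v i d) i j z)
          + rr (fun i => W i d) (fun i => v i d) i j z := funext e4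
      rw [f1, eu_add (((contDiff_const.mul (sm_wg sG i j)).add (sG.mul sQ))) srr,
        eu_add (contDiff_const.mul (sm_wg sG i j)) (sG.mul sQ), eu_mul sG sQ,
        eu_mul contDiff_const (sm_wg sG i j), eu_wg sG]
      have f2 : eu (fun _ : V => (2 : ℝ)) y = 0 := by
        unfold H2CV.eu
        simp [pd_const']
      rw [f2]
      ring
    have e8 : wg (eu (GG fun i => W i d)) i j y = -wg (GG fun i => W i d) i j y
        - (y i * pd j (fun z => ∑ j, pd j (aa (fun i => W i d) j) z) y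
          - y j * pd i (fun z => ∑ j, pd j (aa (fun i => W i d) j) z) y) := by
      unfold wg
      rw [e6, e6]
      ring
    have e9 := e5 y hy
    have e10 : bv (HH (fun i => W i d) (fun i => v i d)) i j y
        = y i * HH (fun i => W i d) (fun i => v i d) j y
          - y j * HH (fun i => W i d) (fun i => v i d) i y := rfl
    rw [e7, e8, e9, e10] at e3
    rw [e3] at e2
    rw [e2] at e1
    beta_reduce at e1 k1 k2 k3
    obtain ⟨g, hg⟩ : ∃ g, g = GG (fun i => W i d) y := ⟨_, rfl⟩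
    rw [← hg] at e1 k1 k3 ⊢
    obtain ⟨P1, hP1⟩ : ∃ P1, P1 = HH (fun i => W i d) (fun i => v i d) i y *
      (av (aa (fun i => W i d)) (ZZ (fun i => W i d) j) y
        + av (fun k y => GG (fun i => W i d) y * y k) (aa (fun i => W i d) j) y)
      - HH (fun i => W i d) (fun i => v i d) j y * (av (aa (fun i => W i d))
        (ZZ (fun i => W i d) i) y
        + av (fun k y => GG (fun i => W i d) y * y k) (aa (fun i => W i d) i) y)
      + aa (fun i => W i d) i y * (av (HH (fun i => W i d) (fun i => v i d))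
        (ZZ (fun i => W i d) j) y
        + av (ZZ (fun i => W i d)) (HH (fun i => W i d) (fun i => v i d) j) y)
      + (g * y i) * (av (HH (fun i => W i d)
        (fun i => v i d)) (aa (fun i => W i d) j) y
        + av (aa (fun i => W i d)) (HH (fun i => W i d) (fun i => v i d) j) y)
      - aa (fun i => W i d) j y * (av (HH (fun i => W i d) (fun i => v i d))
        (ZZ (fun i => W i d) i) y
        + av (ZZ (fun i => W i d)) (HH (fun i => W i d) (fun i => v i d) i) y)
      - (g * y j) * (av (HH (fun i => W i d)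
        (fun i => v i d)) (aa (fun i => W i d) i) y
        + av (aa (fun i => W i d)) (HH (fun i => W i d) (fun i => v i d) i) y) := ⟨_, rfl⟩
    rw [← hP1] at e1 k1
    obtain ⟨P2, hP2⟩ : ∃ P2, P2 = DF (ZZ fun i => W i d) (fun l y =>
      HH (fun i => W i d) (fun i => v i d) l y - HH (fun i => w i d) (fun i => v i d) l y) i j y :=
      ⟨_, rfl⟩
    rw [← hP2] at e1 k2
    obtain ⟨S3, hS3⟩ : ∃ S3, S3 = g * g *
        (eu (rr (fun i => W i d) (fun i => v i d) i j) y
          - 2 * (y i * pd j (fun y => ∑ j, pd j (aa (fun i => W i d) j) y) y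
            - y j * pd i (fun y => ∑ j, pd j (aa (fun i => W i d) j) y) y)
          - (∑ j, pd j (aa (fun i => W i d) j) y) * QQ (fun i => v i d) i j y)
      + g * (∑ j, pd j (aa (fun i => W i d) j) y)
        * (y i * HH (fun i => W i d) (fun i => v i d) j y
          - y j * HH (fun i => W i d) (fun i => v i d) i y) := ⟨_, rfl⟩
    rw [← hS3] at k3
    have key : 2 * (g ^ 2 * wg (GG fun i => W i d) i j y)
        = g ^ 3 * (eu (QQ (fun i => v i d) i j) y - QQ (fun i => v i d) i j y) + S3 + P1 - P2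
          - DF (ZZ fun i => W i d) (HH (fun i => w i d) fun i => v i d) i j y := by
      rw [hS3]
      linear_combination e1
    have hg2 : g ^ 2 * |wg (GG fun i => W i d) i j y| = |g ^ 2 * wg (GG fun i => W i d) i j y| := by
      rw [abs_mul, abs_of_nonneg (sq_nonneg g)]
    rw [hg2]
    have h5 : |2 * (g ^ 2 * wg (GG fun i => W i d) i j y)|
        ≤ |g| ^ 3 * C4 + C3 * ε d + C1 * ε d + C2 * ε d
          + |DF (ZZ fun i => W i d) (HH (fun i => w i d) fun i => v i d) i j y| := by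
      rw [key]
      refine (abs_sub _ _).trans ?_
      refine add_le_add ?_ le_rfl
      refine (abs_sub _ _).trans ?_
      refine add_le_add ?_ k2
      refine (abs_add_le _ _).trans ?_
      refine add_le_add ?_ k1
      refine (abs_add_le _ _).trans ?_
      refine add_le_add ?_ k3
      rw [abs_mul, abs_pow]
      exact mul_le_mul_of_nonneg_left k4 (by positivity)
    rw [abs_mul, abs_of_nonneg (by norm_num : (0 : ℝ) ≤ 2)] at h5
    have h6 := hε d
    have h7 : 0 ≤ |g| ^ 3 := by positivity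
    have h8 := abs_nonneg (DF (ZZ fun i => W i d) (HH (fun i => w i d) fun i => v i d) i j y)
    have h9 := abs_nonneg (g ^ 2 * wg (GG fun i => W i d) i j y)
    nlinarith [mul_nonneg hC1 h7, mul_nonneg hC2 h7, mul_nonneg hC3 h7, mul_nonneg hC1 h8,
      mul_nonneg hC2 h8, mul_nonneg hC3 h8, mul_nonneg hC4 h8, mul_nonneg hC4 h6,
      mul_nonneg hC1 h6, mul_nonneg hC2 h6, mul_nonneg hC3 h6, mul_nonneg hC4 h7]
  choose C hC hCb using hb2
  refine ⟨Cd + ∑ i, ∑ j, C i j, add_nonneg hCd (Finset.sum_nonneg fun i _ =>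
    Finset.sum_nonneg fun j _ => hC i j), fun d y hy => ⟨?_, fun i j => ?_⟩⟩
  · have e := eu_G (sW d) (hdiv d y hy)
    rw [e]
    have e2 : -GG (fun i => W i d) y - ∑ j, pd j (aa (fun i => W i d) j) y
        + GG (fun i => W i d) y = -∑ j, pd j (aa (fun i => W i d) j) y := by ring
    rw [e2, abs_neg]
    refine (hd d y hy).trans (mul_le_mul_of_nonneg_right ?_ (hε d))
    have : 0 ≤ ∑ i, ∑ j, C i j := Finset.sum_nonneg fun i _ =>
      Finset.sum_nonneg fun j _ => hC i j
    linarith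
  · refine (hCb i j d y hy).trans (mul_le_mul_of_nonneg_right ?_ ?_)
    · have h1 : C i j ≤ ∑ j, C i j :=
        Finset.single_le_sum (f := fun j => C i j) (fun j _ => hC i j) (Finset.mem_univ j)
      have h2 : ∑ j, C i j ≤ ∑ i, ∑ j, C i j :=
        Finset.single_le_sum (f := fun i => ∑ j, C i j)
          (fun i _ => Finset.sum_nonneg fun j _ => hC i j) (Finset.mem_univ i)
      linarith
    · have := hε d
      positivity

end Pool.Agent.H2CV
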