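import Pool.Agent.H2CV.LocT
import Pool.Agent.Q85.CL.MainD

/-!
Project CV: the curvature of the vortex lines concentrates at the singular points, compared with
functions of small content integral (with the local theorem as a hypothesis).
-/

set_option autoImplicit false

open MeasureTheory Set Metric Filter Topology
open scoped ContDiff ENNReal NNReal
open H459R3.NS Pool.Agent.W268.NS Pool.Agent.Q67.VD

namespace Pool.Agent.H2CV

open Pool.Agent.Q85.CC Pool.Agent.Q85.CL Pool.Agent.Q85.VL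

lemma cv_evD {v w : V → V} {c : ℝ} (hc : 0 < c) {x : V} (h : ∀ᶠ y in 𝓝 x, w y = c • v y) :
    cv w x = c * cv v x := by
  have h1 : ∀ᶠ y in 𝓝 x, vort w y = c • vort v y := by
    filter_upwards [h.eventually_nhds] with y hy
    exact vort_evD hy
  have h2 : fderiv ℝ (vort w) x = c • fderiv ℝ (vort v) x := by
    rw [Filter.EventuallyEq.fderiv_eq (f₁ := vort w) (f := c • vort v) h1]
    exact congrFun (fderiv_const_smul_field (𝕜 := ℝ) (f := vort v) c) x
  have h3 : vort w x = c • vort v x := h1.self_of_nhds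
  have h4 : crossProduct (vort w x) (fderiv ℝ (vort w) x (vort w x))
      = c ^ 3 • crossProduct (vort v x) (fderiv ℝ (vort v) x (vort v x)) := by
    rw [h2, h3]
    simp only [_root_.smul_apply, map_smul, LinearMap.smul_apply, smul_smul]
    congr 1
    ring
  unfold cv
  rw [h4, om_evD hc.le h, len_smulI, abs_of_pos (by positivity), mul_pow]
  by_cases h0 : om v x = 0
  · rw [h0]
    simp
  · field_simp

/-- The excess of the curvature over `m`. -/
noncomputable def excm (m : V → ℝ) (v : V → V) (y : V) : ℝ := max (cv v y - m y * om v y) 0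

/-- A positive amount of the excess of the curvature concentrates at `a`. -/
def Conc2 (T : ℝ) (Ω : Set V) (u : ℝ → V → V) (a : V) : Prop :=
  ∃ μ : ℝ, 0 < μ ∧ ∀ (M T₀ R : ℝ) (m : ℝ → V → ℝ), 0 ≤ T₀ → T₀ < T → 0 < R →
    closedBall a R ⊆ Ω →
    (∀ t ∈ Ioo T₀ T, Measurable (m t) ∧ (∀ y, 0 ≤ m t y) ∧
      choq (closedBall a R) (m t) ≤ ENNReal.ofReal μ) →
    ∃ t ∈ Ioo T₀ T, μ < ∫ y in closedBall a R ∩ {y | M < om (u t) y}, excm (m t) (u t) y

lemma excm_nonneg (m : V → ℝ) (v : V → V) (y : V) : 0 ≤ excm m v y := le_max_right _ _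

lemma excm_evD {m : V → ℝ} {v w : V → V} {c : ℝ} (hc : 0 < c) {x : V}
    (h : ∀ᶠ y in 𝓝 x, w y = c • v y) : excm m w x = c * excm m v x := by
  unfold excm
  rw [cv_evD hc h, om_evD hc.le h, mul_max_of_nonneg _ _ hc.le]
  congr 1
  · ring
  · ring

set_option maxHeartbeats 1600000 in
/-- The local theorem in open sets, general viscosity. -/
theorem conc2_DH (hLoc : StmLocT) (hDom : StmDom) {ν T E : ℝ} {Ω : Set V} {u : ℝ → V → V} {p : ℝ → V → ℝ} (hν : 0 < ν)
    (h : DSl ν T E Ω u p) {a : V} (ha : a ∈ Ω) (hs : Sing T u a) : Conc2 T Ω u a := by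
  have hT : 0 < T := by
    obtain ⟨t, ht, -⟩ := hs 0 1 one_pos
    exact ht.1.trans ht.2
  have hνi : 0 < ν⁻¹ := inv_pos.2 hν
  by_contra hcon
  unfold Conc2 at hcon
  push Not at hcon
  obtain ⟨R₁, hR₁, hsub₁⟩ := nhds_basis_closedBall.mem_iff.1 (h.openO.mem_nhds ha)
  obtain ⟨E', v, q, hL, hv⟩ := hDom ν T E Ω u p hν hT h a R₁ hR₁ hsub₁
  have hnb : ¬ ∃ B δ : ℝ, 0 < δ ∧ ∀ t ∈ Ioo 0 T, T - δ < t → ∀ x, ‖x - a‖ ≤ δ → ‖u t x‖ ≤ B := by
    rintro ⟨B, δ, hδ, h⟩
    obtain ⟨t, ht, htδ, x, hx, hB⟩ := hs B δ hδ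
    exact absurd (h t ht htδ x hx) (not_le.2 hB)
  refine hnb (back hν hR₁ hT hv (hLoc (ν * T) E' (ball a R₁) v q (mul_pos hν hT) hL a
    (mem_ball_self hR₁) ?_))
  intro μ hμ
  obtain ⟨M, T₀, R, m, hT0, hT₀, hR, hsub, hm, hle⟩ := hcon (min μ (ν * μ))
    (lt_min hμ (mul_pos hν hμ))
  refine ⟨ν⁻¹ * M, ν * T₀, min R (R₁ / 2), fun t' => m (t' / ν), mul_lt_mul_of_pos_left hT₀ hν,
    lt_min hR (by positivity), fun t' ht' ht'0 => ?_⟩
  obtain ⟨t, htd⟩ : ∃ t, t = t' / ν := ⟨_, rfl⟩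
  simp only [← htd]
  have htν : ν * t = t' := by rw [htd]; field_simp
  have ht0 : 0 < t := by rw [htd]; positivity
  have ht : t ∈ Ioo T₀ T := by
    refine ⟨?_, ?_⟩
    · exact lt_of_mul_lt_mul_left (by rw [htν]; exact ht'.1) hν.le
    · exact lt_of_mul_lt_mul_left (by rw [htν]; exact ht'.2) hν.le
  have hI : t ∈ Ioo 0 T := ⟨ht0, ht.2⟩
  have h1 := (hle t ht).trans (min_le_right _ _)
  obtain ⟨hmm, hm0, hch⟩ := hm t ht
  have hsubR : closedBall a (min R (R₁ / 2)) ⊆ closedBall a R :=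
    closedBall_subset_closedBall (min_le_left _ _)
  refine ⟨hmm, hm0, (choq_mono hsubR _).trans
    (hch.trans (ENNReal.ofReal_le_ofReal (min_le_left _ _))), ?_⟩
  -- the field `v`
  have hev0 : ∀ y ∈ closedBall a (min R (R₁ / 2)), ∀ᶠ z in 𝓝 y, v t' z = ν⁻¹ • u t z := by
    intro y hy
    refine ball_ev (a := a) (R := R₁) (fun z hz => ?_) ?_
    · rw [← hv t hI z hz, htν]
    · refine closedBall_subset_ball ?_ hy
      exact (min_le_right _ _).trans_lt (by linarith)
  have hev : ∀ y ∈ closedBall a (min R (R₁ / 2)),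
      excm (m t) (v t') y = ν⁻¹ * excm (m t) (u t) y := fun y hy => excm_evD hνi (hev0 y hy)
  have hsv : SM (v t') := slice_u hL.toLEq (by rw [← htν]; exact ⟨by positivity,
    mul_lt_mul_of_pos_left ht.2 hν⟩)
  have hmeas : MeasurableSet (closedBall a (min R (R₁ / 2)) ∩ {y | ν⁻¹ * M < om (v t') y}) :=
    isClosed_closedBall.measurableSet.inter
      (isOpen_lt continuous_const (om_cont' hsv)).measurableSet
  have hsubM : closedBall a (min R (R₁ / 2)) ∩ {y | ν⁻¹ * M < om (v t') y}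
      ⊆ closedBall a R ∩ {y | M < om (u t) y} := by
    intro y hy
    refine ⟨hsubR hy.1, ?_⟩
    have e1 : ν⁻¹ * M < om (v t') y := hy.2
    rw [om_evD hνi.le (hev0 y hy.1)] at e1
    exact lt_of_mul_lt_mul_left e1 hνi.le
  -- integrability
  obtain ⟨E'', w, q', hLw, hw⟩ := hDom ν T E Ω u p hν hT h a R hR hsub
  have hsw : SM (w t') := slice_u hLw.toLEq (by rw [← htν]; exact ⟨by positivity,
    mul_lt_mul_of_pos_left ht.2 hν⟩)
  have hae : (closedBall a R : Set V) =ᵐ[volume] ball a R := by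
    refine (ae_eq_set.2 ⟨?_, ?_⟩)
    · refine measure_mono_null ?_ (Measure.addHaar_sphere volume a R)
      intro y hy
      rw [mem_sphere]
      have e1 := mem_closedBall.1 hy.1
      have e2 : ¬ dist y a < R := fun hc => hy.2 (mem_ball.2 hc)
      linarith
    · rw [sdiff_eq_empty.2 ball_subset_closedBall]
      exact measure_empty
  have hevw : ∀ y ∈ ball a R, excm (m t) (u t) y = ν * excm (m t) (w t') y := by
    intro y hy
    have e1 : excm (m t) (w t') y = ν⁻¹ * excm (m t) (u t) y := by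
      refine excm_evD hνi (ball_ev (a := a) (R := R) (fun z hz => ?_) hy)
      rw [← hw t hI z hz, htν]
    rw [e1]
    field_simp
  have hint : IntegrableOn (excm (m t) (u t)) (closedBall a R) := by
    have e1 : IntegrableOn (fun y => ν * excm (m t) (w t') y) (ball a R) :=
      ((exm_int hsw hmm hm0 (isCompact_closedBall a R)).mono_set ball_subset_closedBall).const_mul ν
    have e2 : IntegrableOn (excm (m t) (u t)) (ball a R) :=
      (integrableOn_congr_fun hevw measurableSet_ball).2 e1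
    exact e2.congr_set_ae hae
  calc ∫ y in closedBall a (min R (R₁ / 2)) ∩ {y | ν⁻¹ * M < om (v t') y},
        max (cv (v t') y - m t y * om (v t') y) 0
      = ∫ y in closedBall a (min R (R₁ / 2)) ∩ {y | ν⁻¹ * M < om (v t') y},
          ν⁻¹ * excm (m t) (u t) y := setIntegral_congr_fun hmeas fun y hy => hev y hy.1
    _ = ν⁻¹ * ∫ y in closedBall a (min R (R₁ / 2)) ∩ {y | ν⁻¹ * M < om (v t') y},
          excm (m t) (u t) y := integral_const_mul _ _
    _ ≤ ν⁻¹ * ∫ y in closedBall a R ∩ {y | M < om (u t) y}, excm (m t) (u t) y := by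
        refine mul_le_mul_of_nonneg_left ?_ hνi.le
        exact setIntegral_mono_set (hint.mono_set inter_subset_left)
          (Eventually.of_forall fun y => excm_nonneg _ _ _) hsubM.eventuallyLE
    _ ≤ ν⁻¹ * (ν * μ) := mul_le_mul_of_nonneg_left h1 hνi.le
    _ = μ := by field_simp

lemma Conc2.univ {T r : ℝ} {u : ℝ → V → V} {a : V}
    (hu : ContDiffOn ℝ ∞ (fun z : ℝ × V => u z.1 z.2) (Ioo 0 T ×ˢ univ)) (hr : 0 < r)
    (h : Conc2 T (ball a r) u a) : Conc2 T univ u a := by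
  obtain ⟨μ, hμ, h⟩ := h
  refine ⟨μ, hμ, fun M T₀ R m hT0 hT₀ hR _ hm => ?_⟩
  have hsub : closedBall a (min R (r / 2)) ⊆ closedBall a R :=
    closedBall_subset_closedBall (min_le_left _ _)
  obtain ⟨t, ht, hlt⟩ := h M T₀ (min R (r / 2)) m hT0 hT₀ (lt_min hR (by positivity))
    (closedBall_subset_ball ((min_le_right _ _).trans_lt (by linarith)))
    (fun t ht => ⟨(hm t ht).1, (hm t ht).2.1, (choq_mono hsub _).trans (hm t ht).2.2⟩)
  refine ⟨t, ht, hlt.trans_le ?_⟩
  have hsm : SM (u t) := by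
    intro i
    have h1 : ContDiffOn ℝ ∞ (fun y : V => u t y i) Set.univ := by
      have h2 : ContDiffOn ℝ ∞ (fun z : ℝ × V => u z.1 z.2 i) (Ioo 0 T ×ˢ Set.univ) :=
        (contDiff_apply ℝ ℝ i).comp_contDiffOn hu
      exact h2.comp (f := fun y : V => (t, y)) (by fun_prop) fun y _ =>
        ⟨⟨hT0.trans_lt ht.1, ht.2⟩, mem_univ _⟩
    exact contDiffOn_univ.1 h1
  exact setIntegral_mono_set ((exm_int hsm (hm t ht).1 (hm t ht).2.1
    (isCompact_closedBall _ _)).mono_set inter_subset_left)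
    (Eventually.of_forall fun y => excm_nonneg _ _ _)
    (inter_subset_inter_left _ hsub).eventuallyLE


end Pool.Agent.H2CV
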