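import Pool.Agent.H2CV.Grd
import Mathlib.MeasureTheory.Integral.DivergenceTheorem
import Mathlib.Analysis.ODE.Gronwall
import Mathlib.Analysis.Normed.Module.Connected

/-!
Project CV: the flux through the surface of a cube, and propagation of smallness along it.
-/

set_option autoImplicit false

open MeasureTheory Set Metric Filter Topology
open scoped ContDiff

namespace Pool.Agent.H2CV

open H459R3.NS Pool.Agent.TH305.DR

lemma norm_front (i : Fin 3) {s c : ℝ} (hs : 0 ≤ s) (hc : |c| = s) {x : Fin 2 → ℝ}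
    (hx : x ∈ Icc ((fun _ : Fin 3 => -s) ∘ i.succAbove) ((fun _ : Fin 3 => s) ∘ i.succAbove)) :
    ‖(i.insertNth c x : Fin 3 → ℝ)‖ = s := by
  apply le_antisymm
  · rw [pi_norm_le_iff_of_nonneg hs]
    intro j
    rcases eq_or_ne j i with rfl | hj
    · rw [Fin.insertNth_apply_same, Real.norm_eq_abs, hc]
    · obtain ⟨k, rfl⟩ := Fin.exists_succAbove_eq hj
      rw [Fin.insertNth_apply_succAbove, Real.norm_eq_abs, abs_le]
      exact ⟨hx.1 k, hx.2 k⟩
  · have h := norm_le_pi_norm (i.insertNth c x : Fin 3 → ℝ) i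
    rw [Fin.insertNth_apply_same, Real.norm_eq_abs, hc] at h
    exact h

/-- A field without divergence does not point outwards at all the points of the surface of a
cube. -/
lemma no_out {W : Fin 3 → V → ℝ} (hW : ∀ i, ContDiff ℝ ∞ (W i))
    (hd : ∀ y, ∑ i, pd i (W i) y = 0) {s c : ℝ} (hs : 0 < s) (hc : 0 < c)
    (h1 : ∀ (y : V) (i : Fin 3), ‖y‖ = s → y i = s → c ≤ W i y)
    (h2 : ∀ (y : V) (i : Fin 3), ‖y‖ = s → y i = -s → W i y ≤ -c) : False := by
  have hle : (fun _ : Fin 3 => -s) ≤ fun _ => s := fun i => by show -s ≤ s; linarith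
  have e0 : (fun x : Fin 3 → ℝ => ∑ i, fderiv ℝ (W i) x (Pi.single i 1)) = fun _ => 0 :=
    funext fun x => hd x
  have key := integral_divergence_of_hasFDerivAt_off_countable' (E := ℝ) (n := 2) (fun _ => -s)
    (fun _ => s) hle W (fun i x => fderiv ℝ (W i) x) ∅ countable_empty
    (fun i => (hW i).continuous.continuousOn)
    (fun x _ i => ((hW i).differentiable (by norm_cast) x).hasFDerivAt) (by
      rw [e0]
      exact integrableOn_zero)
  rw [e0] at key
  simp only [integral_zero] at key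
  have hface : ∀ i : Fin 3, 0 < (volume (Icc ((fun _ : Fin 3 => -s) ∘ i.succAbove)
      ((fun _ : Fin 3 => s) ∘ i.succAbove))).toReal := by
    intro i
    rw [Real.volume_Icc_pi_toReal (fun j => by show -s ≤ s; linarith)]
    refine Finset.prod_pos fun j _ => ?_
    show 0 < s - -s
    linarith
  have hcpt : ∀ i : Fin 3, IsCompact (Icc ((fun _ : Fin 3 => -s) ∘ i.succAbove)
      ((fun _ : Fin 3 => s) ∘ i.succAbove)) := fun i => isCompact_Icc
  have hpos : ∀ i : Fin 3, 0 <
      (∫ x in Icc ((fun _ : Fin 3 => -s) ∘ i.succAbove) ((fun _ : Fin 3 => s) ∘ i.succAbove),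
        W i (i.insertNth s x)) -
      ∫ x in Icc ((fun _ : Fin 3 => -s) ∘ i.succAbove) ((fun _ : Fin 3 => s) ∘ i.succAbove),
        W i (i.insertNth (-s) x) := by
    intro i
    have hcont : ∀ c : ℝ, Continuous fun x : Fin 2 → ℝ => W i (i.insertNth c x) := fun c =>
      (hW i).continuous.comp (continuous_const.finInsertNth i continuous_id)
    have a1 : ∫ x in Icc ((fun _ : Fin 3 => -s) ∘ i.succAbove)
        ((fun _ : Fin 3 => s) ∘ i.succAbove), c ≤
        ∫ x in Icc ((fun _ : Fin 3 => -s) ∘ i.succAbove) ((fun _ : Fin 3 => s) ∘ i.succAbove),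
        W i (i.insertNth s x) := by
      apply setIntegral_mono_on (integrableOn_const (hcpt i).measure_lt_top.ne)
        ((hcont s).continuousOn.integrableOn_compact (hcpt i)) measurableSet_Icc
      intro x hx
      exact h1 _ i (norm_front i hs.le (abs_of_pos hs) hx) (Fin.insertNth_apply_same _ _ _)
    have a2 : ∫ x in Icc ((fun _ : Fin 3 => -s) ∘ i.succAbove)
        ((fun _ : Fin 3 => s) ∘ i.succAbove), W i (i.insertNth (-s) x) ≤
        ∫ x in Icc ((fun _ : Fin 3 => -s) ∘ i.succAbove) ((fun _ : Fin 3 => s) ∘ i.succAbove),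
        -c := by
      apply setIntegral_mono_on ((hcont (-s)).continuousOn.integrableOn_compact (hcpt i))
        (integrableOn_const (hcpt i).measure_lt_top.ne) measurableSet_Icc
      intro x hx
      exact h2 _ i (norm_front i hs.le (by rw [abs_neg, abs_of_pos hs]) hx)
        (Fin.insertNth_apply_same _ _ _)
    rw [setIntegral_const, smul_eq_mul] at a1 a2
    have a3 := hface i
    have a4 : 0 < (volume : Measure (Fin 2 → ℝ)).real (Icc ((fun _ : Fin 3 => -s) ∘ i.succAbove)
      ((fun _ : Fin 3 => s) ∘ i.succAbove)) * c := mul_pos a3 hc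
    linarith
  have hsum : 0 < ∑ i : Fin 3,
      ((∫ x in Icc ((fun _ : Fin 3 => -s) ∘ i.succAbove) ((fun _ : Fin 3 => s) ∘ i.succAbove),
        W i (i.insertNth s x)) -
      ∫ x in Icc ((fun _ : Fin 3 => -s) ∘ i.succAbove) ((fun _ : Fin 3 => s) ∘ i.succAbove),
        W i (i.insertNth (-s) x)) := Finset.sum_pos (fun i _ => hpos i) Finset.univ_nonempty
  rw [← key] at hsum
  exact lt_irrefl _ hsum

/-- Gronwall's inequality on a segment. -/
lemma seg {f : V → ℝ} (hf : ContDiff ℝ ∞ f) {a b : V} {K w : ℝ} (hK : 0 < K) (hw : 0 ≤ w)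
    (hab : ‖b - a‖ ≤ 1) (h : ∀ τ ∈ Icc (0 : ℝ) 1, ∀ k,
      |pd k f (a + τ • (b - a))| ≤ K * (|f (a + τ • (b - a))| + w)) :
    |f b| ≤ Real.exp (3 * K) * (|f a| + w) := by
  have hd : ∀ τ : ℝ, HasDerivAt (fun τ : ℝ => f (a + τ • (b - a)))
      (fderiv ℝ f (a + τ • (b - a)) (b - a)) τ := by
    intro τ
    have h1 : HasDerivAt (fun τ : ℝ => a + τ • (b - a)) (b - a) τ := by
      have := ((hasDerivAt_id τ).smul_const (b - a)).const_add a
      simpa using this
    exact ((hf.differentiable (by norm_cast)) _).hasFDerivAt.comp_hasDerivAt τ h1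
  have h1 := norm_le_gronwallBound_of_norm_deriv_right_le (f := fun τ : ℝ => f (a + τ • (b - a)))
    (f' := fun τ => fderiv ℝ f (a + τ • (b - a)) (b - a)) (δ := |f a|) (K := 3 * K)
    (ε := 3 * K * w) (a := 0) (b := 1) (fun τ _ => (hd τ).continuousAt.continuousWithinAt)
    (fun τ _ => (hd τ).hasDerivWithinAt) (by simp) (by
      intro τ hτ
      rw [Real.norm_eq_abs, Real.norm_eq_abs]
      rw [fd_sum]
      refine (Finset.abs_sum_le_sum_abs _ _).trans ?_
      have h2 : ∀ k, |(b - a) k * pd k f (a + τ • (b - a))|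
          ≤ K * (|f (a + τ • (b - a))| + w) := by
        intro k
        rw [abs_mul]
        have h3 : |(b - a) k| ≤ 1 := (norm_le_pi_norm (b - a) k).trans hab
        have h4 := h τ (Ico_subset_Icc_self hτ) k
        calc |(b - a) k| * |pd k f (a + τ • (b - a))|
            ≤ 1 * (K * (|f (a + τ • (b - a))| + w)) :=
              mul_le_mul h3 h4 (abs_nonneg _) zero_le_one
          _ = _ := one_mul _
      refine (Finset.sum_le_sum fun k _ => h2 k).trans (le_of_eq ?_)
      simp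
      ring) 1 ⟨zero_le_one, le_rfl⟩
  have hK3 : 3 * K ≠ 0 := by positivity
  rw [gronwallBound_of_K_ne_0 hK3] at h1
  have e1 : a + (1 : ℝ) • (b - a) = b := by rw [one_smul]; abel
  rw [e1, Real.norm_eq_abs, sub_zero] at h1
  beta_reduce at h1
  rw [mul_one] at h1
  have e2 : 3 * K * w / (3 * K) = w := by field_simp
  rw [e2] at h1
  linarith

/-- Segments on the surface of the cube. -/
def Sg (s : ℝ) (a b : V) : Prop := (∀ i, |a i| ≤ s ∧ |b i| ≤ s) ∧ ∃ k, a k = b k ∧ |a k| = s

lemma Sg.symm {s : ℝ} {a b : V} (h : Sg s a b) : Sg s b a := by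
  obtain ⟨h1, k, h2, h3⟩ := h
  exact ⟨fun i => ⟨(h1 i).2, (h1 i).1⟩, k, h2.symm, by rw [← h2]; exact h3⟩

lemma Sg.norm {s : ℝ} (hs : 0 ≤ s) {a b : V} (h : Sg s a b) {τ : ℝ} (hτ : τ ∈ Icc (0 : ℝ) 1) :
    ‖a + τ • (b - a)‖ = s := by
  obtain ⟨h1, k, h2, h3⟩ := h
  apply le_antisymm
  · rw [pi_norm_le_iff_of_nonneg hs]
    intro i
    have ha := abs_le.1 (h1 i).1
    have hb := abs_le.1 (h1 i).2
    rw [Real.norm_eq_abs, abs_le]
    show -s ≤ a i + τ * (b i - a i) ∧ a i + τ * (b i - a i) ≤ s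
    have e : a i + τ * (b i - a i) = (1 - τ) * a i + τ * b i := by ring
    rw [e]
    have ht0 := hτ.1
    have ht1 : 0 ≤ 1 - τ := by linarith [hτ.2]
    constructor
    · nlinarith [mul_le_mul_of_nonneg_left ha.1 ht1, mul_le_mul_of_nonneg_left hb.1 ht0]
    · nlinarith [mul_le_mul_of_nonneg_left ha.2 ht1, mul_le_mul_of_nonneg_left hb.2 ht0]
  · have h := norm_le_pi_norm (a + τ • (b - a)) k
    have e : (a + τ • (b - a)) k = a k := by
      show a k + τ * (b k - a k) = a k
      rw [← h2]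
      ring
    rw [e, Real.norm_eq_abs, h3] at h
    exact h

lemma Sg.dist {s : ℝ} (hs : s ≤ 1 / 2) {a b : V} (h : Sg s a b) : ‖b - a‖ ≤ 1 := by
  rw [pi_norm_le_iff_of_nonneg zero_le_one]
  intro i
  have ha := abs_le.1 (h.1 i).1
  have hb := abs_le.1 (h.1 i).2
  rw [Real.norm_eq_abs, abs_le]
  show -1 ≤ b i - a i ∧ b i - a i ≤ 1
  constructor <;> linarith [ha.1, ha.2, hb.1, hb.2]

/-- Propagation along the surface of the cube. -/
lemma conn {s E w : ℝ} (hs : 0 < s) (hE : 1 ≤ E) (hw : 0 ≤ w) {m : V → ℝ}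
    (hm : ∀ a b, Sg s a b → m b ≤ E * (m a + w)) {y z : V} (hy : ‖y‖ = s) (hz : ‖z‖ = s) :
    m z ≤ E ^ 8 * (m y + 8 * w) := by
  have hcor : ∀ y : V, ‖y‖ = s → Sg s y (fun i => if 0 ≤ y i then s else -s) := by
    intro y hy
    have h1 : ∀ i, |y i| ≤ s := fun i => by
      have := norm_le_pi_norm y i
      rwa [hy] at this
    refine ⟨fun i => ⟨h1 i, ?_⟩, ?_⟩
    · show |if 0 ≤ y i then s else -s| ≤ s
      split_ifs
      · rw [abs_of_pos hs]
      · rw [abs_neg, abs_of_pos hs]
    · by_contra hcon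
      push Not at hcon
      have h2 : ∀ i, ‖y i‖ < s := by
        intro i
        rcases lt_or_eq_of_le (h1 i) with h | h
        · exact h
        · exfalso
          refine hcon i ?_ h
          show y i = if 0 ≤ y i then s else -s
          split_ifs with h3
          · rw [abs_of_nonneg h3] at h
            exact h
          · rw [abs_of_neg (not_le.1 h3)] at h
            linarith
      have := (pi_norm_lt_iff hs).2 h2
      linarith
  have hfl : ∀ y : V, ‖y‖ = s → ∃ a b c : V, Sg s y a ∧ Sg s a b ∧ Sg s b c ∧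
      Sg s c (fun _ => s) := by
    intro y hy
    obtain ⟨σ, hσ⟩ : ∃ σ : V, σ = fun i => if 0 ≤ y i then s else -s := ⟨_, rfl⟩
    have hσ1 : ∀ i, |σ i| = s := by
      intro i
      rw [hσ]
      show |if 0 ≤ y i then s else -s| = s
      split_ifs
      · rw [abs_of_pos hs]
      · rw [abs_neg, abs_of_pos hs]
    have hss : |s| = s := abs_of_pos hs
    refine ⟨σ, ![s, σ 1, σ 2], ![s, s, σ 2], ?_, ?_, ?_, ?_⟩
    · rw [hσ]
      exact hcor y hy
    · refine ⟨fun i => ⟨(hσ1 i).le, ?_⟩, 1, rfl, hσ1 1⟩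
      fin_cases i
      · exact hss.le
      · exact (hσ1 1).le
      · exact (hσ1 2).le
    · refine ⟨fun i => ⟨?_, ?_⟩, 0, rfl, hss⟩
      · fin_cases i
        · exact hss.le
        · exact (hσ1 1).le
        · exact (hσ1 2).le
      · fin_cases i
        · exact hss.le
        · exact hss.le
        · exact (hσ1 2).le
    · refine ⟨fun i => ⟨?_, hss.le⟩, 0, rfl, hss⟩
      fin_cases i
      · exact hss.le
      · exact hss.le
      · exact (hσ1 2).le
  obtain ⟨a, b, c, h1, h2, h3, h4⟩ := hfl y hy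
  obtain ⟨a', b', c', h1', h2', h3', h4'⟩ := hfl z hz
  have step : ∀ {p q : V} {n : ℕ}, Sg s p q → m p ≤ E ^ n * (m y + n * w) →
      m q ≤ E ^ (n + 1) * (m y + (n + 1 : ℕ) * w) := by
    intro p q n hpq hp
    have hEn : 1 ≤ E ^ n := one_le_pow₀ hE
    have hE0 : 0 ≤ E := by linarith
    calc m q ≤ E * (m p + w) := hm p q hpq
      _ ≤ E * (E ^ n * (m y + n * w) + E ^ n * w) := by
        apply mul_le_mul_of_nonneg_left _ hE0
        have : w ≤ E ^ n * w := le_mul_of_one_le_left hw hEn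
        linarith
      _ = _ := by push_cast; ring
  have s0 : m y ≤ E ^ 0 * (m y + (0 : ℕ) * w) := by simp
  have s8 := step h1'.symm (step h2'.symm (step h3'.symm (step h4'.symm (step h4 (step h3
    (step h2 (step h1 s0)))))))
  norm_num at s8
  exact s8

/-- The sphere is connected. -/
lemma ivt {f : V → ℝ} (hf : Continuous f) {s c : ℝ} {y1 y2 : V} (h1 : ‖y1‖ = s) (h2 : ‖y2‖ = s)
    (hf1 : f y1 ≤ c) (hf2 : c ≤ f y2) : ∃ y : V, ‖y‖ = s ∧ f y = c := by
  have hr : 1 < Module.rank ℝ V := by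
    rw [rank_fun', Fintype.card_fin]
    exact_mod_cast (by norm_num : 1 < 3)
  have hp := isPreconnected_sphere hr (0 : V) s
  have m1 : y1 ∈ sphere (0 : V) s := by rw [mem_sphere_zero_iff_norm]; exact h1
  have m2 : y2 ∈ sphere (0 : V) s := by rw [mem_sphere_zero_iff_norm]; exact h2
  obtain ⟨y, hy, hy2⟩ := hp.intermediate_value m1 m2 hf.continuousOn ⟨hf1, hf2⟩
  exact ⟨y, by rwa [mem_sphere_zero_iff_norm] at hy, hy2⟩

end Pool.Agent.H2CV
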