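import Pool.Agent.H2CV.Fam
import Pool.Agent.H2CV.Tim

/-!
Project CV: the gradient of `G = y · ω` on the shell.
-/

set_option autoImplicit false

open MeasureTheory Set Metric Filter Topology
open scoped ContDiff

namespace Pool.Agent.H2CV

open H459R3.NS Pool.Agent.W268.NS Pool.Agent.TH305.DR
open Pool.Agent.W583.MD (sm_pd cs_pd pd_mul' slice)
open Pool.Agent.W22.ME.TD (pd_comm lap_smooth)
open Pool.Agent.Q85.CL (LEq SM)
open Pool.Agent.Q2.CL (dt_pdI sm_dtI pd_eqI)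

section

variable {D : Type*} {Ω : D → Set V} {ε : D → ℝ}

/-- The dependence of `DF` on the first field. -/
lemma DF_small (hε : ∀ d, 0 ≤ ε d) {Z Y a H : Fin 3 → D → V → ℝ} (hZ : ∀ k, Bd Ω 1 (Z k))
    (hY : ∀ k, Bd Ω 1 (Y k)) (ha : ∀ k, Sl Ω ε 1 (a k)) (hH : ∀ k, Bd Ω 1 (H k))
    (he : ∀ d k, Z k d = fun y => Y k d y + a k d y) (i j : Fin 3) :
    ∃ C : ℝ, 0 ≤ C ∧ ∀ d, ∀ y ∈ Ω d, |DF (fun k => Z k d) (fun k => H k d) i j y
      - DF (fun k => Y k d) (fun k => H k d) i j y| ≤ C * ε d := by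
  have a0 : ∀ l, Sl Ω ε 0 (a l) := fun l => (ha l).mono (by norm_num)
  have h0 : ∀ l, Bd Ω 0 (H l) := fun l => (hH l).mono (by norm_num)
  have z0 : ∀ l, Bd Ω 0 (Z l) := fun l => (hZ l).mono (by norm_num)
  have y0 : ∀ l, Bd Ω 0 (Y l) := fun l => (hY l).mono (by norm_num)
  have p1 : ∀ l, Sl Ω ε 0 (fun d y => av (fun k => a k d) (Z l d) y
      + av (fun k => Y k d) (a l d) y) := fun l =>
    (Sl.av1 hε a0 (hZ l)).add hε (Sl.av2 hε y0 (ha l))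
  have p2 : ∀ l, Bd Ω 0 (fun d y => av (fun k => H k d) (Z l d) y
      + av (fun k => Z k d) (H l d) y) := fun l => (Bd.av h0 (hZ l)).add (Bd.av z0 (hH l))
  have p3 : ∀ l, Sl Ω ε 0 (fun d y => av (fun k => H k d) (a l d) y
      + av (fun k => a k d) (H l d) y) := fun l =>
    (Sl.av2 hε h0 (ha l)).add hε (Sl.av1 hε a0 (hH l))
  obtain ⟨C, hC, h⟩ := (((((((h0 i).mulS (p1 j)).sub hε ((h0 j).mulS (p1 i))).add hε
    ((a0 i).mul (p2 j))).add hε ((y0 i).mulS (p3 j))).sub hε ((a0 j).mul (p2 i))).sub hε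
      ((y0 j).mulS (p3 i))).val hε
  refine ⟨C, hC, fun d y hy => ?_⟩
  have e := DF_pert (Z := fun k => Z k d) (Y := fun k => Y k d) (a := fun k => a k d)
    (H := fun k => H k d) (fun k => (hY k).1 d) (fun k => (ha k).1 d) (he d) i j y
  have e2 := h d y hy
  rw [e, add_sub_cancel_left]
  exact e2

end

section

variable {D : Type*} {Ω : D → Set V} {ε : D → ℝ}

/-- The main estimate with the derivative at the second time. -/
theorem alg2 (hO : ∀ d, IsOpen (Ω d)) (hΩ : ∀ d, ∀ y ∈ Ω d, ‖y‖ ≤ 1) (hε : ∀ d, 0 ≤ ε d)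
    (hε1 : ∀ d, ε d ≤ 1) {W w v : Fin 3 → D → V → ℝ} (hW : ∀ i, Bd Ω 4 (W i))
    (hw : ∀ i, Bd Ω 4 (w i)) (hv : ∀ i, Bd Ω 3 (v i))
    (hb : ∀ i j, Sl Ω ε 3 (fun d => bv (fun i => W i d) i j))
    (he : ∀ i, Sl Ω ε 3 (fun d y => W i d y - w i d y))
    (hdiv : ∀ d, ∀ y ∈ Ω d, ∑ i, pd i (W i d) y = 0) :
    ∃ C : ℝ, 0 ≤ C ∧ ∀ d, ∀ y ∈ Ω d,
      |eu (GG fun i => W i d) y + GG (fun i => W i d) y| ≤ C * ε d ∧ ∀ i j,
      GG (fun i => W i d) y ^ 2 * |wg (GG fun i => W i d) i j y|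
        ≤ C * (|GG (fun i => W i d) y| ^ 3 + ε d
          + |DF (ZZ fun i => w i d) (HH (fun i => w i d) fun i => v i d) i j y|) := by
  obtain ⟨C1, hC1, H1⟩ := alg hO hΩ hε hε1 hW hw hv hb he hdiv
  have hR : ∀ k, Bd Ω k (fun _ : D => R2) := fun k => Bd.R2 hΩ
  have hH : ∀ k, Bd Ω 1 (fun d => HH (fun i => w i d) (fun i => v i d) k) := fun k =>
    (hR 1).mul (((((hw k).mono (by norm_num : 3 ≤ 4)).lap).sub (Bd.av (fun i => (hv i).mono
      (by norm_num)) ((hw k).mono (by norm_num)))).add (Bd.av (fun i => (hw i).mono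
        (by norm_num)) ((hv k).mono (by norm_num))))
  have hD : ∀ i j, ∃ C : ℝ, 0 ≤ C ∧ ∀ d, ∀ y ∈ Ω d,
      |DF (fun k => ZZ (fun i => W i d) k)
        (fun k => HH (fun i => w i d) (fun i => v i d) k) i j y
      - DF (fun k => ZZ (fun i => w i d) k)
        (fun k => HH (fun i => w i d) (fun i => v i d) k) i j y| ≤ C * ε d := by
    intro i j
    refine DF_small (Z := fun k d => ZZ (fun i => W i d) k)
      (Y := fun k d => ZZ (fun i => w i d) k)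
      (a := fun k d y => R2 y * (W k d y - w k d y))
      (H := fun k d => HH (fun i => w i d) (fun i => v i d) k)
      hε (fun k => (hR 1).mul ((hW k).mono (by norm_num)))
      (fun k => (hR 1).mul ((hw k).mono (by norm_num)))
      (fun k => (hR 1).mulS ((he k).mono (by norm_num))) hH ?_ i j
    intro d k
    funext y
    unfold ZZ
    ring
  choose C2 hC2 H2 using hD
  obtain ⟨C3, hC3⟩ : ∃ C3, C3 = ∑ i, ∑ j, C2 i j := ⟨_, rfl⟩
  have hC3' : 0 ≤ C3 := by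
    rw [hC3]
    exact Finset.sum_nonneg fun i _ => Finset.sum_nonneg fun j _ => hC2 i j
  have hC23 : ∀ i j, C2 i j ≤ C3 := by
    intro i j
    rw [hC3]
    have h1 : C2 i j ≤ ∑ j, C2 i j :=
      Finset.single_le_sum (f := fun j => C2 i j) (fun j _ => hC2 i j) (Finset.mem_univ j)
    exact h1.trans (Finset.single_le_sum (f := fun i => ∑ j, C2 i j)
      (fun i _ => Finset.sum_nonneg fun j _ => hC2 i j) (Finset.mem_univ i))
  refine ⟨C1 * (1 + C3), by positivity, fun d y hy => ?_⟩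
  obtain ⟨a1, a2⟩ := H1 d y hy
  have h0 := hε d
  refine ⟨a1.trans (mul_le_mul_of_nonneg_right ?_ h0), fun i j => ?_⟩
  · nlinarith [mul_nonneg hC1 hC3']
  have a3 := a2 i j
  have a4 := H2 i j d y hy
  have c1 := abs_sub_abs_le_abs_sub
    (DF (ZZ fun i => W i d) (HH (fun i => w i d) fun i => v i d) i j y)
    (DF (ZZ fun i => w i d) (HH (fun i => w i d) fun i => v i d) i j y)
  have c3 : C2 i j * ε d ≤ C3 * ε d := mul_le_mul_of_nonneg_right (hC23 i j) h0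
  have c4 : |DF (ZZ fun i => W i d) (HH (fun i => w i d) fun i => v i d) i j y|
      ≤ |DF (ZZ fun i => w i d) (HH (fun i => w i d) fun i => v i d) i j y| + C3 * ε d := by
    have c5 : |DF (ZZ fun i => W i d) (HH (fun i => w i d) fun i => v i d) i j y
      - DF (ZZ fun i => w i d) (HH (fun i => w i d) fun i => v i d) i j y| ≤ C2 i j * ε d := a4
    linarith
  refine a3.trans ?_
  rw [mul_assoc]
  refine mul_le_mul_of_nonneg_left ?_ hC1
  have b1 : 0 ≤ |GG (fun i => W i d) y| ^ 3 := by positivity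
  have b2 := abs_nonneg (DF (ZZ fun i => w i d) (HH (fun i => w i d) fun i => v i d) i j y)
  nlinarith [mul_nonneg hC3' b1, mul_nonneg hC3' b2]

end

/-! ### The data -/

/-- A solution with bounds on a shell during a time interval. -/
structure Dt (M h : ℝ) where
  T : ℝ
  O : Set V
  u : ℝ → V → V
  p : ℝ → V → ℝ
  t : ℝ
  s : ℝ
  eq : LEq T O u p
  ht : h ^ 2 < t
  tT : t < T
  s1 : 1 / 64 ≤ s
  s2 : s ≤ 1 / 32
  bd : ∀ t' ∈ Ioc (t - h ^ 2) t, ∀ y : V, |‖y‖ - s| < h → y ∈ O ∧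
    (∀ n ≤ 5, ∀ i, SS n (vc (u t') i) y ≤ M ^ 2) ∧ ∀ n ≤ 4, ∀ i, SS n (fun z => u t' z i) y ≤ M ^ 2

variable {M h : ℝ}

lemma Dt.mem (d : Dt M h) {t' : ℝ} (ht : t' ∈ Ioc (d.t - h ^ 2) d.t) : t' ∈ Ioo 0 d.T :=
  ⟨by linarith [ht.1, d.ht], ht.2.trans_lt d.tT⟩

lemma Dt.memt (d : Dt M h) (hh : 0 < h) : d.t ∈ Ioc (d.t - h ^ 2) d.t :=
  ⟨by have := pow_pos hh 2; linarith, le_rfl⟩

/-- The shell. -/
def Dt.Om (d : Dt M h) (r : ℝ) : Set V := {y | |‖y‖ - d.s| < r}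

lemma Dt.openOm (d : Dt M h) (r : ℝ) : IsOpen (d.Om r) := by
  have : Continuous fun y : V => |‖y‖ - d.s| := by fun_prop
  exact this.isOpen_preimage _ isOpen_Iio

lemma Dt.norm_le (d : Dt M h) {r : ℝ} (hr : r ≤ 1 / 2) {y : V} (hy : y ∈ d.Om r) : ‖y‖ ≤ 1 := by
  have h1 : |‖y‖ - d.s| < r := hy
  have := (abs_lt.1 h1).2
  linarith [d.s2]

lemma Dt.smu (d : Dt M h) {t' : ℝ} (ht : t' ∈ Ioc (d.t - h ^ 2) d.t) (i : Fin 3) :
    ContDiff ℝ ∞ (fun z => d.u t' z i) := (JT_u d.eq i).slice' (d.mem ht)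

lemma Dt.smw (d : Dt M h) {t' : ℝ} (ht : t' ∈ Ioc (d.t - h ^ 2) d.t) (i : Fin 3) :
    ContDiff ℝ ∞ (vc (d.u t') i) := (JT_vc d.eq i).slice' (d.mem ht)

/-- Data with a second time. -/
structure Dt2 (M h : ℝ) extends Dt M h where
  σ : ℝ
  hσ : σ ∈ Ioc (t - h ^ 2) t

/-- The time derivative of the vorticity and its derivatives are bounded. -/
lemma ee_bd (hM : 0 ≤ M) : ∃ B : ℝ, 0 ≤ B ∧ ∀ (d : Dt M h),
    ∀ σ ∈ Ioc (d.t - h ^ 2) d.t, ∀ n ≤ 3, ∀ y ∈ d.Om h, ∀ i,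
      SS n (ee (vc (d.u σ)) (fun i z => d.u σ z i) i) y ≤ B ^ 2 := by
  have bw : ∀ i, Bd (fun d : Dt2 M h => d.toDt.Om h) 5 (fun d => vc (d.u d.σ) i) := fun i =>
    ⟨fun d => d.toDt.smw d.hσ i, M, hM, fun d n hn y hy => (d.bd d.σ d.hσ y hy).2.1 n hn i⟩
  have bv : ∀ i, Bd (fun d : Dt2 M h => d.toDt.Om h) 4 (fun d z => d.u d.σ z i) := fun i =>
    ⟨fun d => d.toDt.smu d.hσ i, M, hM, fun d n hn y hy => (d.bd d.σ d.hσ y hy).2.2 n hn i⟩
  have be : ∀ i, Bd (fun d : Dt2 M h => d.toDt.Om h) 3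
      (fun d => ee (vc (d.u d.σ)) (fun i z => d.u d.σ z i) i) := fun i =>
    ((bw i).lap.sub (Bd.av (fun i => (bv i).mono (by norm_num))
      ((bw i).mono (by norm_num)))).add (Bd.av (fun i => (bw i).mono (by norm_num)) (bv i))
  choose h1 C hC hb using be
  refine ⟨∑ i, C i, Finset.sum_nonneg fun i _ => hC i, fun d σ hσ n hn y hy i => ?_⟩
  refine (hb i ⟨d, σ, hσ⟩ n hn y hy).trans ?_
  exact pow_le_pow_left₀ (hC i) (Finset.single_le_sum (f := C) (fun i _ => hC i)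
    (Finset.mem_univ i)) 2

/-- Differences in time. -/
lemma diff_bd {B : ℝ} (hB : 0 ≤ B) (d : Dt M h)
    (hb : ∀ σ ∈ Ioc (d.t - h ^ 2) d.t, ∀ n ≤ 3, ∀ y ∈ d.Om h, ∀ i,
      SS n (ee (vc (d.u σ)) (fun i z => d.u σ z i) i) y ≤ B ^ 2) {σ : ℝ}
    (hσ : σ ∈ Ioc (d.t - h ^ 2) d.t) {n : ℕ} (hn : n ≤ 3) {y : V} (hy : y ∈ d.Om h) (i : Fin 3) :
    SS n (fun z => vc (d.u d.t) i z - vc (d.u σ) i z) y ≤ (6 * (d.t - σ) * B) ^ 2 := by
  have hσI := d.mem hσ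
  have h1 := timeSS n (JT_vc d.eq i) (a := σ) (b := d.t) (B := B) (y := y) hσI.1 hσ.2 d.tT hB (by
    intro s hs
    have hs' : s ∈ Ioc (d.t - h ^ 2) d.t := ⟨hσ.1.trans_le hs.1, hs.2⟩
    have e : SS n (fun z => deriv (fun σ => vc (d.u σ) i z) s) y
        = SS n (ee (vc (d.u s)) (fun i z => d.u s z i) i) y := by
      apply SS_congr_open n (d.openOm h) _ hy
      intro x hx
      exact vor_eq d.eq (d.mem hs') (d.bd s hs' x hx).1 i
    rw [e]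
    exact hb s hs' n hn y hy i)
  refine h1.trans ?_
  have h2 : (3 : ℝ) ^ n ≤ 3 ^ 3 := pow_le_pow_right₀ (by norm_num) hn
  have h3 : 0 ≤ ((d.t - σ) * B) ^ 2 := sq_nonneg _
  nlinarith

/-- The cross product of `w` and `(w · ∇) w`. -/
noncomputable def FF (w : Fin 3 → V → ℝ) (i j : Fin 3) (y : V) : ℝ :=
  w i y * av w (w j) y - w j y * av w (w i) y

lemma FF_Z {w : Fin 3 → V → ℝ} (hw : ∀ k, ContDiff ℝ ∞ (w k)) (i j : Fin 3) (y : V) :
    FF (ZZ w) i j y = R2 y ^ 3 * FF w i j y := by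
  unfold FF av
  simp only [pd_Z1 hw, Fin.sum_univ_three]
  unfold ZZ
  ring

/-- The mean value theorem in time. -/
lemma mvt (d : Dt M h) {σ : ℝ} (hσ : σ ∈ Ioo (d.t - h ^ 2) d.t) {y : V}
    (hy : y ∈ d.Om h) (i j : Fin 3) : ∃ τ ∈ Ioo σ d.t,
      (d.t - σ) * DF (ZZ (vc (d.u τ))) (HH (vc (d.u τ)) fun i z => d.u τ z i) i j y
        = FF (ZZ (vc (d.u d.t))) i j y - FF (ZZ (vc (d.u σ))) i j y := by
  have hI : ∀ s ∈ Icc σ d.t, s ∈ Ioc (d.t - h ^ 2) d.t := fun s hs => ⟨hσ.1.trans_le hs.1, hs.2⟩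
  have hZ : ∀ k, JT d.T (fun s => ZZ (vc (d.u s)) k) := by
    intro k
    have h1 : ContDiffOn ℝ ∞ (fun z : ℝ × V => R2 z.2) (Ioo 0 d.T ×ˢ univ) :=
      (sm_R2.comp contDiff_snd).contDiffOn
    exact h1.mul (JT_vc d.eq k)
  have hder : ∀ s ∈ Icc σ d.t, ∀ k, ∀ x ∈ d.Om h,
      deriv (fun s => ZZ (vc (d.u s)) k x) s
        = HH (vc (d.u s)) (fun i z => d.u s z i) k x := by
    intro s hs k x hx
    have h1 := ((JT_vc d.eq k).hd (d.mem (hI s hs)) x).const_mul (R2 x)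
    have h2 : deriv (fun s => ZZ (vc (d.u s)) k x) s = _ := h1.deriv
    rw [h2, vor_eq d.eq (d.mem (hI s hs)) (d.bd s (hI s hs) x hx).1 k]
    rfl
  have d0 : ∀ s ∈ Icc σ d.t, ∀ k, HasDerivAt (fun s => ZZ (vc (d.u s)) k y)
      (HH (vc (d.u s)) (fun i z => d.u s z i) k y) s := by
    intro s hs k
    rw [← hder s hs k y hy]
    exact (hZ k).hd (d.mem (hI s hs)) y
  have d1 : ∀ s ∈ Icc σ d.t, ∀ l k, HasDerivAt (fun s => pd l (ZZ (vc (d.u s)) k) y)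
      (pd l (HH (vc (d.u s)) (fun i z => d.u s z i) k) y) s := by
    intro s hs l k
    rw [← pd_congr_open (d.openOm h) (hder s hs k) l hy]
    exact dt_pdI (f := fun s => ZZ (vc (d.u s)) k) (hZ k) (d.mem (hI s hs)) l y
  have d2 : ∀ s ∈ Icc σ d.t, ∀ k, HasDerivAt (fun s => av (ZZ (vc (d.u s))) (ZZ (vc (d.u s)) k) y)
      (av (HH (vc (d.u s)) (fun i z => d.u s z i)) (ZZ (vc (d.u s)) k) y
        + av (ZZ (vc (d.u s))) (HH (vc (d.u s)) (fun i z => d.u s z i) k) y) s := by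
    intro s hs k
    have h1 : HasDerivAt (fun s => ∑ l, ZZ (vc (d.u s)) l y * pd l (ZZ (vc (d.u s)) k) y)
        (∑ l, (HH (vc (d.u s)) (fun i z => d.u s z i) l y * pd l (ZZ (vc (d.u s)) k) y
          + ZZ (vc (d.u s)) l y * pd l (HH (vc (d.u s)) (fun i z => d.u s z i) k) y)) s :=
      HasDerivAt.fun_sum fun l _ => (d0 s hs l).mul (d1 s hs l k)
    rw [Finset.sum_add_distrib] at h1
    exact h1
  have d3 : ∀ s ∈ Icc σ d.t, HasDerivAt (fun s => FF (ZZ (vc (d.u s))) i j y)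
      (DF (ZZ (vc (d.u s))) (HH (vc (d.u s)) fun i z => d.u s z i) i j y) s := by
    intro s hs
    have h1 := ((d0 s hs i).mul (d2 s hs j)).sub ((d0 s hs j).mul (d2 s hs i))
    refine h1.congr_deriv ?_
    unfold DF
    ring
  obtain ⟨τ, hτ, h1⟩ := exists_hasDerivAt_eq_slope (fun s => FF (ZZ (vc (d.u s))) i j y)
    (fun s => DF (ZZ (vc (d.u s))) (HH (vc (d.u s)) fun i z => d.u s z i) i j y) hσ.2
    (fun s hs => (d3 s hs).continuousAt.continuousWithinAt)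
    (fun s hs => d3 s (Ioo_subset_Icc_self hs))
  refine ⟨τ, hτ, ?_⟩
  have h2 : d.t - σ ≠ 0 := by linarith [hσ.2]
  rw [eq_div_iff h2] at h1
  linarith

/-- Data with a second time and a small number. -/
structure Ix (M h : ℝ) extends Dt2 M h where
  e : ℝ
  e0 : 0 ≤ e
  e1 : e ≤ 1
  hb : ∀ n ≤ 3, ∀ y ∈ toDt.Om (h / 2), ∀ i j, SS n (bv (vc (u t)) i j) y ≤ e ^ 2
  he : ∀ n ≤ 3, ∀ y ∈ toDt.Om (h / 2), ∀ i, SS n (fun z => vc (u t) i z - vc (u σ) i z) y ≤ e ^ 2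

lemma wg_G {f : V → ℝ} (k : Fin 3) (y : V) :
    R2 y * pd k f y = y k * eu f y + ∑ i, y i * wg f i k y := by
  unfold R2 eu wg
  simp only [Fin.sum_univ_three]
  ring

lemma R2_le {y : V} (hy : ‖y‖ ≤ 1) : R2 y ≤ 3 := by
  unfold R2
  have h1 : ∀ i, y i * y i ≤ 1 := by
    intro i
    have := (norm_le_pi_norm y i).trans hy
    rw [Real.norm_eq_abs, abs_le] at this
    nlinarith [this.1, this.2]
  rw [Fin.sum_univ_three]
  linarith [h1 0, h1 1, h1 2]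

lemma R2_nonneg (y : V) : 0 ≤ R2 y := Finset.sum_nonneg fun i _ => mul_self_nonneg _

lemma le_R2 (y : V) : ‖y‖ ^ 2 ≤ R2 y := by
  have h1 : ‖y‖ ≤ √(R2 y) := by
    rw [pi_norm_le_iff_of_nonneg (Real.sqrt_nonneg _)]
    intro i
    apply Real.le_sqrt_of_sq_le
    rw [Real.norm_eq_abs, sq_abs, sq]
    exact Finset.single_le_sum (f := fun i => y i * y i) (fun i _ => mul_self_nonneg _)
      (Finset.mem_univ i)
  calc ‖y‖ ^ 2 ≤ √(R2 y) ^ 2 := pow_le_pow_left₀ (norm_nonneg _) h1 2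
    _ = R2 y := Real.sq_sqrt (R2_nonneg y)

lemma Dt.R2_ge (d : Dt M h) (hh : h ≤ 1 / 256) {y : V} (hy : y ∈ d.Om (h / 2)) :
    1 / 8000 ≤ R2 y := by
  have h1 : |‖y‖ - d.s| < h / 2 := hy
  have h2 := (abs_lt.1 h1).1
  have h3 := d.s1
  have h4 : 3 / 256 ≤ ‖y‖ := by linarith
  have h5 := le_R2 y
  nlinarith

/-- The gradient estimate on the shell. -/
theorem grad (hM : 0 ≤ M) (hh : 0 < h) (hh1 : h ≤ 1 / 256) : ∃ C : ℝ, 0 < C ∧ ∀ w : ℝ, 0 < w →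
    ∃ ε₁ : ℝ, 0 < ε₁ ∧ ∀ d : Dt M h,
      (∀ n ≤ 3, ∀ y ∈ d.Om (h / 2), ∀ i j, SS n (bv (vc (d.u d.t)) i j) y ≤ ε₁ ^ 2) →
      (∀ σ ∈ Ioc (d.t - h ^ 2) d.t, ∀ y ∈ d.Om (h / 2), ∀ i j, |FF (vc (d.u σ)) i j y| ≤ ε₁) →
      ∀ y ∈ d.Om (h / 2), ∀ k, GG (vc (d.u d.t)) y ^ 2 * |pd k (GG (vc (d.u d.t))) y|
        ≤ C * (|GG (vc (d.u d.t)) y| ^ 3 + w) := by
  obtain ⟨B, hB, hBe⟩ := ee_bd (M := M) (h := h) hM
  have hh2 : h / 2 ≤ h := by linarith
  have hsub : ∀ (d : Dt M h), ∀ y ∈ d.Om (h / 2), y ∈ d.Om h := fun d y hy =>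
    lt_of_lt_of_le (show |‖y‖ - d.s| < h / 2 from hy) hh2
  have hO : ∀ d : Ix M h, IsOpen (d.toDt.Om (h / 2)) := fun d => d.toDt.openOm _
  have hΩ : ∀ d : Ix M h, ∀ y ∈ d.toDt.Om (h / 2), ‖y‖ ≤ 1 := fun d y hy =>
    d.toDt.norm_le (by linarith) hy
  have hW : ∀ i, Bd (fun d : Ix M h => d.toDt.Om (h / 2)) 4 (fun d => vc (d.u d.t) i) := fun i =>
    ⟨fun d => d.toDt.smw (d.toDt.memt hh) i, M, hM, fun d n hn y hy =>
      (d.bd d.t (d.toDt.memt hh) y (hsub _ y hy)).2.1 n (by omega) i⟩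
  have hw : ∀ i, Bd (fun d : Ix M h => d.toDt.Om (h / 2)) 4 (fun d => vc (d.u d.σ) i) := fun i =>
    ⟨fun d => d.toDt.smw d.hσ i, M, hM, fun d n hn y hy =>
      (d.bd d.σ d.hσ y (hsub _ y hy)).2.1 n (by omega) i⟩
  have hv : ∀ i, Bd (fun d : Ix M h => d.toDt.Om (h / 2)) 3 (fun d z => d.u d.σ z i) := fun i =>
    ⟨fun d => d.toDt.smu d.hσ i, M, hM, fun d n hn y hy =>
      (d.bd d.σ d.hσ y (hsub _ y hy)).2.2 n (by omega) i⟩
  have hb : ∀ i j, Sl (fun d : Ix M h => d.toDt.Om (h / 2)) (fun d => d.e) 3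
      (fun d => bv (fun i => vc (d.u d.t) i) i j) := fun i j =>
    ⟨fun d => sm_bv (fun k => d.toDt.smw (d.toDt.memt hh) k) i j, 1, zero_le_one,
      fun d n hn y hy => by rw [one_mul]; exact d.hb n hn y hy i j⟩
  have he : ∀ i, Sl (fun d : Ix M h => d.toDt.Om (h / 2)) (fun d => d.e) 3
      (fun d y => vc (d.u d.t) i y - vc (d.u d.σ) i y) := fun i =>
    ⟨fun d => (d.toDt.smw (d.toDt.memt hh) i).sub (d.toDt.smw d.hσ i), 1, zero_le_one,
      fun d n hn y hy => by rw [one_mul]; exact d.he n hn y hy i⟩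
  have hdiv : ∀ d : Ix M h, ∀ y ∈ d.toDt.Om (h / 2), ∑ i, pd i (vc (d.u d.t) i) y = 0 := by
    intro d y _
    exact div_vc (fun i => d.toDt.smu (d.toDt.memt hh) i) y
  obtain ⟨C1, hC1, H1⟩ := alg2 hO hΩ (fun d => d.e0) (fun d => d.e1) hW hw hv hb he hdiv
  refine ⟨8000 * (1 + 3 * C1), by positivity, fun w hw0 => ?_⟩
  -- the small numbers
  obtain ⟨η, hη⟩ : ∃ η, η = min (1 / 2) (w / ((1 + C1) * (1 + 9 * M ^ 2) * 5)) :=
    ⟨_, rfl⟩
  have hη0 : 0 < η := by rw [hη]; exact lt_min (by norm_num) (by positivity)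
  have hη1 : η ≤ 1 / 2 := by rw [hη]; exact min_le_left _ _
  have hη2 : η * ((1 + C1) * (1 + 9 * M ^ 2) * 5) ≤ w := by
    rw [← le_div_iff₀ (by positivity), hη]
    exact min_le_right _ _
  obtain ⟨δ, hδ⟩ : ∃ δ, δ = min (h ^ 2 / 2) (η / (6 * B + 1)) := ⟨_, rfl⟩
  have hδ0 : 0 < δ := by rw [hδ]; exact lt_min (by positivity) (by positivity)
  have hδ1 : δ ≤ h ^ 2 / 2 := by rw [hδ]; exact min_le_left _ _
  have hδ2 : 6 * δ * B ≤ η := by
    have h1 : δ ≤ η / (6 * B + 1) := by rw [hδ]; exact min_le_right _ _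
    rw [le_div_iff₀ (by positivity)] at h1
    nlinarith
  obtain ⟨ε₁, hε⟩ : ∃ ε₁, ε₁ = min η (η * δ / 54) := ⟨_, rfl⟩
  have hε0 : 0 < ε₁ := by rw [hε]; exact lt_min hη0 (by positivity)
  have hε1 : ε₁ ≤ η := by rw [hε]; exact min_le_left _ _
  have hε2 : 54 * ε₁ ≤ η * δ := by
    have h1 : ε₁ ≤ η * δ / 54 := by rw [hε]; exact min_le_right _ _
    linarith
  refine ⟨ε₁, hε0, fun d hbd hFd y hy k => ?_⟩
  have hy1 : ‖y‖ ≤ 1 := d.norm_le (by linarith) hy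
  have hyh := hsub d y hy
  have hR2 := R2_le hy1
  have hR20 := R2_nonneg y
  have hR21 := d.R2_ge hh1 hy
  have htt := d.memt hh
  have hht : 0 < h ^ 2 := by positivity
  obtain ⟨g, hg⟩ : ∃ g, g = GG (vc (d.u d.t)) y := ⟨_, rfl⟩
  -- the estimate for each pair of indices
  have hσ0 : d.t - δ ∈ Ioo (d.t - h ^ 2) d.t := ⟨by linarith, by linarith⟩
  have main : ∀ i j, |eu (GG (vc (d.u d.t))) y + g| ≤ C1 * (2 * η) ∧
      g ^ 2 * |wg (GG (vc (d.u d.t))) i j y| ≤ C1 * (|g| ^ 3 + 3 * η) := by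
    intro i j
    obtain ⟨τ, hτ, hτ2⟩ := mvt d hσ0 hyh i j
    have hτI : τ ∈ Ioc (d.t - h ^ 2) d.t := ⟨hσ0.1.trans hτ.1, hτ.2.le⟩
    have hb' : ∀ n ≤ 3, ∀ y ∈ d.Om (h / 2), ∀ i j,
        SS n (bv (vc (d.u d.t)) i j) y ≤ (2 * η) ^ 2 := fun n hn y hy i j =>
      (hbd n hn y hy i j).trans (pow_le_pow_left₀ hε0.le (by linarith) 2)
    have he' : ∀ n ≤ 3, ∀ y ∈ d.Om (h / 2), ∀ i,
        SS n (fun z => vc (d.u d.t) i z - vc (d.u τ) i z) y ≤ (2 * η) ^ 2 := by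
      intro n hn y hy i
      have h1 : d.t - τ ≤ δ := by linarith [hτ.1]
      have h0 : 0 ≤ d.t - τ := by linarith [hτ.2]
      have h2 : 6 * (d.t - τ) * B ≤ 6 * δ * B := by gcongr
      exact (diff_bd hB d (hBe d) hτI hn (hsub d y hy) i).trans
        (pow_le_pow_left₀ (by positivity) (by linarith) 2)
    let ix : Ix M h := ⟨⟨d, τ, hτI⟩, 2 * η, by positivity, by linarith, hb', he'⟩
    obtain ⟨a1, a2⟩ := H1 ix y hy
    have a3 := a2 i j
    have a5 : |DF (ZZ (vc (d.u τ))) (HH (vc (d.u τ)) fun i z => d.u τ z i) i j y| ≤ η := by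
      have b1 := FF_Z (fun k => d.smw htt k) i j y
      have b2 := FF_Z (fun k => d.smw (Ioo_subset_Ioc_self hσ0) k) i j y
      rw [b1, b2] at hτ2
      have e : d.t - (d.t - δ) = δ := by ring
      rw [e] at hτ2
      have b3 := hFd d.t htt y hy i j
      have b4 := hFd (d.t - δ) (Ioo_subset_Ioc_self hσ0) y hy i j
      have b5 : R2 y ^ 3 ≤ 27 := by
        calc R2 y ^ 3 ≤ 3 ^ 3 := pow_le_pow_left₀ hR20 hR2 3
          _ = 27 := by norm_num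
      have b6 : |δ * DF (ZZ (vc (d.u τ))) (HH (vc (d.u τ)) fun i z => d.u τ z i) i j y|
          ≤ 27 * ε₁ + 27 * ε₁ := by
        rw [hτ2]
        refine (abs_sub _ _).trans (add_le_add ?_ ?_)
        · rw [abs_mul, abs_of_nonneg (by positivity : 0 ≤ R2 y ^ 3)]
          exact mul_le_mul b5 b3 (abs_nonneg _) (by norm_num)
        · rw [abs_mul, abs_of_nonneg (by positivity : 0 ≤ R2 y ^ 3)]
          exact mul_le_mul b5 b4 (abs_nonneg _) (by norm_num)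
      rw [abs_mul, abs_of_pos hδ0] at b6
      have b7 : δ * |DF (ZZ (vc (d.u τ))) (HH (vc (d.u τ)) fun i z => d.u τ z i) i j y|
          ≤ δ * η := by linarith
      exact le_of_mul_le_mul_left b7 hδ0
    refine ⟨?_, ?_⟩
    · rw [hg]
      exact a1
    · have a7 : g ^ 2 * |wg (GG (vc (d.u d.t))) i j y| ≤ C1 * (|g| ^ 3 + 2 * η
          + |DF (ZZ (vc (d.u τ))) (HH (vc (d.u τ)) fun i z => d.u τ z i) i j y|) := by
        rw [hg]
        exact a3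
      refine a7.trans (mul_le_mul_of_nonneg_left ?_ hC1)
      linarith
  rw [← hg]
  -- the radial and the tangential derivatives
  have hgM : |g| ≤ 3 * M := by
    rw [hg]
    unfold GG
    refine (Finset.abs_sum_le_sum_abs _ _).trans ?_
    have h1 : ∀ i, |y i * vc (d.u d.t) i y| ≤ M := by
      intro i
      rw [abs_mul]
      have c1 : |y i| ≤ 1 := (norm_le_pi_norm y i).trans hy1
      have c2 := (d.bd d.t htt y hyh).2.1 0 (by norm_num) i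
      rw [SS_zero] at c2
      have c3 := abs_le_of_sq_le_sq c2 hM
      calc |y i| * |vc (d.u d.t) i y| ≤ 1 * M := mul_le_mul c1 c3 (abs_nonneg _) zero_le_one
        _ = M := one_mul _
    refine (Finset.sum_le_sum fun i _ => h1 i).trans (le_of_eq ?_)
    simp
  have hg2 : g ^ 2 ≤ 9 * M ^ 2 := by
    rw [← sq_abs]
    calc |g| ^ 2 ≤ (3 * M) ^ 2 := pow_le_pow_left₀ (abs_nonneg _) hgM 2
      _ = 9 * M ^ 2 := by ring
  have hid := wg_G (f := GG (vc (d.u d.t))) k y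
  have hyk : ∀ i, |y i| ≤ 1 := fun i => (norm_le_pi_norm y i).trans hy1
  have e1 : |eu (GG (vc (d.u d.t))) y| ≤ |g| + C1 * (2 * η) := by
    have h1 := (main 0 0).1
    have h2 := abs_sub_abs_le_abs_sub (eu (GG (vc (d.u d.t))) y) (-g)
    rw [sub_neg_eq_add, abs_neg] at h2
    linarith
  have e2 : |R2 y * pd k (GG (vc (d.u d.t))) y| ≤ |eu (GG (vc (d.u d.t))) y|
      + ∑ i, |wg (GG (vc (d.u d.t))) i k y| := by
    rw [hid]
    refine (abs_add_le _ _).trans (add_le_add ?_ ?_)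
    · rw [abs_mul]
      exact mul_le_of_le_one_left (abs_nonneg _) (hyk k)
    · refine (Finset.abs_sum_le_sum_abs _ _).trans (Finset.sum_le_sum fun i _ => ?_)
      rw [abs_mul]
      exact mul_le_of_le_one_left (abs_nonneg _) (hyk i)
  rw [abs_mul, abs_of_nonneg hR20] at e2
  have e3 : g ^ 2 * (R2 y * |pd k (GG (vc (d.u d.t))) y|) ≤ g ^ 2 * (|g| + C1 * (2 * η))
      + 3 * (C1 * (|g| ^ 3 + 3 * η)) := by
    have h1 : g ^ 2 * (R2 y * |pd k (GG (vc (d.u d.t))) y|) ≤ g ^ 2 * (|eu (GG (vc (d.u d.t))) y|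
      + ∑ i, |wg (GG (vc (d.u d.t))) i k y|) := mul_le_mul_of_nonneg_left e2 (sq_nonneg g)
    rw [mul_add, Finset.mul_sum] at h1
    have h2 : ∑ i, g ^ 2 * |wg (GG (vc (d.u d.t))) i k y|
        ≤ ∑ _i : Fin 3, C1 * (|g| ^ 3 + 3 * η) :=
      Finset.sum_le_sum fun i _ => (main i k).2
    have h3 : ∑ _i : Fin 3, C1 * (|g| ^ 3 + 3 * η)
        = 3 * (C1 * (|g| ^ 3 + 3 * η)) := by simp
    rw [h3] at h2
    have h4 := mul_le_mul_of_nonneg_left e1 (sq_nonneg g)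
    linarith
  have e4 : g ^ 2 * |g| = |g| ^ 3 := by
    rw [← sq_abs]
    ring
  have e5 : g ^ 2 * (C1 * (2 * η)) ≤ 9 * M ^ 2 * (C1 * (2 * η)) :=
    mul_le_mul_of_nonneg_right hg2 (by positivity)
  have e6 : g ^ 2 * (R2 y * |pd k (GG (vc (d.u d.t))) y|)
      ≤ (1 + 3 * C1) * (|g| ^ 3 + w) := by
    have f1 : 9 * M ^ 2 * (C1 * (2 * η)) + 3 * (C1 * (3 * η))
        ≤ (1 + 3 * C1) * w := by
      have g0 : 0 ≤ C1 * η := by positivity
      have g1 : C1 * η * ((1 + 9 * M ^ 2) * 5) ≤ w := by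
        have : C1 * η * ((1 + 9 * M ^ 2) * 5)
            ≤ (1 + C1) * η * ((1 + 9 * M ^ 2) * 5) := by
          gcongr
          linarith
        linarith
      have g2 : 9 * M ^ 2 * (C1 * (2 * η)) + C1 * (3 * η)
          ≤ C1 * η * ((1 + 9 * M ^ 2) * 5) := by
        have : 0 ≤ C1 * η * (27 * M ^ 2 + 2) := by positivity
        nlinarith
      have g3 : C1 * (3 * η) ≤ C1 * w := by
        have k1 : 3 * η ≤ w := by
          have : 3 * η ≤ η * ((1 + C1) * (1 + 9 * M ^ 2) * 5) := by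
            have k2 : 1 ≤ (1 + C1) * (1 + 9 * M ^ 2) := by
              have : 0 ≤ C1 + 9 * M ^ 2 + C1 * (9 * M ^ 2) := by positivity
              nlinarith
            have k3 : 3 ≤ (1 + C1) * (1 + 9 * M ^ 2) * 5 := by linarith
            rw [mul_comm η]
            exact mul_le_mul_of_nonneg_right k3 hη0.le
          linarith
        exact mul_le_mul_of_nonneg_left k1 hC1
      linarith
    have f2 : 0 ≤ |g| ^ 3 := by positivity
    nlinarith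
  have e7 : g ^ 2 * |pd k (GG (vc (d.u d.t))) y| * (1 / 8000)
      ≤ g ^ 2 * |pd k (GG (vc (d.u d.t))) y| * R2 y :=
    mul_le_mul_of_nonneg_left hR21 (by positivity)
  have e8 : g ^ 2 * |pd k (GG (vc (d.u d.t))) y| * R2 y
      = g ^ 2 * (R2 y * |pd k (GG (vc (d.u d.t))) y|) := by ring
  linarith

end Pool.Agent.H2CV
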