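import Pool.Agent.H2CV.Cal

/-!
Project CV: interpolation and the pointwise bound from the mean square.
-/

set_option autoImplicit false

open MeasureTheory Set Metric Filter Topology
open scoped ContDiff

namespace Pool.Agent.H2CV

open H459R3.NS W221.NS Pool.Agent.TH305.DR
open Pool.Agent.W583.MD (sm_pd cs_pd pd_mul')

lemma fd_sum (f : V → ℝ) (z d : V) : fderiv ℝ f z d = ∑ k, d k * pd k f z := by
  have h : d = ∑ k, d k • (Pi.single k (1 : ℝ) : V) := by
    funext j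
    simp [Pi.single_apply]
  conv_lhs => rw [h]
  rw [map_sum]
  refine Finset.sum_congr rfl fun k _ => ?_
  rw [map_smul, smul_eq_mul]
  rfl

lemma pd_le {f : V → ℝ} {z : V} {M : ℝ} (hM : 0 ≤ M) (h : SS 1 f z ≤ M ^ 2) (i : Fin 3) :
    |pd i f z| ≤ M := by
  rw [SS_one] at h
  have h1 := Finset.single_le_sum (f := fun i => pd i f z ^ 2) (fun i _ => sq_nonneg _)
    (Finset.mem_univ i)
  exact abs_le_of_sq_le_sq (h1.trans h) hM

lemma fd_norm {f : V → ℝ} {z : V} {M : ℝ} (hM : 0 ≤ M) (h : SS 1 f z ≤ M ^ 2) :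
    ‖fderiv ℝ f z‖ ≤ 3 * M := by
  refine ContinuousLinearMap.opNorm_le_bound _ (by positivity) fun d => ?_
  rw [fd_sum, Real.norm_eq_abs]
  refine (Finset.abs_sum_le_sum_abs _ _).trans ?_
  have h1 : ∀ k, |d k * pd k f z| ≤ ‖d‖ * M := by
    intro k
    rw [abs_mul]
    exact mul_le_mul (norm_le_pi_norm d k) (pd_le hM h k) (abs_nonneg _) (norm_nonneg _)
  refine (Finset.sum_le_sum fun k _ => h1 k).trans (le_of_eq ?_)
  simp
  ring

lemma lipB {f : V → ℝ} (hf : ContDiff ℝ ∞ f) {y : V} {ρ M : ℝ} (hM : 0 ≤ M)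
    (h : ∀ z ∈ closedBall y ρ, SS 1 f z ≤ M ^ 2) {z z' : V} (hz : z ∈ closedBall y ρ)
    (hz' : z' ∈ closedBall y ρ) : |f z' - f z| ≤ 3 * M * ‖z' - z‖ := by
  have h1 := (convex_closedBall y ρ).norm_image_sub_le_of_norm_fderiv_le (𝕜 := ℝ)
    (f := f) (C := 3 * M) (fun x _ => (hf.differentiable (by norm_cast)) x)
    (fun x hx => fd_norm hM (h x hx)) hz hz'
  exact h1

/-- The derivative in the middle of an interval. -/
lemma interp1 {f : V → ℝ} (hf : ContDiff ℝ ∞ f) {y : V} {ρ M ε : ℝ} (hρ : 0 < ρ) (hM : 0 ≤ M)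
    (h0 : ∀ z ∈ closedBall y ρ, |f z| ≤ ε) (h2 : ∀ z ∈ closedBall y ρ, SS 2 f z ≤ M ^ 2)
    (i : Fin 3) : |pd i f y| ≤ 2 * ε / ρ + 3 * M * ρ := by
  obtain ⟨e, he⟩ : ∃ e : V, e = Pi.single i 1 := ⟨_, rfl⟩
  have hen : ‖e‖ = 1 := by rw [he, Pi.norm_single, norm_one]
  have hd : ∀ t : ℝ, HasDerivAt (fun t : ℝ => f (y + t • e)) (pd i f (y + t • e)) t := by
    intro t
    have h1 : HasDerivAt (fun t : ℝ => y + t • e) e t := by
      have := ((hasDerivAt_id t).smul_const e).const_add y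
      simpa using this
    have h3 : HasFDerivAt f (fderiv ℝ f (y + t • e)) (y + t • e) :=
      ((hf.differentiable (by norm_cast)) _).hasFDerivAt
    have h4 := h3.comp_hasDerivAt t h1
    rw [he] at h4
    rw [he]
    exact h4
  have hcl : ∀ t ∈ Icc (0 : ℝ) ρ, y + t • e ∈ closedBall y ρ := by
    intro t ht
    rw [mem_closedBall, dist_eq_norm, add_sub_cancel_left, norm_smul, hen, mul_one,
      Real.norm_eq_abs, abs_of_nonneg ht.1]
    exact ht.2
  obtain ⟨c, hc, hc2⟩ := exists_hasDerivAt_eq_slope (fun t : ℝ => f (y + t • e))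
    (fun t => pd i f (y + t • e)) hρ
    (fun t _ => (hd t).continuousAt.continuousWithinAt) (fun t _ => hd t)
  simp only [zero_smul, add_zero, sub_zero] at hc2
  have hz := hcl c ⟨hc.1.le, hc.2.le⟩
  have hy : y ∈ closedBall y ρ := mem_closedBall_self hρ.le
  have h3 : |pd i f (y + c • e)| ≤ 2 * ε / ρ := by
    rw [hc2, abs_div, abs_of_pos hρ]
    refine div_le_div_of_nonneg_right ?_ hρ.le
    have a1 := h0 _ (hcl ρ ⟨hρ.le, le_rfl⟩)
    have a2 := h0 y hy
    have := abs_sub (f (y + ρ • e)) (f y)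
    linarith
  have h4 := lipB (sm_pd hf i) (y := y) (ρ := ρ) hM
    (fun z hz => (SS_le_succ 1 f z i).trans (h2 z hz)) hz hy
  have h5 : ‖y - (y + c • e)‖ ≤ ρ := by
    have := hz
    rw [mem_closedBall, dist_comm, dist_eq_norm] at this
    exact this
  have h6 : 3 * M * ‖y - (y + c • e)‖ ≤ 3 * M * ρ := by gcongr
  have h7 : |pd i f y| ≤ |pd i f y - pd i f (y + c • e)| + |pd i f (y + c • e)| := by
    have := abs_add_le (pd i f y - pd i f (y + c • e)) (pd i f (y + c • e))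
    rwa [sub_add_cancel] at this
  linarith

/-- Small functions with bounded derivatives have small derivatives. -/
lemma interpN (k : ℕ) : ∀ M ρ ε : ℝ, 0 < M → 0 < ρ → 0 < ε → ∃ ε₁ : ℝ, 0 < ε₁ ∧
    ∀ (f : V → ℝ) (y : V), ContDiff ℝ ∞ f → (∀ z ∈ closedBall y (k * ρ), |f z| ≤ ε₁) →
      (∀ z ∈ closedBall y (k * ρ), ∀ n ≤ k + 1, SS n f z ≤ M ^ 2) → SS k f y ≤ ε ^ 2 := by
  induction k with
  | zero =>
    intro M ρ ε _ _ hε
    refine ⟨ε, hε, fun f y _ h _ => ?_⟩
    rw [SS_zero, ← sq_abs]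
    exact pow_le_pow_left₀ (abs_nonneg _) (h y (by simp)) 2
  | succ k ih =>
    intro M ρ ε hM hρ hε
    obtain ⟨ε₂, hε₂, H⟩ := ih M ρ (ε / 2) hM hρ (by positivity)
    obtain ⟨δ, hδ⟩ : ∃ δ, δ = min ρ (ε₂ / (6 * M)) := ⟨_, rfl⟩
    have hδ0 : 0 < δ := by rw [hδ]; exact lt_min hρ (by positivity)
    have hδρ : δ ≤ ρ := by rw [hδ]; exact min_le_left _ _
    have hδ2 : 3 * M * δ ≤ ε₂ / 2 := by
      have : δ ≤ ε₂ / (6 * M) := by rw [hδ]; exact min_le_right _ _
      rw [le_div_iff₀ (by positivity)] at this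
      linarith
    refine ⟨ε₂ * δ / 4, by positivity, fun f y hf h0 hS => ?_⟩
    have hsub : ∀ z ∈ closedBall y (k * ρ), closedBall z δ ⊆ closedBall y ((k + 1 : ℕ) * ρ) := by
      intro z hz
      apply closedBall_subset_closedBall'
      rw [mem_closedBall] at hz
      push_cast
      linarith
    have h1 : ∀ i, SS k (pd i f) y ≤ (ε / 2) ^ 2 := by
      intro i
      apply H (pd i f) y (sm_pd hf i)
      · intro z hz
        have a1 := interp1 hf (y := z) (M := M) (ε := ε₂ * δ / 4) hδ0 hM.le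
          (fun w hw => h0 w (hsub z hz hw)) (fun w hw => hS w (hsub z hz hw) 2 (by omega)) i
        have e : 2 * (ε₂ * δ / 4) / δ = ε₂ / 2 := by
          field_simp
          ring
        rw [e] at a1
        linarith
      · intro z hz n hn
        refine (SS_le_succ n f z i).trans (hS z ?_ (n + 1) (by omega))
        exact hsub z hz (mem_closedBall_self hδ0.le)
    rw [SS_succ]
    calc ∑ i, SS k (pd i f) y ≤ ∑ _i : Fin 3, (ε / 2) ^ 2 := Finset.sum_le_sum fun i _ => h1 i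
      _ = 3 * (ε / 2) ^ 2 := by simp
      _ ≤ ε ^ 2 := by nlinarith [sq_nonneg ε]

/-- Small in the mean square implies small. -/
lemma l2sup {M ρ ε : ℝ} (hM : 0 < M) (hρ : 0 < ρ) (hε : 0 < ε) : ∃ τ : ℝ, 0 < τ ∧
    ∀ (f : V → ℝ) (y : V), ContDiff ℝ ∞ f → (∀ z ∈ closedBall y ρ, SS 1 f z ≤ M ^ 2) →
      ∫ z in closedBall y ρ, f z ^ 2 ≤ τ → |f y| ≤ ε := by
  obtain ⟨δ, hδ⟩ : ∃ δ, δ = min ρ (ε / (6 * M)) := ⟨_, rfl⟩
  have hδ0 : 0 < δ := by rw [hδ]; exact lt_min hρ (by positivity)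
  have hδρ : δ ≤ ρ := by rw [hδ]; exact min_le_left _ _
  have hδ2 : 3 * M * δ ≤ ε / 2 := by
    have : δ ≤ ε / (6 * M) := by rw [hδ]; exact min_le_right _ _
    rw [le_div_iff₀ (by positivity)] at this
    linarith
  refine ⟨(ε / 2) ^ 2 * (2 * δ) ^ 3 / 2, by positivity, fun f y hf hS hI => ?_⟩
  by_contra hcon
  push Not at hcon
  have h1 : ∀ z ∈ closedBall y δ, (ε / 2) ^ 2 ≤ f z ^ 2 := by
    intro z hz
    have h2 := lipB hf hM.le hS (mem_closedBall_self hρ.le) (closedBall_subset_closedBall hδρ hz)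
    rw [mem_closedBall, dist_eq_norm] at hz
    have h3 : 3 * M * ‖z - y‖ ≤ ε / 2 := by
      have : 3 * M * ‖z - y‖ ≤ 3 * M * δ := by gcongr
      linarith
    have h4 : |f y| ≤ |f z - f y| + |f z| := by
      have := abs_sub (f z) (f z - f y)
      have e : f z - (f z - f y) = f y := by ring
      rw [e] at this
      linarith
    rw [← sq_abs (f z)]
    apply pow_le_pow_left₀ (by positivity)
    linarith
  have hint : IntegrableOn (fun z => f z ^ 2) (closedBall y ρ) :=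
    (hf.continuous.pow 2).continuousOn.integrableOn_compact (isCompact_closedBall _ _)
  have h5 : ∫ z in closedBall y δ, (ε / 2) ^ 2 ≤ ∫ z in closedBall y δ, f z ^ 2 := by
    apply setIntegral_mono_on (integrableOn_const (by
      exact (isCompact_closedBall y δ).measure_lt_top.ne)) (hint.mono_set
        (closedBall_subset_closedBall hδρ)) measurableSet_closedBall
    intro z hz
    exact h1 z hz
  have h6 : ∫ z in closedBall y δ, f z ^ 2 ≤ ∫ z in closedBall y ρ, f z ^ 2 :=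
    setIntegral_mono_set hint (Eventually.of_forall fun z => sq_nonneg _)
      (closedBall_subset_closedBall hδρ).eventuallyLE
  have h7 : ∫ z in closedBall y δ, (ε / 2) ^ 2 = (2 * δ) ^ 3 * (ε / 2) ^ 2 := by
    rw [setIntegral_const, smul_eq_mul]
    congr 1
    unfold Measure.real
    rw [Real.volume_pi_closedBall _ hδ0.le, Fintype.card_fin,
      ENNReal.toReal_ofReal (by positivity)]
  have h8 : 0 < (2 * δ) ^ 3 * (ε / 2) ^ 2 := by positivity
  rw [h7] at h5
  have h9 := h5.trans (h6.trans hI)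
  have e : (ε / 2) ^ 2 * (2 * δ) ^ 3 / 2 = (2 * δ) ^ 3 * (ε / 2) ^ 2 / 2 := by ring
  rw [e] at h9
  linarith

end Pool.Agent.H2CV
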