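import Pool.Agent.H2CV.MorA
import Pool.Agent.H2CV.Asm
import Pool.Agent.Q85.CL.Defs2

/-!
Project CV: the local theorem (with the statements of the parts as hypotheses).
-/

set_option autoImplicit false

open MeasureTheory Set Metric Filter Topology
open scoped ContDiff ENNReal NNReal
open H459R3.NS Pool.Agent.W268.NS Pool.Agent.Q67.VD

namespace Pool.Agent.H2CV

open Pool.Agent.Q85.CC Pool.Agent.Q85.CL Pool.Agent.Q85.VL

/-- No concentration of the curvature at `a`, no singularity. -/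
def StmLoc : Prop := ∀ (T E : ℝ) (O : Set V) (u : ℝ → V → V) (p : ℝ → V → ℝ), 0 < T →
  LSl T E O u p → ∀ a ∈ O,
    (∀ μ : ℝ, 0 < μ → ∃ (T₀ R : ℝ) (m : ℝ → V → ℝ), T₀ < T ∧ 0 < R ∧
      ∀ t ∈ Ioo T₀ T, 0 < t → Measurable (m t) ∧ (∀ y, 0 ≤ m t y) ∧
        choq (closedBall a R) (m t) ≤ ENNReal.ofReal μ ∧
        ∫ y in closedBall a R, max (cv (u t) y - m t y * om (u t) y) 0 ≤ μ) →
    ∃ B δ : ℝ, 0 < δ ∧ ∀ t ∈ Ioo (T - δ) T, 0 < t → ∀ x ∈ closedBall a δ, ‖u t x‖ ≤ B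

set_option maxHeartbeats 1600000 in
/-- If the curvature does not concentrate at `a`, up to functions of small content integral, then
`a` is not singular. -/
theorem locH (hVel : StmVelL) (hEn : StmEnL) (hEnS : StmEnS) (hReg : Pool.Agent.Q95.CL.StmRegK)
    (hL1 : StmL1L) (hGood : StmGoodT) (hVelT : StmVelT) (hMC : StmMorC) (hPinC : StmPinC)
    (hShR : StmShlR) : StmLoc := by
  intro T E O u p hT hu a ha hN
  obtain ⟨ε, C, hε, hC, hMA⟩ := morA hMC
  obtain ⟨T₁, R₁, m₁, hT₁, hR₁, h1⟩ := hN (min ε 1) (lt_min hε one_pos)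
  obtain ⟨R₂, hR₂, hO⟩ := Metric.isOpen_iff.1 hu.openO a ha
  obtain ⟨R, hRd⟩ : ∃ R, R = min R₁ (R₂ / 2) := ⟨_, rfl⟩
  have hR : 0 < R := by rw [hRd]; exact lt_min hR₁ (by positivity)
  have hRR₁ : R ≤ R₁ := by rw [hRd]; exact min_le_left _ _
  have hRR₂ : R ≤ R₂ / 2 := by rw [hRd]; exact min_le_right _ _
  have hOR : closedBall a R ⊆ O := (closedBall_subset_ball (by linarith)).trans hO
  obtain ⟨T₀, hT₀d⟩ : ∃ T₀, T₀ = max T₁ (T / 2) := ⟨_, rfl⟩
  have hT₀T : T₀ < T := by rw [hT₀d]; exact max_lt hT₁ (by linarith)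
  have hT₀1 : T₁ ≤ T₀ := by rw [hT₀d]; exact le_max_left _ _
  have hT₀0 : 0 < T₀ := by
    rw [hT₀d]; exact lt_of_lt_of_le (by linarith) (le_max_right _ _)
  have hIoo : ∀ t ∈ Ioo T₀ T, t ∈ Ioo 0 T := fun t ht => ⟨hT₀0.trans ht.1, ht.2⟩
  obtain ⟨L, hL, hL1⟩ := hL1 T E O u p hT hu a R T₀ hR hOR hT₀0 hT₀T
  -- the Morrey bound
  obtain ⟨K, hKd⟩ : ∃ K, K = C * (L / (R / 2) + 1) := ⟨_, rfl⟩
  have hK : 0 < K := by rw [hKd]; positivity
  obtain ⟨ρ₀, hρd⟩ : ∃ ρ₀, ρ₀ = R / 2 / 16 := ⟨_, rfl⟩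
  have hρ : 0 < ρ₀ := by rw [hρd]; positivity
  have hMor : ∀ t ∈ Ioo T₀ T, MorB K a ρ₀ (om (u t)) := by
    intro t ht
    have hsm := slice_u hu.toLEq (hIoo t ht)
    obtain ⟨hmm, hm0, hch, hex⟩ := h1 t ⟨hT₀1.trans_lt ht.1, ht.2⟩ (hIoo t ht).1
    have hsub : closedBall a (R / 2) ⊆ closedBall a R₁ :=
      closedBall_subset_closedBall (by linarith)
    rw [hKd, hρd]
    refine hMA (u t) (m₁ t) a (R / 2) L hsm hmm hm0 (by positivity)
      (hL1 t ⟨ht.1.le, ht.2⟩) ?_ ?_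
    · refine (setIntegral_mono_set (exm_int hsm hmm hm0 (isCompact_closedBall _ _))
        (Eventually.of_forall fun y => le_max_right _ _) hsub.eventuallyLE).trans
        (hex.trans (min_le_right _ _))
    · exact (choq_mono hsub _).trans (hch.trans (ENNReal.ofReal_le_ofReal (min_le_left _ _)))
  refine asmC hVel hEn hEnS hReg hGood hVelT hPinC hShR hT hu hT₀0.le hT₀T hK
    hρ ((closedBall_subset_closedBall (by rw [hρd]; linarith)).trans hOR) hMor ?_
  intro μ hμ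
  obtain ⟨μ', hμ'd⟩ : ∃ μ', μ' = μ / (4 * K + 4) := ⟨_, rfl⟩
  have hμ' : 0 < μ' := by rw [hμ'd]; positivity
  obtain ⟨T', R', m', hT', hR', h2⟩ := hN μ' hμ'
  obtain ⟨S, hSd⟩ : ∃ S, S = min (R' / 2) (ρ₀ / 8) := ⟨_, rfl⟩
  have hS : 0 < S := by
    rw [hSd]
    exact lt_min (by positivity) (by positivity)
  have hS1 : S ≤ R' / 2 := by rw [hSd]; exact min_le_left _ _
  have hS2 : S ≤ ρ₀ / 8 := by rw [hSd]; exact min_le_right _ _
  refine ⟨S, S, T', hS, hS, hT', fun t ht htT₀ x hx r hr hrS => ?_⟩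
  have htI : t ∈ Ioo T₀ T := ⟨htT₀, ht.2⟩
  have hsm := slice_u hu.toLEq (hIoo t htI)
  have hxa : ‖x - a‖ ≤ S := by rwa [mem_closedBall, dist_eq_norm] at hx
  obtain ⟨hmm, hm0, hch, hex⟩ := h2 t ht (hIoo t htI).1
  have hsub : closedBall x r ⊆ closedBall a R' := by
    refine closedBall_subset_closedBall' ?_
    rw [dist_eq_norm]
    linarith
  have hLr : ∫ y in closedBall x r, om (u t) y ≤ K * r := by
    have := hMor t htI x r hr (by linarith)
    rwa [abs_omL] at this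
  have e1 := cv_choq hsm hmm hm0 (isCompact_closedBall x r) (K := K) (s₀ := 2 * r) hK.le
    (by positivity) (fun z hz s hs hs1 => by
      have h3 : ‖z - a‖ ≤ 2 * S := by
        rw [mem_closedBall, dist_eq_norm] at hz
        have e : z - a = (z - x) + (x - a) := by abel
        rw [e]
        exact (norm_add_le _ _).trans (by linarith)
      have := hMor t htI z s hs (by linarith)
      rwa [abs_omL] at this) hLr hμ'.le
    ((choq_mono hsub _).trans hch)
  have e2 : ∫ y in closedBall x r, max (cv (u t) y - m' t y * om (u t) y) 0 ≤ μ' :=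
    (setIntegral_mono_set (exm_int hsm hmm hm0 (isCompact_closedBall _ _))
      (Eventually.of_forall fun y => le_max_right _ _) hsub.eventuallyLE).trans hex
  have e3 : 2 * (K * r) / (2 * r) = K := by field_simp
  rw [e3] at e1
  have e4 : (3 * K + 2) * μ' ≤ μ := by
    rw [hμ'd, mul_div_assoc', div_le_iff₀ (by positivity)]
    nlinarith
  nlinarith

end Pool.Agent.H2CV
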