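import Pool.Agent.H2CV.LocH
import Pool.Agent.H1TV.Lk

/-!
Project CV: the local theorem with a threshold for the vorticity (with the statements of the parts
as hypotheses).
-/

set_option autoImplicit false

open MeasureTheory Set Metric Filter Topology
open scoped ContDiff ENNReal NNReal
open H459R3.NS Pool.Agent.W268.NS Pool.Agent.Q67.VD

namespace Pool.Agent.H2CV

open Pool.Agent.Q85.CC Pool.Agent.Q85.CL Pool.Agent.Q85.VL
open Pool.Agent.H1TV (Lk StmLk lkd lkd_nonneg lkd_cont)

/-- No concentration of the curvature, where the vorticity is large, at `a`, no singularity. -/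
def StmLocT : Prop := ∀ (T E : ℝ) (O : Set V) (u : ℝ → V → V) (p : ℝ → V → ℝ), 0 < T →
  LSl T E O u p → ∀ a ∈ O,
    (∀ μ : ℝ, 0 < μ → ∃ (M T₀ R : ℝ) (m : ℝ → V → ℝ), T₀ < T ∧ 0 < R ∧
      ∀ t ∈ Ioo T₀ T, 0 < t → Measurable (m t) ∧ (∀ y, 0 ≤ m t y) ∧
        choq (closedBall a R) (m t) ≤ ENNReal.ofReal μ ∧
        ∫ y in closedBall a R ∩ {y | M < om (u t) y},
          max (cv (u t) y - m t y * om (u t) y) 0 ≤ μ) →
    ∃ B δ : ℝ, 0 < δ ∧ ∀ t ∈ Ioo (T - δ) T, 0 < t → ∀ x ∈ closedBall a δ, ‖u t x‖ ≤ B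

lemma fd_le {v : V → V} (hv : SM v) (y : V) :
    ‖fderiv ℝ (vort v) y‖ ≤ ∑ i, ∑ j, |pd j (fun z => vort v z i) y| := by
  have hd : ∀ i, DifferentiableAt ℝ (fun z => vort v z i) y := fun i =>
    ((sm_vc hv i).differentiable (by norm_cast)).differentiableAt
  refine ContinuousLinearMap.opNorm_le_bound _ (Finset.sum_nonneg fun i _ =>
    Finset.sum_nonneg fun j _ => abs_nonneg _) fun h => ?_
  rw [pi_norm_le_iff_of_nonneg (mul_nonneg (Finset.sum_nonneg fun i _ =>
    Finset.sum_nonneg fun j _ => abs_nonneg _) (norm_nonneg _))]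
  intro i
  have e1 : fderiv ℝ (vort v) y h i = ∑ j, h j * pd j (fun z => vort v z i) y := by
    have e2 : fderiv ℝ (vort v) y h i = fderiv ℝ (fun z => vort v z i) y h := by
      rw [fderiv_pi hd]
      rfl
    rw [e2]
    conv_lhs => rw [← Finset.univ_sum_single h]
    rw [map_sum]
    refine Finset.sum_congr rfl fun j _ => ?_
    have e3 : (Pi.single j (h j) : V) = h j • (Pi.single j 1 : V) := by
      rw [← Pi.single_smul, smul_eq_mul, mul_one]
    rw [e3, map_smul, smul_eq_mul]
    rfl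
  rw [e1, Real.norm_eq_abs]
  calc |∑ j, h j * pd j (fun z => vort v z i) y|
      ≤ ∑ j, |h j * pd j (fun z => vort v z i) y| := Finset.abs_sum_le_sum_abs _ _
    _ ≤ ∑ j, ‖h‖ * |pd j (fun z => vort v z i) y| := by
        refine Finset.sum_le_sum fun j _ => ?_
        rw [abs_mul]
        exact mul_le_mul_of_nonneg_right (norm_le_pi_norm h j) (abs_nonneg _)
    _ = ‖h‖ * ∑ j, |pd j (fun z => vort v z i) y| := by rw [Finset.mul_sum]
    _ ≤ ‖h‖ * ∑ i, ∑ j, |pd j (fun z => vort v z i) y| := by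
        refine mul_le_mul_of_nonneg_left ?_ (norm_nonneg _)
        exact Finset.single_le_sum (f := fun i => ∑ j, |pd j (fun z => vort v z i) y|)
          (fun i _ => Finset.sum_nonneg fun j _ => abs_nonneg _) (Finset.mem_univ i)
    _ = _ := mul_comm _ _

/-- Where the vorticity is small the gradient is controlled by the leak. -/
lemma grad_lkd {v : V → V} {m k : ℝ} (hm : 0 < m) {y : V} (h : om v y ≤ k * m) :
    ∑ i, ∑ j, |pd j (fun z => vort v z i) y|
      ≤ (1 + k ^ 2) * ∑ i, ∑ j, lkd (vc v i) m j y := by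
  rw [Finset.mul_sum]
  refine Finset.sum_le_sum fun i _ => ?_
  rw [Finset.mul_sum]
  refine Finset.sum_le_sum fun j _ => ?_
  unfold lkd
  rw [mul_div_assoc', le_div_iff₀ (by positivity), mul_comm]
  refine mul_le_mul_of_nonneg_right ?_ (abs_nonneg _)
  have h1 : (vc v i y / m) ^ 2 ≤ k ^ 2 := by
    rw [div_pow, div_le_iff₀ (by positivity), ← mul_pow]
    have h2 : vc v i y ^ 2 ≤ om v y ^ 2 := by
      rw [om_sq]
      exact Finset.single_le_sum (f := fun i => vc v i y ^ 2) (fun i _ => sq_nonneg _)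
        (Finset.mem_univ i)
    have h3 : om v y ^ 2 ≤ (k * m) ^ 2 := pow_le_pow_left₀ (len_nn _) h 2
    linarith
  linarith

lemma lk_eq {v : V → V} (hv : SM v) (m : ℝ) (x : V) (r : ℝ) :
    Lk v m x r = ∫ y in closedBall x r, ∑ i, ∑ j, lkd (vc v i) m j y := by
  have hi : ∀ i j, IntegrableOn (lkd (vc v i) m j) (closedBall x r) := fun i j =>
    (lkd_cont (sm_vc hv i) m j).continuousOn.integrableOn_compact (isCompact_closedBall _ _)
  rw [integral_finsetSum _ fun i _ => integrable_finsetSum _ fun j _ => hi i j]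
  unfold Lk
  refine Finset.sum_congr rfl fun i _ => ?_
  rw [integral_finsetSum _ fun j _ => hi i j]
  rfl

lemma lks_int {v : V → V} (hv : SM v) (m : ℝ) (x : V) (r : ℝ) :
    IntegrableOn (fun y => ∑ i, ∑ j, lkd (vc v i) m j y) (closedBall x r) := by
  refine integrable_finsetSum _ fun i _ => integrable_finsetSum _ fun j _ => ?_
  exact (lkd_cont (sm_vc hv i) m j).continuousOn.integrableOn_compact (isCompact_closedBall _ _)

lemma lks_nn (v : V → V) (m : ℝ) (y : V) : 0 ≤ ∑ i, ∑ j, lkd (vc v i) m j y :=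
  Finset.sum_nonneg fun _ _ => Finset.sum_nonneg fun _ _ => lkd_nonneg _ _ _ _

/-- The curvature where the vorticity is small. -/
lemma weak_cv {v : V → V} (hv : SM v) {m : ℝ} (hm : 0 < m) (x : V) (r : ℝ) :
    ∫ y in closedBall x r ∩ {y | om v y ≤ m}, cv v y ≤ 4 * Lk v m x r := by
  have hmeas : MeasurableSet {y | om v y ≤ m} :=
    (isClosed_le (om_cont' hv) continuous_const).measurableSet
  rw [lk_eq hv, ← integral_const_mul]
  calc ∫ y in closedBall x r ∩ {y | om v y ≤ m}, cv v y
      ≤ ∫ y in closedBall x r ∩ {y | om v y ≤ m}, 4 * ∑ i, ∑ j, lkd (vc v i) m j y := by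
        refine setIntegral_mono_on ((cv_int hv (isCompact_closedBall x r)).mono_set inter_subset_left)
          (((lks_int hv m x r).mono_set inter_subset_left).const_mul 4)
          (isClosed_closedBall.measurableSet.inter hmeas) fun y hy => ?_
        have h1 := grad_lkd (k := 1) hm (y := y) (v := v) (by
          rw [one_mul]
          exact hy.2)
        have h2 := fd_le hv y
        have h3 := cv_le v y
        norm_num at h1
        linarith
    _ ≤ ∫ y in closedBall x r, 4 * ∑ i, ∑ j, lkd (vc v i) m j y := by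
        refine setIntegral_mono_set ((lks_int hv m x r).const_mul 4)
          (Eventually.of_forall fun y => mul_nonneg (by norm_num) (lks_nn v m y))
          inter_subset_left.eventuallyLE

/-- The local theorem with a threshold. -/
theorem locT (hLoc : StmLoc) (hLk : StmLk) : StmLocT := by
  intro T E O u p hT hu a ha hN
  refine hLoc T E O u p hT hu a ha fun μ hμ => ?_
  obtain ⟨m', T₀, R, A, hT₀, hR, h1⟩ := hN (μ / 2) (by positivity)
  obtain ⟨m, hmd⟩ : ∃ m, m = max m' 1 := ⟨_, rfl⟩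
  have hm : 0 < m := by rw [hmd]; exact lt_max_of_lt_right one_pos
  have hmm : m' ≤ m := by rw [hmd]; exact le_max_left _ _
  obtain ⟨ρ₀, hρ₀, hO⟩ := Metric.isOpen_iff.1 hu.openO a ha
  obtain ⟨C, r₀, hC, hr₀, hlk⟩ := hLk T E O u p hT hu (T / 2) (ρ₀ / 2) a (by positivity)
    (by linarith) (by positivity) ((closedBall_subset_ball (by linarith)).trans hO)
  -- the radius
  obtain ⟨s, hsd⟩ : ∃ s, s = min (min 1 (min R r₀)) (μ / (8 * (C * (1 + m) + 1))) := ⟨_, rfl⟩
  have hCm : 0 ≤ C * (1 + m) := mul_nonneg hC (by linarith)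
  have hs : 0 < s := by
    rw [hsd]
    exact lt_min (lt_min one_pos (lt_min hR hr₀)) (by positivity)
  have hs1 : s ≤ 1 := by rw [hsd]; exact (min_le_left _ _).trans (min_le_left _ _)
  have hsR : s ≤ R := by
    rw [hsd]; exact (min_le_left _ _).trans ((min_le_right _ _).trans (min_le_left _ _))
  have hsr : s ≤ r₀ := by
    rw [hsd]; exact (min_le_left _ _).trans ((min_le_right _ _).trans (min_le_right _ _))
  have hsμ : s ≤ μ / (8 * (C * (1 + m) + 1)) := by rw [hsd]; exact min_le_right _ _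
  have hs4 : s ^ 4 ≤ s := pow_le_of_le_one hs.le hs1 (by norm_num)
  have hsq : √(√(s ^ 4)) = s := by
    have e1 : √(s ^ 4) = s ^ 2 := by
      rw [show s ^ 4 = (s ^ 2) ^ 2 by ring]
      exact Real.sqrt_sq (sq_nonneg s)
    rw [e1]
    exact Real.sqrt_sq hs.le
  refine ⟨max T₀ (T / 2), s ^ 4, A, max_lt hT₀ (by linarith), by positivity,
    fun t ht ht0 => ?_⟩
  have ht1 : t ∈ Ioo T₀ T := ⟨(le_max_left _ _).trans_lt ht.1, ht.2⟩
  have ht2 : t ∈ Ioo (T / 2) T := ⟨(le_max_right _ _).trans_lt ht.1, ht.2⟩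
  have hsm := slice_u hu.toLEq ⟨ht0, ht.2⟩
  obtain ⟨hAm, hA0, hAc, h8⟩ := h1 t ht1 ht0
  have hsub : closedBall a (s ^ 4) ⊆ closedBall a R := closedBall_subset_closedBall (hs4.trans hsR)
  refine ⟨hAm, hA0, (choq_mono hsub _).trans
    (hAc.trans (ENNReal.ofReal_le_ofReal (by linarith))), ?_⟩
  have h2 := hlk t ht2 a (mem_closedBall_self (by positivity)) (s ^ 4) m (by positivity)
    (hs4.trans hsr) hm
  rw [hsq] at h2
  have h3 := weak_cv hsm hm a (s ^ 4)
  have h4 : 4 * (C * (1 + m) * s) ≤ μ / 2 := by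
    rw [le_div_iff₀ (by positivity)] at hsμ
    nlinarith
  have hmeas : MeasurableSet {y | om (u t) y ≤ m} :=
    (isClosed_le (om_cont' hsm) continuous_const).measurableSet
  have hex := exm_int hsm hAm hA0 (isCompact_closedBall a (s ^ 4))
  have hexR := exm_int hsm hAm hA0 (isCompact_closedBall a R)
  rw [← integral_inter_add_sdiff hmeas hex]
  have h5 : ∫ y in closedBall a (s ^ 4) ∩ {y | om (u t) y ≤ m},
      max (cv (u t) y - A t y * om (u t) y) 0 ≤ ∫ y in closedBall a (s ^ 4) ∩ {y | om (u t) y ≤ m},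
        cv (u t) y := by
    refine setIntegral_mono_on (hex.mono_set inter_subset_left)
      ((cv_int hsm (isCompact_closedBall _ _)).mono_set inter_subset_left)
      (isClosed_closedBall.measurableSet.inter hmeas) fun y _ => ?_
    refine max_le ?_ (cv_nonneg _ _)
    have := mul_nonneg (hA0 y) (len_nn (vort (u t) y))
    unfold om
    linarith
  have h6 : ∫ y in closedBall a (s ^ 4) \ {y | om (u t) y ≤ m},
      max (cv (u t) y - A t y * om (u t) y) 0 ≤ ∫ y in closedBall a R ∩ {y | m' < om (u t) y},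
        max (cv (u t) y - A t y * om (u t) y) 0 := by
    refine setIntegral_mono_set (hexR.mono_set inter_subset_left)
      (Eventually.of_forall fun y => le_max_right _ _) (LE.le.eventuallyLE ?_)
    intro y hy
    refine ⟨hsub hy.1, ?_⟩
    have h7 : ¬ om (u t) y ≤ m := hy.2
    show m' < om (u t) y
    linarith
  linarith

end Pool.Agent.H2CV
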