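import Pool.Agent.H2CV.Cont
import Pool.Agent.H2CV.Defs

/-!
Project CV: the curvature is large compared with functions of small content integral.
-/

set_option autoImplicit false

open MeasureTheory Set Metric Filter Topology
open scoped ContDiff ENNReal NNReal
open H459R3.NS Pool.Agent.W268.NS Pool.Agent.Q67.VD

namespace Pool.Agent.H2CV

open Pool.Agent.Q85.CC Pool.Agent.Q85.CL Pool.Agent.Q85.VL

/-- The Morrey bound when the curvature is small up to a function with small content integral. -/
theorem morA (hMC : StmMorC) : ∃ ε C : ℝ, 0 < ε ∧ 0 < C ∧ ∀ (v : V → V) (m : V → ℝ) (a : V) (R L : ℝ), SM v →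
    Measurable m → (∀ y, 0 ≤ m y) → 0 < R → ∫ y in closedBall a R, om v y ≤ L →
    ∫ y in closedBall a R, max (cv v y - m y * om v y) 0 ≤ 1 →
    choq (closedBall a R) m ≤ ENNReal.ofReal ε → MorB (C * (L / R + 1)) a (R / 16) (om v) := by
  obtain ⟨C, hC, hMC⟩ := hMC
  have hC0 : 0 < C := by linarith
  refine ⟨1 / (64 * C), 400 * C, by positivity, by positivity, ?_⟩
  intro v m a R L hv hm hm0 hR hL hex hch
  obtain ⟨ε, hεd⟩ : ∃ ε, ε = 1 / (64 * C) := ⟨_, rfl⟩
  rw [← hεd] at hch
  have hε : 0 < ε := by rw [hεd]; positivity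
  have hCε : C * ε = 1 / 64 := by rw [hεd]; field_simp
  have hL0 : 0 ≤ L := (integral_nonneg fun y => om_nnL _ _).trans hL
  have hoc := om_cont' hv
  have hoi : ∀ (x : V) (r : ℝ), IntegrableOn (om v) (closedBall x r) := fun x r =>
    hoc.continuousOn.integrableOn_compact (isCompact_closedBall _ _)
  -- the set of the ratios
  obtain ⟨Sr, hSd⟩ : ∃ Sr : Set ℝ, Sr = {q | ∃ (x : V) (r : ℝ), ‖x - a‖ < R ∧ 0 < r ∧
    r ≤ (R - ‖x - a‖) / 8 ∧ q = (R - ‖x - a‖) * ((∫ y in closedBall x r, om v y) / r)} :=
    ⟨_, rfl⟩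
  obtain ⟨B, hB⟩ := (isCompact_closedBall a (2 * R)).exists_bound_of_continuousOn hoc.continuousOn
  have hB0 : 0 ≤ B := (norm_nonneg _).trans (hB a (mem_closedBall_self (by positivity)))
  have hbdd : BddAbove Sr := by
    refine ⟨R * (B * (8 * R ^ 2)), ?_⟩
    rw [hSd]
    rintro q ⟨x, r, hx, hr, hr1, rfl⟩
    have hn := norm_nonneg (x - a)
    have hrR : r ≤ R := by linarith
    have h1 : ∫ y in closedBall x r, om v y ≤ B * (volume.real (closedBall x r)) := by
      have := norm_setIntegral_le_of_norm_le_const (μ := volume) (s := closedBall x r)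
        (f := om v) (C := B) (isCompact_closedBall x r).measure_lt_top
        (fun y hy => hB y (by
          rw [mem_closedBall] at hy ⊢
          have := dist_triangle y x a
          rw [dist_eq_norm x a] at this
          linarith))
      exact (Real.le_norm_self _).trans this
    have h2 : volume.real (closedBall x r) = (2 * r) ^ 3 := by
      have e := Real.volume_pi_closedBall x hr.le
      rw [measureReal_def, e, ENNReal.toReal_ofReal (by positivity)]
      simp
    rw [h2] at h1
    have h3 : (∫ y in closedBall x r, om v y) / r ≤ B * (8 * R ^ 2) := by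
      rw [div_le_iff₀ hr]
      refine h1.trans ?_
      have : r ^ 2 ≤ R ^ 2 := pow_le_pow_left₀ hr.le hrR 2
      have e : B * (2 * r) ^ 3 = B * (8 * r ^ 2) * r := by ring
      rw [e]
      gcongr
    have h4 : 0 ≤ (∫ y in closedBall x r, om v y) / r :=
      div_nonneg (integral_nonneg fun y => om_nnL _ _) hr.le
    exact mul_le_mul (by linarith) h3 h4 hR.le
  have hne : Sr.Nonempty := by
    rw [hSd]
    exact ⟨_, a, R / 8, by simpa using hR, by positivity, by simp, rfl⟩
  obtain ⟨N, hNd⟩ : ∃ N, N = sSup Sr := ⟨_, rfl⟩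
  have hNle : ∀ (x : V) (r : ℝ), ‖x - a‖ < R → 0 < r → r ≤ (R - ‖x - a‖) / 8 →
      (R - ‖x - a‖) * ((∫ y in closedBall x r, om v y) / r) ≤ N := by
    intro x r h1 h2 h3
    rw [hNd]
    refine le_csSup hbdd ?_
    rw [hSd]
    exact ⟨x, r, h1, h2, h3, rfl⟩
  have hN0 : 0 ≤ N := by
    refine le_trans ?_ (hNle a (R / 8) (by simpa using hR) (by positivity) (by simp))
    refine mul_nonneg (by simpa using hR.le) (div_nonneg (integral_nonneg fun y => om_nnL _ _)
      (by positivity))
  -- the bound
  have hN : N ≤ C * (4 * L + R) + C * (6 * N + 64 * L + R) * ε := by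
    rw [hNd]
    refine csSup_le hne ?_
    rw [← hNd]
    intro q hq
    rw [hSd] at hq
    obtain ⟨x, r, hx, hr, hr1, rfl⟩ := hq
    obtain ⟨δ, hδd⟩ : ∃ δ, δ = R - ‖x - a‖ := ⟨_, rfl⟩
    rw [← hδd] at hr1 ⊢
    have hδ : 0 < δ := by rw [hδd]; linarith
    have hδR : δ ≤ R := by rw [hδd]; linarith [norm_nonneg (x - a)]
    obtain ⟨D, hDd⟩ : ∃ D, D = closedBall x (δ / 4) := ⟨_, rfl⟩
    have hDc : IsCompact D := by rw [hDd]; exact isCompact_closedBall _ _
    have hDs : D ⊆ closedBall a R := by
      rw [hDd]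
      refine closedBall_subset_closedBall' ?_
      rw [dist_eq_norm]
      linarith
    have hDn : ∀ z ∈ D, ‖z - a‖ ≤ R - 3 * δ / 4 := by
      intro z hz
      rw [hDd, mem_closedBall, dist_eq_norm] at hz
      have : ‖z - a‖ ≤ ‖z - x‖ + ‖x - a‖ := by
        have e : z - a = (z - x) + (x - a) := by abel
        rw [e]
        exact norm_add_le _ _
      linarith
    have hLD : ∫ y in D, om v y ≤ L :=
      (setIntegral_mono_set (hoi a R) (Eventually.of_forall fun y => om_nnL _ _)
        hDs.eventuallyLE).trans hL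
    have h1 := cv_choq hv hm hm0 hDc (K := 4 * N / (3 * δ)) (s₀ := 3 * δ / 32) (by positivity)
      (by positivity) (fun z hz s hs hs1 => by
        have hz' := hDn z hz
        have h2 := hNle z s (by linarith) hs (by linarith)
        have h3 : 3 * δ / 4 * ((∫ y in closedBall z s, om v y) / s)
            ≤ (R - ‖z - a‖) * ((∫ y in closedBall z s, om v y) / s) :=
          mul_le_mul_of_nonneg_right (by linarith)
            (div_nonneg (integral_nonneg fun y => om_nnL _ _) hs.le)
        have h4 := h3.trans h2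
        have e : 3 * δ / 4 * ((∫ y in closedBall z s, om v y) / s)
            = (∫ y in closedBall z s, om v y) * (3 * δ) / (4 * s) := by ring
        rw [e, div_le_iff₀ (by positivity)] at h4
        rw [div_mul_eq_mul_div, le_div_iff₀ (by positivity)]
        linarith) hLD hε.le
      ((choq_mono hDs m).trans hch)
    have h2 : ∫ y in D, max (cv v y - m y * om v y) 0 ≤ 1 :=
      (setIntegral_mono_set (exm_int hv hm hm0 (isCompact_closedBall a R))
        (Eventually.of_forall fun y => le_max_right _ _) hDs.eventuallyLE).trans hex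
    have h3 := hMC v x r (δ / 4) hv hr (by linarith)
    rw [← hDd] at h3
    have h4 : (∫ y in D, om v y) / (δ / 4) ≤ L / (δ / 4) :=
      div_le_div_of_nonneg_right hLD (by positivity)
    have h5 : (∫ y in closedBall x r, om v y) / r ≤ C * (L / (δ / 4) + (1 +
        (2 * (4 * N / (3 * δ)) + 2 * L / (3 * δ / 32) + 1) * ε)) := by
      rw [div_le_iff₀ hr]
      refine h3.trans (mul_le_mul_of_nonneg_right ?_ hr.le)
      exact mul_le_mul_of_nonneg_left (add_le_add h4 (by linarith)) hC0.le
    refine (mul_le_mul_of_nonneg_left h5 hδ.le).trans ?_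
    have e : δ * (C * (L / (δ / 4) + (1 + (2 * (4 * N / (3 * δ)) + 2 * L / (3 * δ / 32) + 1) * ε)))
        = C * (4 * L + δ) + C * (8 / 3 * N + 64 / 3 * L + δ) * ε := by
      field_simp
      ring
    rw [e]
    gcongr
    · linarith
    · linarith
  have hN2 : N ≤ 16 * C * (L + R) := by
    have e : C * (6 * N + 64 * L + R) * ε = (6 * N + 64 * L + R) / 64 := by
      have : C * (6 * N + 64 * L + R) * ε = (C * ε) * (6 * N + 64 * L + R) := by ring
      rw [this, hCε]
      ring
    rw [e] at hN
    have h1 : L ≤ C * L := le_mul_of_one_le_left hL0 hC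
    have h2 : R ≤ C * R := le_mul_of_one_le_left hR.le hC
    nlinarith
  intro x r hr hxr
  have hx0 := norm_nonneg (x - a)
  rw [abs_omL]
  have h1 := hNle x r (by linarith) hr (by linarith)
  have h2 : R / 2 * ((∫ y in closedBall x r, om v y) / r)
      ≤ (R - ‖x - a‖) * ((∫ y in closedBall x r, om v y) / r) :=
    mul_le_mul_of_nonneg_right (by linarith)
      (div_nonneg (integral_nonneg fun y => om_nnL _ _) hr.le)
  have h3 := (h2.trans h1).trans hN2
  have e : R / 2 * ((∫ y in closedBall x r, om v y) / r)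
      = (∫ y in closedBall x r, om v y) * R / (2 * r) := by ring
  rw [e, div_le_iff₀ (by positivity)] at h3
  have e2 : 400 * C * (L / R + 1) * r = 400 * C * (L + R) * r / R := by
    field_simp
  rw [e2, le_div_iff₀ hR]
  have h4 : 0 ≤ C * (L + R) * r := by positivity
  nlinarith


end Pool.Agent.H2CV
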