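import Pool.Agent.H2CV.Flu
import Pool.Agent.H2CV.Defs
import Pool.Agent.H1CV.Mon2

/-!
Project CV: the argument on the shell.
-/

set_option autoImplicit false

open MeasureTheory Set Metric Filter Topology
open scoped ContDiff

namespace Pool.Agent.H2CV

open H459R3.NS Pool.Agent.W268.NS Pool.Agent.Q67.VD Pool.Agent.TH305.DR
open Pool.Agent.Q85.CL (LEq SM)
open Pool.Agent.Q85.VL (Shell)

variable {M h : ℝ}

/-- The estimate on the shell gives smallness everywhere. -/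
theorem shl1 (hM : 0 ≤ M) (hh : 0 < h) (hh1 : h ≤ 1 / 256) {ε : ℝ} (hε : 0 < ε) : ∃ ε₁ : ℝ,
    0 < ε₁ ∧ ∀ d : Dt M h,
      (∀ n ≤ 3, ∀ y ∈ d.Om (h / 2), ∀ i j, SS n (bv (vc (d.u d.t)) i j) y ≤ ε₁ ^ 2) →
      (∀ σ ∈ Ioc (d.t - h ^ 2) d.t, ∀ y ∈ d.Om (h / 2), ∀ i j, |FF (vc (d.u σ)) i j y| ≤ ε₁) →
      ∀ y ∈ d.Om (h / 2), ∀ i, |vc (d.u d.t) i y| ≤ ε := by
  obtain ⟨C, hC, H⟩ := grad hM hh hh1
  obtain ⟨E, hE⟩ : ∃ E, E = Real.exp (3 * (3 * C)) := ⟨_, rfl⟩
  have hE1 : 1 ≤ E := by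
    rw [hE]
    exact Real.one_le_exp (by positivity)
  have hE0 : 0 < E := by linarith
  obtain ⟨κ, hκ⟩ : ∃ κ, κ = ε / 32000 := ⟨_, rfl⟩
  have hκ0 : 0 < κ := by rw [hκ]; positivity
  obtain ⟨w, hw⟩ : ∃ w, w = κ ^ 3 / (16 * E ^ 9) := ⟨_, rfl⟩
  have hw0 : 0 < w := by rw [hw]; positivity
  obtain ⟨ε₂, hε₂, H⟩ := H w hw0
  obtain ⟨ε₁, hε₁⟩ : ∃ ε₁, ε₁ = min ε₂ (min (κ / 3) (min (1 / 384) (w / 384))) := ⟨_, rfl⟩
  have h10 : 0 < ε₁ := by
    rw [hε₁]
    exact lt_min hε₂ (lt_min (by positivity) (lt_min (by norm_num) (by positivity)))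
  have h11 : ε₁ ≤ ε₂ := by rw [hε₁]; exact min_le_left _ _
  have h12 : 3 * ε₁ ≤ κ := by
    have : ε₁ ≤ κ / 3 := by rw [hε₁]; exact (min_le_right _ _).trans (min_le_left _ _)
    linarith
  have h13 : 384 * ε₁ ≤ 1 := by
    have : ε₁ ≤ 1 / 384 := by
      rw [hε₁]
      exact (min_le_right _ _).trans ((min_le_right _ _).trans (min_le_left _ _))
    linarith
  have h14 : 384 * ε₁ ≤ w := by
    have : ε₁ ≤ w / 384 := by
      rw [hε₁]
      exact (min_le_right _ _).trans ((min_le_right _ _).trans (min_le_right _ _))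
    linarith
  refine ⟨ε₁, h10, fun d hb hF y hy i => ?_⟩
  have hW : ∀ k, ContDiff ℝ ∞ (vc (d.u d.t) k) := fun k => d.smw (d.memt hh) k
  have hdv : ∀ y, ∑ i, pd i (vc (d.u d.t) i) y = 0 := fun y =>
    div_vc (fun i => d.smu (d.memt hh) i) y
  have hg := H d (fun n hn y hy i j => (hb n hn y hy i j).trans
    (pow_le_pow_left₀ h10.le h11 2)) (fun σ hσ y hy i j => (hF σ hσ y hy i j).trans h11)
  have hG := sm_GG hW
  have hs0 : 0 < d.s := by linarith [d.s1]
  obtain ⟨G, hGd⟩ : ∃ G, G = GG (vc (d.u d.t)) := ⟨_, rfl⟩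
  rw [← hGd] at hG hg
  -- the perpendicular part
  have ha : ∀ y ∈ d.Om (h / 2), ∀ j, |aa (vc (d.u d.t)) j y| ≤ 3 * ε₁ := by
    intro y hy j
    have hy1 : ‖y‖ ≤ 1 := d.norm_le (by linarith) hy
    unfold aa
    refine (Finset.abs_sum_le_sum_abs _ _).trans ?_
    have h1 : ∀ i, |y i * bv (vc (d.u d.t)) i j y| ≤ ε₁ := by
      intro i
      have c1 : |y i| ≤ 1 := (norm_le_pi_norm y i).trans hy1
      have c2 := hb 0 (by norm_num) y hy i j
      rw [SS_zero] at c2
      have c3 := abs_le_of_sq_le_sq c2 h10.le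
      rw [abs_mul]
      calc |y i| * |bv (vc (d.u d.t)) i j y| ≤ 1 * ε₁ := mul_le_mul c1 c3 (abs_nonneg _) zero_le_one
        _ = ε₁ := one_mul _
    refine (Finset.sum_le_sum fun i _ => h1 i).trans (le_of_eq ?_)
    simp
  have hsph : ∀ y : V, ‖y‖ = d.s → y ∈ d.Om (h / 2) := by
    intro y hy
    show |‖y‖ - d.s| < h / 2
    rw [hy, sub_self, abs_zero]
    positivity
  -- the function `G` is not large on the whole surface
  have key : ∀ sg : ℝ, |sg| = 1 → ∃ y : V, ‖y‖ = d.s ∧ sg * G y ≤ 384 * ε₁ := by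
    intro sg hsg
    by_contra hcon
    push Not at hcon
    have hsg2 : sg * sg = 1 := by
      have := sq_abs sg
      rw [hsg] at this
      nlinarith
    have hlow : ∀ (y : V) (i : Fin 3) (q : ℝ), ‖y‖ = d.s → |q| = 1 → y i = q * d.s →
        ε₁ / 3 ≤ q * (sg * vc (d.u d.t) i y) := by
      intro y i q hy hq hyi
      have hyO := hsph y hy
      have hR1 := R2_le (d.norm_le (by linarith : h / 2 ≤ 1 / 2) hyO)
      have hR2 := d.R2_ge hh1 hyO
      have e1 := Z_eq (vc (d.u d.t)) i y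
      rw [← hGd] at e1
      have e2 : ZZ (vc (d.u d.t)) i y = R2 y * vc (d.u d.t) i y := rfl
      rw [e2, hyi] at e1
      have hqq : q * q = 1 := by
        have := sq_abs q
        rw [hq] at this
        nlinarith
      have e3 : R2 y * (q * (sg * vc (d.u d.t) i y)) = sg * G y * d.s
          + q * sg * aa (vc (d.u d.t)) i y := by
        linear_combination (q * sg) * e1 + (sg * G y * d.s) * hqq
      have e4 : |q * sg * aa (vc (d.u d.t)) i y| ≤ 3 * ε₁ := by
        rw [abs_mul, abs_mul, hq, hsg, one_mul, one_mul]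
        exact ha y hyO i
      have e5 := (abs_le.1 e4).1
      have e6 := hcon y hy
      have e7 : 6 * ε₁ ≤ sg * G y * d.s := by
        have : 384 * ε₁ * (1 / 64) ≤ sg * G y * d.s :=
          mul_le_mul e6.le d.s1 (by norm_num) (by linarith)
        linarith
      have e8 : ε₁ ≤ R2 y * (q * (sg * vc (d.u d.t) i y)) := by rw [e3]; linarith
      by_contra hc
      push Not at hc
      have e9 : 0 < q * (sg * vc (d.u d.t) i y) := by
        by_contra h0
        push Not at h0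
        have := mul_nonpos_of_nonneg_of_nonpos (R2_nonneg y) h0
        linarith
      have e10 : R2 y * (q * (sg * vc (d.u d.t) i y)) ≤ 3 * (q * (sg * vc (d.u d.t) i y)) :=
        mul_le_mul_of_nonneg_right hR1 e9.le
      linarith
    refine no_out (W := fun i y => sg * vc (d.u d.t) i y) (s := d.s) (c := ε₁ / 3)
      (fun i => contDiff_const.mul (hW i)) ?_ hs0 (by positivity) ?_ ?_
    · intro y
      have : ∀ i, pd i (fun y => sg * vc (d.u d.t) i y) y = sg * pd i (vc (d.u d.t) i) y := by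
        intro i
        rw [pdm contDiff_const (hW i), pd_const']
        simp
      simp only [this]
      rw [← Finset.mul_sum, hdv, mul_zero]
    · intro y i hy hyi
      have := hlow y i 1 hy (by simp) (by rw [one_mul]; exact hyi)
      rwa [one_mul] at this
    · intro y i hy hyi
      have := hlow y i (-1) hy (by simp) (by rw [hyi]; ring)
      linarith
  -- a point with small `G`
  obtain ⟨y1, hy1, hG1⟩ := key 1 (by simp)
  obtain ⟨y2, hy2, hG2⟩ := key (-1) (by simp)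
  rw [one_mul] at hG1
  have hy0 : ∃ y0 : V, ‖y0‖ = d.s ∧ |G y0| ≤ 384 * ε₁ := by
    by_cases h1 : -(384 * ε₁) ≤ G y1
    · exact ⟨y1, hy1, abs_le.2 ⟨h1, hG1⟩⟩
    · push Not at h1
      obtain ⟨y0, h2, h3⟩ := ivt (f := G) hG.continuous (c := -(384 * ε₁)) hy1 hy2 h1.le
        (by linarith)
      refine ⟨y0, h2, ?_⟩
      rw [h3, abs_neg, abs_of_pos (by positivity)]
  obtain ⟨y0, hy0, hGy0⟩ := hy0
  -- the cube of `G`
  have hG3 : ContDiff ℝ ∞ (fun y => G y * G y * G y) := (hG.mul hG).mul hG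
  have hpd3 : ∀ y ∈ d.Om (h / 2), ∀ k, |pd k (fun y => G y * G y * G y) y|
      ≤ 3 * C * (|G y * G y * G y| + w) := by
    intro y hy k
    have e : pd k (fun y => G y * G y * G y) y = 3 * (G y ^ 2 * pd k G y) := by
      rw [pdm (hG.mul hG) hG, pdm hG hG]
      ring
    have e2 : |G y * G y * G y| = |G y| ^ 3 := by
      rw [abs_mul, abs_mul]
      ring
    rw [e, e2, abs_mul, abs_mul, abs_of_nonneg (sq_nonneg (G y)),
      abs_of_nonneg (by norm_num : (0 : ℝ) ≤ 3), mul_assoc]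
    exact mul_le_mul_of_nonneg_left (hg y hy k) (by norm_num)
  have hstep : ∀ a b, Sg d.s a b → |G b * G b * G b| ≤ E * (|G a * G a * G a| + w) := by
    intro a b hab
    rw [hE]
    refine seg hG3 (by positivity) hw0.le (hab.dist (by linarith [d.s2])) fun τ hτ k => ?_
    exact hpd3 _ (hsph _ (hab.norm hs0.le hτ)) k
  -- the point on the surface
  have hyn : |‖y‖ - d.s| < h / 2 := hy
  have hyn' := abs_lt.1 hyn
  have hyp : 0 < ‖y‖ := by linarith [d.s1]
  obtain ⟨z, hz⟩ : ∃ z : V, z = (d.s / ‖y‖) • y := ⟨_, rfl⟩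
  have hzn : ‖z‖ = d.s := by
    rw [hz, norm_smul, Real.norm_eq_abs, abs_of_pos (by positivity)]
    field_simp
  have c1 := conn hs0 hE1 hw0.le (m := fun y => |G y * G y * G y|) hstep hy0 hzn
  have hyz : ∀ τ ∈ Icc (0 : ℝ) 1, z + τ • (y - z) ∈ d.Om (h / 2) := by
    intro τ hτ
    have e1 : z + τ • (y - z) = ((1 - τ) * (d.s / ‖y‖) + τ) • y := by
      rw [hz]
      module
    have ht1 : 0 ≤ 1 - τ := by linarith [hτ.2]
    have e2 : 0 ≤ (1 - τ) * (d.s / ‖y‖) + τ := by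
      have := hτ.1
      positivity
    have e3 : ‖z + τ • (y - z)‖ = (1 - τ) * d.s + τ * ‖y‖ := by
      rw [e1, norm_smul, Real.norm_eq_abs, abs_of_nonneg e2]
      field_simp
    show |‖z + τ • (y - z)‖ - d.s| < h / 2
    rw [e3]
    have e4 : (1 - τ) * d.s + τ * ‖y‖ - d.s = τ * (‖y‖ - d.s) := by ring
    rw [e4, abs_mul, abs_of_nonneg hτ.1]
    exact lt_of_le_of_lt (mul_le_of_le_one_left (abs_nonneg _) hτ.2) hyn
  have c2 : |G y * G y * G y| ≤ E * (|G z * G z * G z| + w) := by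
    rw [hE]
    refine seg hG3 (by positivity) hw0.le ?_ fun τ hτ k => hpd3 _ (hyz τ hτ) k
    have e1 : y - z = (1 - d.s / ‖y‖) • y := by
      rw [hz, sub_smul, one_smul]
    have e2 : ‖y - z‖ = |‖y‖ - d.s| := by
      rw [e1, norm_smul, Real.norm_eq_abs]
      have : (1 - d.s / ‖y‖) = (‖y‖ - d.s) / ‖y‖ := by field_simp
      rw [this, abs_div, abs_of_pos hyp]
      field_simp
    rw [e2]
    linarith
  have c3 : |G y0 * G y0 * G y0| ≤ w := by
    rw [abs_mul, abs_mul]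
    have := abs_nonneg (G y0)
    have f1 : |G y0| * |G y0| ≤ 1 * 1 := mul_le_mul (by linarith) (by linarith) this zero_le_one
    calc |G y0| * |G y0| * |G y0| ≤ 1 * 1 * |G y0| := mul_le_mul_of_nonneg_right f1 this
      _ = |G y0| := by ring
      _ ≤ w := hGy0.trans h14
  have c4 : |G y| ^ 3 ≤ κ ^ 3 := by
    have e2 : |G y * G y * G y| = |G y| ^ 3 := by
      rw [abs_mul, abs_mul]
      ring
    rw [← e2]
    have c1' : |G z * G z * G z| ≤ E ^ 8 * (|G y0 * G y0 * G y0| + 8 * w) := c1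
    have hE8 : 1 ≤ E ^ 8 := one_le_pow₀ hE1
    calc |G y * G y * G y| ≤ E * (E ^ 8 * (w + 8 * w) + E ^ 8 * w) := by
          refine c2.trans (mul_le_mul_of_nonneg_left ?_ hE0.le)
          have f1 : |G z * G z * G z| ≤ E ^ 8 * (w + 8 * w) :=
            c1'.trans (mul_le_mul_of_nonneg_left (by linarith) (by positivity))
          have f2 : w ≤ E ^ 8 * w := le_mul_of_one_le_left hw0.le hE8
          linarith
      _ = 10 * (E ^ 9 * w) := by ring
      _ = 10 * (κ ^ 3 / 16) := by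
        rw [hw]
        field_simp
      _ ≤ κ ^ 3 := by
        have : 0 ≤ κ ^ 3 := by positivity
        linarith
  have c5 : |G y| ≤ κ := le_of_pow_le_pow_left₀ (by norm_num) hκ0.le c4
  -- the vorticity
  have e1 := Z_eq (vc (d.u d.t)) i y
  rw [← hGd] at e1
  have e2 : ZZ (vc (d.u d.t)) i y = R2 y * vc (d.u d.t) i y := rfl
  rw [e2] at e1
  have hR2 := d.R2_ge hh1 hy
  have e3 : R2 y * |vc (d.u d.t) i y| ≤ 2 * κ := by
    have f1 : R2 y * |vc (d.u d.t) i y| = |R2 y * vc (d.u d.t) i y| := by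
      rw [abs_mul, abs_of_nonneg (R2_nonneg y)]
    rw [f1, e1]
    refine (abs_add_le _ _).trans ?_
    have f2 : |G y * y i| ≤ κ := by
      rw [abs_mul]
      have : |y i| ≤ 1 := (norm_le_pi_norm y i).trans (d.norm_le (by linarith) hy)
      calc |G y| * |y i| ≤ κ * 1 := mul_le_mul c5 this (abs_nonneg _) hκ0.le
        _ = κ := mul_one _
    have f3 := ha y hy i
    linarith
  have e4 : 1 / 8000 * |vc (d.u d.t) i y| ≤ R2 y * |vc (d.u d.t) i y| :=
    mul_le_mul_of_nonneg_right hR2 (abs_nonneg _)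
  have e5 : κ * 32000 = ε := by rw [hκ]; ring
  linarith

end Pool.Agent.H2CV
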